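import Pool.Agent.H37.CH.Alg

/-! The combinatorial algorithm, from the signs of determinants. -/

set_option autoImplicit false

namespace Pool.Agent.H54.FD

open Pool.Agent.H37.CH (Src Key)

/-- A combination of rows: its support, and the number of unknowns eliminated. -/
abbrev Ray : Type := List ℕ × ℕ

/-- A column: `(0, c)` for the column `c` of `A`, `(1, 0)` for the right-hand side, `(2, i)` for
the unit vector number `i`. -/
abbrev Col : Type := ℕ × ℕ

/-- the entry number `i` of a column -/
def csrc (u : Col) (i : ℕ) : Src :=
  if u.1 = 0 then (false, [0, i, u.2]) else if u.1 = 1 then (false, [1, i])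
  else if u.2 = i then (false, [2]) else (false, [3])

/-- the entries of the matrix of a query: `R`, `R'` are the rays and `u'` the column which belong
to the positions `d`, `d'` -/
def ent (m n : ℕ) (R : Ray) (u' : Col) (d d' : ℕ × ℕ) : Src :=
  if d.2 < n then
    (if d'.2 < n then (if d = d' then (false, [2]) else (false, [3]))
    else if d'.2 < n + m then
      (if d.1 = d'.1 ∧ d'.2 - n ∈ R.1 ∧ d.2 < R.2 then (false, [0, d'.2 - n, d.2])
        else (false, [3]))
    else (false, [3]))
  else if d.2 < n + m then
    (if d'.2 < n then
      (if d.1 = d'.1 ∧ d.2 - n ∈ R.1 ∧ d'.2 < R.2 then (true, [0, d.2 - n, d'.2])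
        else (false, [3]))
    else if d'.2 < n + m then
      (if d = d' ∧ (¬ (d.2 - n ∈ R.1) ∨ R.1.headD 0 = d.2 - n) then (false, [2])
        else (false, [3]))
    else csrc u' (d.2 - n))
  else
    (if d'.2 < n then (false, [3])
    else if d'.2 < n + m then
      (if d.1 = d'.1 ∧ R.1.headD 0 = d'.2 - n then (false, [2]) else (false, [3]))
    else (false, [3]))

/-- the positions -/
def posn (Rs : List Ray) (S : List ℕ) : List (ℕ × ℕ) :=
  (List.range Rs.length).flatMap fun a => S.map fun r => (a, r)

/-- the matrix with the positions `P` -/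
def mkey (m n : ℕ) (Rs : List Ray) (us : List Col) (P : List (ℕ × ℕ)) : Key :=
  P.map fun d => P.map fun d' => ent m n (Rs.getD d.1 ([], 0)) (us.getD d'.1 (0, 0)) d d'

/-- the query for the determinant of the scalar products -/
def kq (m n : ℕ) (Rs : List Ray) (us : List Col) : Key :=
  mkey m n Rs us (posn Rs (List.range (n + m + 1)))

/-- the query for the nondegeneracy of a ray -/
def kn (m n : ℕ) (R : Ray) : Key := mkey m n [R] [] (posn [R] (List.range (n + m)))

/-- the sign of a query -/
def sgk (K : Key) (q : ℕ) : ℤ := if (K.length - 1 + q) % 2 = 0 then 1 else -1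

/-- the columns of the fixed unknowns -/
def cols (T : List Ray) : List Col := T.map fun R => (0, R.2)

section

variable (s : Key → ℤ) (m n : ℕ)

/-- the sign of the determinant of the scalar products -/
def qs (Rs : List Ray) (us : List Col) : ℤ := sgk (kq m n Rs us) Rs.length * s (kq m n Rs us)

/-- the sign of the determinant of the fixed unknowns -/
def qT (T : List Ray) : ℤ := if T = [] then 1 else qs s m n T (cols T)

/-- the sign of the entry `c` of the direction of `R` -/
def nu (R : Ray) (c : ℕ) : ℤ := qs s m n [R] [(0, c)]

/-- the directions are the same -/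
def par (R R' : Ray) (ks : List ℕ) : Bool :=
  ks.all fun c => decide (nu s m n R c = nu s m n R' c) &&
    ks.all fun c' => decide (qs s m n [R, R'] [(0, c), (0, c')] = 0)

/-- the direction is not zero -/
def nz (R : Ray) (ks : List ℕ) : Bool := ks.any fun c => decide (nu s m n R c ≠ 0)

/-- comparison of the values -/
def cmpB (T : List Ray) (R R' : Ray) (c : ℕ) : ℤ :=
  - (nu s m n R c * (qs s m n (R :: R' :: T) ((0, c) :: (1, 0) :: cols T) * qT s m n T))

/-- comparison of the coefficients of the row `i` -/
def cmpI (R R' : Ray) (c i : ℕ) : ℤ :=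
  - (nu s m n R c * qs s m n [R, R'] [(0, c), (2, i)])

/-- `R` is better than `R'` -/
def better (T : List Ray) (R R' : Ray) (ks : List ℕ) : Bool :=
  ks.any fun c => decide (nu s m n R c ≠ 0) && (decide (0 < cmpB s m n T R R' c) ||
    (decide (cmpB s m n T R R' c = 0) && (List.range m).any fun i =>
      decide (cmpI s m n R R' c i < 0) && (List.range m).all fun i' =>
        decide (i ≤ i') || decide (cmpI s m n R R' c i' = 0)))

/-- one combination for every direction -/
def red (T : List Ray) (C : List (List ℕ)) (j : ℕ) (ks : List ℕ) : List (List ℕ) :=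
  ((C.filter fun L => nz s m n (L, j) ks).zipIdx.filter fun p =>
    (C.filter fun L => nz s m n (L, j) ks).zipIdx.all fun p' => decide (p'.2 = p.2) ||
      (!par s m n (p.1, j) (p'.1, j) ks || (if p'.2 < p.2 then
        better s m n T (p.1, j) (p'.1, j) ks else !better s m n T (p'.1, j) (p.1, j) ks))).map
    Prod.fst

/-- the union of two supports -/
def uni (L L' : List ℕ) : List ℕ :=
  (List.range m).filter fun i => decide (i ∈ L) || decide (i ∈ L')

/-- elimination of the unknown `j` -/
def gen (K : List (List ℕ)) (j : ℕ) : List (List ℕ) :=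
  (K.filter fun L => decide (nu s m n (L, j) j = 0)) ++ K.flatMap fun L => K.flatMap fun L' =>
    if nu s m n (L, j) j = 1 ∧ nu s m n (L', j) j = -1 ∧ s (kn m n (uni m L L', j + 1)) ≠ 0 then
      [uni m L L'] else []

/-- the bound used for the last unknown -/
def pick (K : List (List ℕ)) (j : ℕ) : List Ray :=
  (((K.filter fun L => decide (nu s m n (L, j) j = 1)) ++
    K.filter fun L => decide (nu s m n (L, j) j = -1)).take 1).map fun L => (L, j)

/-- the first `k` columns -/
def cks (k : ℕ) : List ℕ := (List.range n).filter fun c => decide (c < k)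

/-- the supports of the rows -/
def units : List (List ℕ) := (List.range m).map fun i => [i]

/-- A state: the number of unknowns, the number of eliminated unknowns, the supports, the fixed
unknowns. -/
abbrev St : Type := (ℕ × ℕ) × (List (List ℕ) × List Ray)

/-- A step; `cap` is the bound for the number of directions. -/
def stepS (cap : List Unit) (st : St) : St :=
  if st.1.1 = 0 then st
  else if st.1.2 + 1 < st.1.1 then
    ((st.1.1, st.1.2 + 1), (gen s m n ((red s m n st.2.2 st.2.1 st.1.2
      (cks n st.1.1)).take cap.length) st.1.2, st.2.2))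
  else ((st.1.1 - 1, 0), (units m, pick s m n ((red s m n st.2.2 st.2.1 st.1.2
      (cks n st.1.1)).take cap.length) st.1.2 ++ st.2.2))

/-- the start -/
def st0 : St := ((n, 0), (units m, []))

/-- the answer -/
def fin (st : St) : Bool := (List.range m).all fun i =>
  decide (qs s m n (([i], 0) :: st.2.2) ((1, 0) :: cols st.2.2) * qT s m n st.2.2 ≤ 0)

end

end Pool.Agent.H54.FD
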