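import Pool.Agent.H54.FD.Cone

/-! Scalar products with elementary combinations, by determinants. -/

set_option autoImplicit false

namespace Pool.Agent.H54.FD

open Finset Matrix

section

variable {m n q : ℕ} (A : Matrix (Fin m) (Fin n) ℝ) (S : Fin q → Fin m → Prop)
  [∀ a i, Decidable (S a i)] (h : Fin q → Fin m) (jj : Fin q → ℕ)

/-- the blocks of `A` -/
def AA : Matrix (Fin q × Fin m) (Fin q × Fin n) ℝ := Matrix.of fun x y =>
  if x.1 = y.1 ∧ S x.1 x.2 ∧ (y.2 : ℕ) < jj x.1 then A x.2 y.2 else 0

/-- the diagonal block -/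
def EE : Matrix (Fin q × Fin m) (Fin q × Fin m) ℝ := Matrix.of fun x y =>
  if x = y ∧ (¬ S x.1 x.2 ∨ h x.1 = x.2) then 1 else 0

/-- the matrix without border -/
noncomputable def DD : Matrix ((Fin q × Fin n) ⊕ (Fin q × Fin m))
    ((Fin q × Fin n) ⊕ (Fin q × Fin m)) ℝ :=
  Matrix.fromBlocks 1 (AA A S jj)ᵀ (-(AA A S jj)) (EE S h)

theorem DD_det : (DD A S h jj).det = (EE S h + AA A S jj * (AA A S jj)ᵀ).det := by
  unfold DD
  rw [Matrix.det_fromBlocks_one₁₁, Matrix.neg_mul, sub_neg_eq_add]

theorem quad (y : Fin q × Fin m → ℝ) :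
    y ⬝ᵥ ((EE S h + AA A S jj * (AA A S jj)ᵀ) *ᵥ y) =
      (∑ x, if (¬ S x.1 x.2 ∨ h x.1 = x.2) then y x ^ 2 else 0) +
        ∑ z, ((AA A S jj)ᵀ *ᵥ y) z ^ 2 := by
  rw [Matrix.add_mulVec, dotProduct_add]
  congr 1
  · unfold dotProduct
    refine Finset.sum_congr rfl fun x _ => ?_
    have : (EE S h *ᵥ y) x = if (¬ S x.1 x.2 ∨ h x.1 = x.2) then y x else 0 := by
      unfold Matrix.mulVec dotProduct
      rw [Finset.sum_eq_single x]
      · simp only [EE, Matrix.of_apply, true_and]
        split_ifs <;> simp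
      · intro z _ hz
        simp only [EE, Matrix.of_apply]
        rw [if_neg (fun h => hz h.1.symm), zero_mul]
      · intro hx
        exact absurd (mem_univ x) hx
    rw [this]
    split_ifs <;> ring
  · rw [← Matrix.mulVec_mulVec, Matrix.dotProduct_mulVec, ← Matrix.mulVec_transpose]
    unfold dotProduct
    exact Finset.sum_congr rfl fun z _ => by ring

/-- the combination in the block `a` -/
theorem AAT_apply (y : Fin q × Fin m → ℝ) (a : Fin q) (c : Fin n) :
    ((AA A S jj)ᵀ *ᵥ y) (a, c) =
      if (c : ℕ) < jj a then dir A (fun i => if S a i then y (a, i) else 0) c else 0 := by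
  unfold Matrix.mulVec dotProduct
  rw [Fintype.sum_prod_type, Finset.sum_eq_single a]
  · by_cases hc : (c : ℕ) < jj a
    · rw [if_pos hc]
      unfold dir
      refine Finset.sum_congr rfl fun i _ => ?_
      simp only [Matrix.transpose_apply, AA, Matrix.of_apply, true_and]
      by_cases hs : S a i
      · rw [if_pos ⟨hs, hc⟩, if_pos hs, mul_comm]
      · rw [if_neg (fun h => hs h.1), if_neg hs, zero_mul, zero_mul]
    · rw [if_neg hc]
      refine Finset.sum_eq_zero fun i _ => ?_
      simp only [Matrix.transpose_apply, AA, Matrix.of_apply, true_and]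
      rw [if_neg (fun h => hc h.2), zero_mul]
  · intro a' _ ha'
    refine Finset.sum_eq_zero fun i _ => ?_
    simp only [Matrix.transpose_apply, AA, Matrix.of_apply]
    rw [if_neg (fun h => ha' h.1), zero_mul]
  · intro h
    exact absurd (mem_univ a) h

/-- the nondegeneracy condition -/
def NS (a : Fin q) : Prop := ∀ y : Fin m → ℝ, (∀ i, ¬ S a i → y i = 0) → y (h a) = 0 →
  Ker A (jj a) y → y = 0

theorem ker_of_quad {y : Fin q × Fin m → ℝ}
    (h0 : (∑ x, if (¬ S x.1 x.2 ∨ h x.1 = x.2) then y x ^ 2 else 0) +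
        ∑ z, ((AA A S jj)ᵀ *ᵥ y) z ^ 2 = 0) (hNS : ∀ a, NS A S h jj a) : y = 0 := by
  have n1 : 0 ≤ ∑ x, if (¬ S x.1 x.2 ∨ h x.1 = x.2) then y x ^ 2 else 0 :=
    Finset.sum_nonneg fun x _ => by split_ifs <;> positivity
  have n2 : 0 ≤ ∑ z, ((AA A S jj)ᵀ *ᵥ y) z ^ 2 := Finset.sum_nonneg fun z _ => by positivity
  have z1 := (Finset.sum_eq_zero_iff_of_nonneg (fun x _ => by split_ifs <;> positivity)).1
    (le_antisymm (by linarith) n1)
  have z2 := (Finset.sum_eq_zero_iff_of_nonneg (fun x _ => by positivity)).1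
    (le_antisymm (by linarith) n2)
  have e1 : ∀ a i, (¬ S a i ∨ h a = i) → y (a, i) = 0 := by
    intro a i hai
    have := z1 (a, i) (mem_univ _)
    rw [if_pos hai] at this
    exact pow_eq_zero_iff (two_ne_zero) |>.1 this
  funext x
  obtain ⟨a, i⟩ := x
  have key := hNS a (fun i => if S a i then y (a, i) else 0) (fun i hi => if_neg hi)
    (by
      show (if S a (h a) then y (a, h a) else 0) = 0
      rw [e1 a (h a) (Or.inr rfl)]
      simp)
    (fun c hc => by
      have h2 := z2 (a, c) (mem_univ _)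
      rw [AAT_apply, if_pos hc] at h2
      exact pow_eq_zero_iff (two_ne_zero) |>.1 h2)
  by_cases hs : S a i
  · have := congrFun key i
    simpa [hs] using this
  · exact e1 a i (Or.inl hs)

theorem DD_pos (hNS : ∀ a, NS A S h jj a) : 0 < (DD A S h jj).det := by
  rw [DD_det]
  refine Matrix.PosDef.det_pos (Matrix.PosDef.of_dotProduct_mulVec_pos ?_ fun y hy => ?_)
  · refine Matrix.IsHermitian.add ?_ ?_
    · ext x y
      simp only [EE, Matrix.conjTranspose_apply, Matrix.of_apply, star_trivial]
      by_cases hxy : x = y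
      · subst hxy; rfl
      · rw [if_neg (fun h => hxy h.1.symm), if_neg (fun h => hxy h.1)]
    · have := Matrix.isHermitian_mul_conjTranspose_self (AA A S jj)
      rwa [Matrix.conjTranspose_eq_transpose_of_trivial] at this
  · have : star y = y := by
      funext x
      simp
    rw [this, quad]
    have n1 : 0 ≤ ∑ x, if (¬ S x.1 x.2 ∨ h x.1 = x.2) then y x ^ 2 else 0 :=
      Finset.sum_nonneg fun x _ => by split_ifs <;> positivity
    have n2 : 0 ≤ ∑ z, ((AA A S jj)ᵀ *ᵥ y) z ^ 2 := Finset.sum_nonneg fun z _ => by positivity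
    refine lt_of_le_of_ne (by linarith) fun h0 => hy (ker_of_quad A S h jj h0.symm hNS)

/-- the converse, for one block -/
theorem NS_of_det (a : Fin q) (hdet : (DD A S h jj).det ≠ 0) : NS A S h jj a := by
  intro y hy0 hyh hK
  rw [DD_det] at hdet
  let z : Fin q × Fin m → ℝ := fun x => if x.1 = a then y x.2 else 0
  have hz : (AA A S jj)ᵀ *ᵥ z = 0 := by
    funext x
    obtain ⟨a', c⟩ := x
    rw [AAT_apply]
    by_cases ha : a' = a
    · subst ha
      have : (fun i => if S a' i then z (a', i) else 0) = y := by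
        funext i
        simp only [z, if_true]
        split_ifs with hs
        · rfl
        · exact (hy0 i hs).symm
      rw [this]
      split_ifs with hc
      · exact hK c hc
      · rfl
    · have : (fun i => if S a' i then z (a', i) else 0) = 0 := by
        funext i
        simp [z, ha]
      rw [this, dir_zero]
      simp
  have hE : EE S h *ᵥ z = 0 := by
    funext x
    obtain ⟨a', i⟩ := x
    unfold Matrix.mulVec dotProduct
    refine Finset.sum_eq_zero fun x' _ => ?_
    simp only [EE, Matrix.of_apply]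
    split_ifs with hx
    · obtain ⟨rfl, hx2⟩ := hx
      simp only [z]
      by_cases ha : a' = a
      · subst ha
        rcases hx2 with h1 | h1
        · have h1' : ¬ S a' i := h1
          simp [hy0 i h1']
        · have h1' : h a' = i := h1
          rw [← h1']
          simp [hyh]
      · simp [ha]
    · simp
  have hz0 : z = 0 := by
    by_contra hne
    refine hdet (Matrix.exists_mulVec_eq_zero_iff.1 ⟨z, hne, ?_⟩)
    rw [Matrix.add_mulVec, hE, ← Matrix.mulVec_mulVec, hz, Matrix.mulVec_zero, add_zero]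
  funext i
  have := congrFun hz0 (a, i)
  simpa [z] using this

variable (u v : Fin q → Fin m → ℝ)

/-- the right border -/
def UU : Matrix ((Fin q × Fin n) ⊕ (Fin q × Fin m)) (Fin q) ℝ := Matrix.of fun x b =>
  match x with
  | Sum.inl _ => 0
  | Sum.inr y => u b y.2

/-- the lower border -/
def RR : Matrix (Fin q) ((Fin q × Fin n) ⊕ (Fin q × Fin m)) ℝ := Matrix.of fun b x =>
  match x with
  | Sum.inl _ => 0
  | Sum.inr y => if b = y.1 ∧ h b = y.2 then 1 else 0

/-- the combinations -/
def ZZ : Matrix (Fin q) ((Fin q × Fin n) ⊕ (Fin q × Fin m)) ℝ := Matrix.of fun b x =>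
  match x with
  | Sum.inl _ => 0
  | Sum.inr y => if b = y.1 then v b y.2 else 0

variable {A S h jj v}

theorem ZZ_mul (hS : ∀ a i, ¬ S a i → v a i = 0) (hh : ∀ a, v a (h a) = 1)
    (hK : ∀ a, Ker A (jj a) (v a)) :
    ZZ (n := n) v * DD A S h jj = RR h := by
  ext b x
  rw [Matrix.mul_apply, Fintype.sum_sum_type]
  have e0 : ∑ w : Fin q × Fin n, ZZ (n := n) v b (Sum.inl w) * DD A S h jj (Sum.inl w) x = 0 :=
    Finset.sum_eq_zero fun w _ => by simp [ZZ]
  rw [e0, zero_add, Fintype.sum_prod_type, Finset.sum_eq_single b]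
  · rcases x with ⟨a, c⟩ | ⟨a, i⟩
    · simp only [ZZ, DD, RR, Matrix.of_apply, Matrix.fromBlocks_apply₂₁, Matrix.neg_apply, if_true,
        AA]
      by_cases hab : b = a ∧ (c : ℕ) < jj b
      · have h1 := hK b c hab.2
        unfold dir at h1
        rw [← neg_eq_zero, ← Finset.sum_neg_distrib]
        rw [← h1]
        refine Finset.sum_congr rfl fun i _ => ?_
        by_cases hs : S b i
        · rw [if_pos ⟨hab.1, hs, hab.2⟩]
          ring
        · rw [hS b i hs]
          ring
      · refine Finset.sum_eq_zero fun i _ => ?_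
        rw [if_neg (fun h => hab ⟨h.1, h.2.2⟩), neg_zero, mul_zero]
    · simp only [ZZ, DD, RR, Matrix.of_apply, Matrix.fromBlocks_apply₂₂, if_true, EE]
      by_cases hab : b = a
      · subst hab
        rw [Finset.sum_eq_single i]
        · by_cases h1 : h b = i
          · subst h1
            rw [if_pos ⟨rfl, Or.inr rfl⟩, if_pos ⟨rfl, rfl⟩, hh, mul_one]
          · rw [if_neg (show ¬ (b = b ∧ h b = i) from fun h => h1 h.2)]
            by_cases hs : S b i
            · have hx : ¬ ((b, i) = (b, i) ∧ (¬ S (b, i).1 (b, i).2 ∨ h (b, i).1 = (b, i).2)) := by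
                rintro ⟨-, h2 | h2⟩
                · exact h2 hs
                · exact h1 h2
              rw [if_neg hx, mul_zero]
            · rw [hS b i hs, zero_mul]
        · intro i' _ hi'
          rw [if_neg (fun h => hi' (congrArg Prod.snd h.1)), mul_zero]
        · intro h
          exact absurd (mem_univ i) h
      · rw [if_neg (fun h => hab h.1)]
        refine Finset.sum_eq_zero fun i' _ => ?_
        rw [if_neg (fun h => hab (congrArg Prod.fst h.1)), mul_zero]
  · intro a _ ha
    refine Finset.sum_eq_zero fun i _ => ?_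
    simp only [ZZ, Matrix.of_apply]
    rw [if_neg (Ne.symm ha), zero_mul]
  · intro h
    exact absurd (mem_univ b) h

theorem det_border (hNS : ∀ a, NS A S h jj a) (hS : ∀ a i, ¬ S a i → v a i = 0)
    (hh : ∀ a, v a (h a) = 1) (hK : ∀ a, Ker A (jj a) (v a)) :
    (Matrix.fromBlocks (DD A S h jj) (UU (n := n) u) (RR h) 0).det =
      (DD A S h jj).det * ((-1) ^ q * (Matrix.of fun a b => dot (u b) (v a)).det) := by
  have hpos := DD_pos A S h jj hNS
  have hunit : IsUnit (DD A S h jj).det := (ne_of_gt hpos).isUnit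
  let _ := Matrix.invertibleOfIsUnitDet _ hunit
  rw [Matrix.det_fromBlocks₁₁]
  congr 1
  have e1 : RR (n := n) h * ⅟(DD A S h jj) = ZZ (n := n) v := by
    rw [← ZZ_mul hS hh hK, Matrix.mul_assoc, mul_invOf_self, Matrix.mul_one]
  rw [e1, zero_sub, Matrix.det_neg, Fintype.card_fin]
  congr 2
  ext a b
  rw [Matrix.mul_apply, Fintype.sum_sum_type]
  have e0 : ∑ w : Fin q × Fin n, ZZ (n := n) v a (Sum.inl w) * UU (n := n) u (Sum.inl w) b = 0 :=
    Finset.sum_eq_zero fun w _ => by simp [ZZ]
  rw [e0, zero_add, Fintype.sum_prod_type, Finset.sum_eq_single a]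
  · simp only [ZZ, UU, Matrix.of_apply, if_true, dot]
    exact Finset.sum_congr rfl fun i _ => by ring
  · intro a' _ ha
    refine Finset.sum_eq_zero fun i _ => ?_
    simp only [ZZ, Matrix.of_apply]
    rw [if_neg (Ne.symm ha), zero_mul]
  · intro h
    exact absurd (mem_univ a) h

end

end Pool.Agent.H54.FD
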