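import Pool.Agent.H54.FD.Cone

/-! Elimination of all unknowns but one gives the exact bounds for it. -/

set_option autoImplicit false

namespace Pool.Agent.H54.FD

open Finset

variable {m n : ℕ} {A : Matrix (Fin m) (Fin n) ℝ} {b : Fin m → ℝ} {j k : ℕ}

/-- the scalar product, as a linear map -/
def dotL (b : Fin m → ℝ) : (Fin m → ℝ) →ₗ[ℝ] ℝ where
  toFun := dot b
  map_add' := dot_add b
  map_smul' t w := dot_smul b w t

/-- an entry of the combination, as a linear map -/
def dirL (A : Matrix (Fin m) (Fin n) ℝ) (c : Fin n) : (Fin m → ℝ) →ₗ[ℝ] ℝ where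
  toFun w := dir A w c
  map_add' v w := dir_add A v w c
  map_smul' t w := dir_smul A w t c

theorem dot_sub_left (b b' w : Fin m → ℝ) : dot (b - b') w = dot b w - dot b' w := by
  simp [dot, sub_mul, Finset.sum_sub_distrib]

theorem dot_smul_left (t : ℝ) (b w : Fin m → ℝ) : dot (t • b) w = t * dot b w := by
  simp [dot, Finset.mul_sum, mul_assoc]

theorem dot_col (A : Matrix (Fin m) (Fin n) ℝ) (c : Fin n) (w : Fin m → ℝ) :
    dot (fun i => A i c) w = dir A w c := by
  unfold dot dir
  exact Finset.sum_congr rfl fun i _ => by ring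

/-- Farkas' lemma -/
theorem farkas (h : ¬ Feas A k b) : ∃ w : Fin m → ℝ, (∀ i, 0 ≤ w i) ∧ Ker A k w ∧ 0 < dot b w := by
  have h1 : ¬ Pool.Agent.H558R2.Feas
      ((fun i c => if (c : ℕ) < k then A i c else 0, b) : Pool.Agent.H558R2.Inp m n) := by
    rintro ⟨x, hx⟩
    refine h ⟨fun c => if (c : ℕ) < k then x c else 0, fun c hc => if_neg (by omega), fun i => ?_⟩
    refine (hx i).trans (le_of_eq ?_)
    refine Finset.sum_congr rfl fun c _ => ?_
    simp only
    split_ifs <;> simp
  obtain ⟨y, hy, hy2, hy3⟩ := (Pool.Agent.H622R3.SM.t_FARKAS m n _).1 h1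
  refine ⟨y, hy, fun c hc => ?_, ?_⟩
  · have := hy2 c
    simp only [if_pos hc] at this
    exact this
  · unfold dot
    refine lt_of_lt_of_eq hy3 (Finset.sum_congr rfl fun i _ => by ring)

/-- the new right-hand side -/
def shift (A : Matrix (Fin m) (Fin n) ℝ) (b : Fin m → ℝ) (c : Fin n) (t : ℝ) : Fin m → ℝ :=
  fun i => b i - t * A i c

theorem dot_shift (c : Fin n) (t : ℝ) (w : Fin m → ℝ) :
    dot (shift A b c t) w = dot b w - t * dir A w c := by
  have : shift A b c t = b - t • fun i => A i c := by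
    funext i
    simp [shift]
  rw [this, dot_sub_left, dot_smul_left, dot_col]

section

variable {c : Fin n} (hf : Feas A ((c : ℕ) + 1) b)

include hf

/-- if a choice of the last unknown is impossible, this is because of an optimal combination -/
theorem bad_elem {t : ℝ} (h : ¬ Feas A c (shift A b c t)) : ∃ v, Elem A c v ∧
    Opt A ((c : ℕ) + 1) b v ∧ dir A v c ≠ 0 ∧ t * dir A v c < dot b v := by
  classical
  obtain ⟨w, hw, hK, hd⟩ := farkas h
  obtain ⟨v, hv, hvd⟩ := exists_opt hf hw
  have h1 : dot b w ≤ dot b v := by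
    rcases hv.2 w hw (fun c' hc' => (hvd c' hc').symm) with h2 | h2
    · rw [h2]
    · have := h2.dot_nonneg
      rw [dot_sub] at this
      linarith
  have h2 : 0 < (dotL b - t • dirL A c) v := by
    show 0 < dot b v - t * dir A v c
    rw [hvd c (Nat.lt_succ_self _)]
    rw [dot_shift] at hd
    linarith
  have hKv : Ker A c v := fun c' hc' => by rw [hvd c' (by omega), hK c' hc']
  obtain ⟨u, e1, e2, e3⟩ := exists_elem (dotL b - t • dirL A c) _ v hv.1 hKv le_rfl h2
  have e4 : 0 < dot b u - t * dir A u c := e3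
  have ho := hv.part e1.1 e2
  refine ⟨u, e1, ho, fun h0 => ?_, by linarith⟩
  refine e1.2.1 (ho.ne_zero_dir hf fun c' hc' => ?_)
  rcases Nat.lt_succ_iff_lt_or_eq.1 hc' with h3 | h3
  · exact e1.2.2.1 c' h3
  · have : c' = c := Fin.ext h3
    rw [this, h0]

theorem feas_dot : ∃ x : ℝ,
    (∀ u : Fin m → ℝ, (∀ i, 0 ≤ u i) → Ker A c u → dot b u ≤ x * dir A u c) := by
  obtain ⟨x, hx0, hx⟩ := hf
  refine ⟨x c, fun u hu hK => ?_⟩
  calc dot b u ≤ ∑ i, (∑ c', A i c' * x c') * u i :=
        Finset.sum_le_sum fun i _ => mul_le_mul_of_nonneg_right (hx i) (hu i)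
    _ = ∑ c', x c' * dir A u c' := by
        simp only [Finset.sum_mul, dir, Finset.mul_sum]
        rw [Finset.sum_comm]
        exact Finset.sum_congr rfl fun c _ => Finset.sum_congr rfl fun i _ => by ring
    _ = x c * dir A u c := by
        rw [Finset.sum_eq_single c]
        · intro c' _ hne
          rcases lt_or_gt_of_ne hne with h | h
          · rw [hK c' h, mul_zero]
          · rw [hx0 c' h, zero_mul]
        · intro h
          exact absurd (mem_univ c) h

omit hf in
/-- two optimal combinations with the same direction are proportional -/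
theorem opt_unique {u v : Fin m → ℝ} (hu : Elem A c u) (hv : Elem A c v)
    (ou : Opt A ((c : ℕ) + 1) b u) (ov : Opt A ((c : ℕ) + 1) b v)
    (h : 0 < dir A u c * dir A v c) : ∃ s : ℝ, 0 < s ∧ v = s • u := by
  have hu0 : dir A u c ≠ 0 := fun h0 => by rw [h0, zero_mul] at h; exact lt_irrefl _ h
  have hs : 0 < dir A v c / dir A u c := by
    have e : dir A v c / dir A u c = dir A u c * dir A v c / (dir A u c * dir A u c) := by
      field_simp
    rw [e]
    exact div_pos h (mul_self_pos.2 hu0)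
  refine ⟨_, hs, ?_⟩
  have o2 := ou.smul hs
  have hd : ∀ c' : Fin n, (c' : ℕ) < (c : ℕ) + 1 →
      dir A v c' = dir A ((dir A v c / dir A u c) • u) c' := by
    intro c' hc'
    rw [dir_smul]
    rcases Nat.lt_succ_iff_lt_or_eq.1 hc' with h3 | h3
    · rw [hv.2.2.1 c' h3, hu.2.2.1 c' h3, mul_zero]
    · have : c' = c := Fin.ext h3
      rw [this, div_mul_cancel₀ _ hu0]
  rcases o2.2 v hv.1 hd with h1 | h1
  · exact h1
  · rcases ov.2 _ o2.1 (fun c' hc' => (hd c' hc').symm) with h2 | h2
    · exact h2.symm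
    · exfalso
      have := h1.asymm
      rw [neg_sub] at this
      exact this h2

theorem choose_pos {v : Fin m → ℝ} (hv : Elem A c v) (ov : Opt A ((c : ℕ) + 1) b v)
    (hp : 0 < dir A v c) : Feas A c (shift A b c (dot b v / dir A v c)) := by
  by_contra hn
  obtain ⟨u, e1, e2, e3, e4⟩ := bad_elem hf hn
  rcases lt_or_gt_of_ne e3 with h | h
  · obtain ⟨x, hx⟩ := feas_dot hf
    have h1 := hx v hv.1 hv.2.2.1
    have h2 := hx u e1.1 e1.2.2.1
    have h3 : dot b v / dir A v c ≤ x := (div_le_iff₀ hp).2 h1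
    have h4 := mul_le_mul_of_nonpos_right h3 h.le
    linarith
  · obtain ⟨s, hs, rfl⟩ := opt_unique hv e1 ov e2 (mul_pos hp h)
    rw [dir_smul, dot_smul] at e4
    have : dot b v / dir A v c * (s * dir A v c) = s * dot b v := by
      field_simp
    linarith

theorem choose_neg {v : Fin m → ℝ} (hv : Elem A c v) (ov : Opt A ((c : ℕ) + 1) b v)
    (hp : dir A v c < 0) (hno : ∀ u, Elem A c u → Opt A ((c : ℕ) + 1) b u → ¬ 0 < dir A u c) :
    Feas A c (shift A b c (dot b v / dir A v c)) := by
  by_contra hn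
  obtain ⟨u, e1, e2, e3, e4⟩ := bad_elem hf hn
  rcases lt_or_gt_of_ne e3 with h | h
  · obtain ⟨s, hs, rfl⟩ := opt_unique hv e1 ov e2 (mul_pos_of_neg_of_neg hp h)
    rw [dir_smul, dot_smul] at e4
    have : dot b v / dir A v c * (s * dir A v c) = s * dot b v := by
      rw [mul_left_comm, div_mul_cancel₀ _ hp.ne]
    linarith
  · exact hno u e1 e2 h

theorem choose_zero (hno : ∀ u, Elem A c u → Opt A ((c : ℕ) + 1) b u → dir A u c = 0) :
    Feas A c b := by
  by_contra hn
  have hn' : ¬ Feas A c (shift A b c 0) := by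
    have : shift A b c 0 = b := by
      funext i
      simp [shift]
    rwa [this]
  obtain ⟨u, e1, e2, e3, -⟩ := bad_elem hf hn'
  exact e3 (hno u e1 e2)

/-- a combination with positive last entry gives an optimal one -/
theorem exists_opt_dir {v : Fin m → ℝ} (hv : ∀ i, 0 ≤ v i) (hK : Ker A c v) {s : ℝ}
    (hs : 0 < s * dir A v c) :
    ∃ u, Elem A c u ∧ Opt A ((c : ℕ) + 1) b u ∧ 0 < s * dir A u c := by
  classical
  obtain ⟨w, hw, hwd⟩ := exists_opt hf hv
  have hKw : Ker A c w := fun c' hc' => by rw [hwd c' (by omega), hK c' hc']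
  obtain ⟨u, e1, e2, e3⟩ := exists_elem (s • dirL A c) _ w hw.1 hKw le_rfl (by
    show 0 < s * dir A w c
    rw [hwd c (Nat.lt_succ_self _)]
    exact hs)
  exact ⟨u, e1, hw.part e1.1 e2, e3⟩

end

end Pool.Agent.H54.FD
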