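import Mathlib
import Pool.Graph.R_seed8.H622R3.SM.T_FARKAS

/-! Elementary nonnegative combinations of the rows of a matrix, and optimal ones. -/

set_option autoImplicit false

namespace Pool.Agent.H54.FD

open Finset

variable {m n : ℕ}

/-- the combination of the rows of `A` with the coefficients `w` -/
def dir (A : Matrix (Fin m) (Fin n) ℝ) (w : Fin m → ℝ) (c : Fin n) : ℝ := ∑ i, w i * A i c

/-- the first `j` entries of the combination are zero -/
def Ker (A : Matrix (Fin m) (Fin n) ℝ) (j : ℕ) (w : Fin m → ℝ) : Prop :=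
  ∀ c : Fin n, (c : ℕ) < j → dir A w c = 0

/-- nonnegative combinations of minimal support among those which eliminate the first `j`
unknowns -/
def Elem (A : Matrix (Fin m) (Fin n) ℝ) (j : ℕ) (w : Fin m → ℝ) : Prop :=
  (∀ i, 0 ≤ w i) ∧ w ≠ 0 ∧ Ker A j w ∧
    ∀ d, Ker A j d → (∀ i, w i = 0 → d i = 0) → ∃ t : ℝ, d = t • w

/-- the scalar product -/
def dot (b w : Fin m → ℝ) : ℝ := ∑ i, b i * w i

/-- `d` is lexicographically positive: first the scalar product with `b`, then minus the
coordinates -/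
def Pos (b d : Fin m → ℝ) : Prop :=
  0 < dot b d ∨ (dot b d = 0 ∧ ∃ i, d i < 0 ∧ ∀ i' < i, d i' = 0)

/-- `w` is the best nonnegative combination with this value in the first `k` columns -/
def Opt (A : Matrix (Fin m) (Fin n) ℝ) (k : ℕ) (b w : Fin m → ℝ) : Prop :=
  (∀ i, 0 ≤ w i) ∧ ∀ v : Fin m → ℝ, (∀ i, 0 ≤ v i) →
    (∀ c : Fin n, (c : ℕ) < k → dir A v c = dir A w c) → v = w ∨ Pos b (w - v)

/-- feasibility with the first `k` columns -/
def Feas (A : Matrix (Fin m) (Fin n) ℝ) (k : ℕ) (b : Fin m → ℝ) : Prop :=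
  ∃ x : Fin n → ℝ, (∀ c : Fin n, k ≤ (c : ℕ) → x c = 0) ∧ ∀ i, b i ≤ ∑ c, A i c * x c

section lin

variable (A : Matrix (Fin m) (Fin n) ℝ) (b : Fin m → ℝ) (v w : Fin m → ℝ) (t : ℝ) (c : Fin n)

theorem dir_add : dir A (v + w) c = dir A v c + dir A w c := by
  simp [dir, add_mul, Finset.sum_add_distrib]

theorem dir_sub : dir A (v - w) c = dir A v c - dir A w c := by
  simp [dir, sub_mul, Finset.sum_sub_distrib]

theorem dir_smul : dir A (t • w) c = t * dir A w c := by
  simp [dir, Finset.mul_sum, mul_assoc]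

theorem dir_neg : dir A (-w) c = - dir A w c := by
  simp [dir]

theorem dir_zero : dir A 0 c = 0 := by
  simp [dir]

theorem dot_add : dot b (v + w) = dot b v + dot b w := by
  simp [dot, mul_add, Finset.sum_add_distrib]

theorem dot_sub : dot b (v - w) = dot b v - dot b w := by
  simp [dot, mul_sub, Finset.sum_sub_distrib]

theorem dot_smul : dot b (t • w) = t * dot b w := by
  simp only [dot, Pi.smul_apply, smul_eq_mul, Finset.mul_sum]
  exact Finset.sum_congr rfl fun i _ => by ring

theorem dot_neg : dot b (-w) = - dot b w := by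
  simp [dot]

theorem dot_zero : dot b 0 = 0 := by
  simp [dot]

end lin

section

variable {A : Matrix (Fin m) (Fin n) ℝ} {b : Fin m → ℝ} {j k : ℕ}

theorem Ker.add {v w : Fin m → ℝ} (hv : Ker A j v) (hw : Ker A j w) : Ker A j (v + w) :=
  fun c hc => by rw [dir_add, hv c hc, hw c hc, add_zero]

theorem Ker.sub {v w : Fin m → ℝ} (hv : Ker A j v) (hw : Ker A j w) : Ker A j (v - w) :=
  fun c hc => by rw [dir_sub, hv c hc, hw c hc, sub_zero]

theorem Ker.smul {w : Fin m → ℝ} (t : ℝ) (hw : Ker A j w) : Ker A j (t • w) :=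
  fun c hc => by rw [dir_smul, hw c hc, mul_zero]

theorem Ker.neg {w : Fin m → ℝ} (hw : Ker A j w) : Ker A j (-w) :=
  fun c hc => by rw [dir_neg, hw c hc, neg_zero]

theorem Ker.mono {w : Fin m → ℝ} {j' : ℕ} (h : j' ≤ j) (hw : Ker A j w) : Ker A j' w :=
  fun c hc => hw c (by omega)

theorem Ker.succ {w : Fin m → ℝ} {c : Fin n} (hc : (c : ℕ) = j) (hw : Ker A j w)
    (h : dir A w c = 0) : Ker A (j + 1) w := fun c' hc' => by
  rcases Nat.lt_succ_iff_lt_or_eq.1 hc' with h1 | h1
  · exact hw c' h1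
  · have : c' = c := Fin.ext (by omega)
    rw [this, h]

theorem Elem.smul {w : Fin m → ℝ} {t : ℝ} (ht : 0 < t) (h : Elem A j w) : Elem A j (t • w) := by
  obtain ⟨h1, h2, h3, h4⟩ := h
  refine ⟨fun i => mul_nonneg ht.le (h1 i), smul_ne_zero ht.ne' h2, h3.smul t, fun d hd hs => ?_⟩
  obtain ⟨s, rfl⟩ := h4 d hd fun i hi => hs i (by simp [hi])
  exact ⟨s / t, by rw [smul_smul, div_mul_cancel₀ _ ht.ne']⟩

/-! ### The order -/

theorem Pos.smul {d : Fin m → ℝ} {t : ℝ} (ht : 0 < t) (h : Pos b d) : Pos b (t • d) := by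
  rcases h with h | ⟨h, i, hi, hl⟩
  · left
    rw [dot_smul]
    exact mul_pos ht h
  · right
    refine ⟨by rw [dot_smul, h, mul_zero], i, ?_, fun i' hi' => by simp [hl i' hi']⟩
    exact mul_neg_of_pos_of_neg ht hi

theorem Pos.add {d e : Fin m → ℝ} (h : Pos b d) (h' : Pos b e) : Pos b (d + e) := by
  rcases h with h | ⟨h, i, hi, hl⟩ <;> rcases h' with h' | ⟨h', i', hi', hl'⟩
  · left
    rw [dot_add]
    linarith
  · left
    rw [dot_add]
    linarith
  · left
    rw [dot_add]
    linarith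
  · right
    refine ⟨by rw [dot_add, h, h', add_zero], ?_⟩
    rcases lt_trichotomy i i' with h1 | rfl | h1
    · exact ⟨i, by simp [hl' i h1, hi], fun l hl2 => by simp [hl l hl2, hl' l (hl2.trans h1)]⟩
    · exact ⟨i, by simp only [Pi.add_apply]; linarith, fun l hl2 => by simp [hl l hl2, hl' l hl2]⟩
    · exact ⟨i', by simp [hl i' h1, hi'], fun l hl2 => by simp [hl' l hl2, hl l (hl2.trans h1)]⟩

theorem not_pos_zero : ¬ Pos b 0 := by
  rintro (h | ⟨-, i, hi, -⟩)
  · rw [dot_zero] at h
    exact lt_irrefl _ h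
  · exact lt_irrefl _ hi

theorem Pos.asymm {d : Fin m → ℝ} (h : Pos b d) : ¬ Pos b (-d) := by
  intro h'
  have := h.add h'
  rw [add_neg_cancel] at this
  exact not_pos_zero this

theorem pos_or {d : Fin m → ℝ} (h : d ≠ 0) : Pos b d ∨ Pos b (-d) := by
  classical
  rcases lt_trichotomy (dot b d) 0 with h1 | h1 | h1
  · right; left
    rw [dot_neg]
    linarith
  · have h2 : (univ.filter fun i => d i ≠ 0).Nonempty := by
      by_contra h3
      rw [Finset.not_nonempty_iff_eq_empty] at h3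
      refine h (funext fun i => ?_)
      by_contra h4
      have : i ∈ (univ.filter fun i => d i ≠ 0) := by
        simp only [mem_filter, mem_univ, true_and]
        exact h4
      rw [h3] at this
      simp at this
    set i := (univ.filter fun i => d i ≠ 0).min' h2 with hi
    have hi1 : d i ≠ 0 := (mem_filter.1 ((univ.filter fun i => d i ≠ 0).min'_mem h2)).2
    have hi2 : ∀ i' < i, d i' = 0 := by
      intro i' hi'
      by_contra h4
      have := (univ.filter fun i => d i ≠ 0).min'_le i' (by simp [h4])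
      exact absurd hi' (not_lt.2 this)
    rcases lt_or_gt_of_ne hi1 with h3 | h3
    · left; right
      exact ⟨h1, i, h3, hi2⟩
    · right; right
      refine ⟨by rw [dot_neg, h1, neg_zero], i, by simpa using h3, fun i' hi' => by
        simp [hi2 i' hi']⟩
  · left; left
    exact h1

theorem Pos.ne {d : Fin m → ℝ} (h : Pos b d) : d ≠ 0 := by
  rintro rfl
  exact not_pos_zero h

theorem Pos.dot_nonneg {d : Fin m → ℝ} (h : Pos b d) : 0 ≤ dot b d := by
  rcases h with h | ⟨h, -⟩
  · exact h.le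
  · exact h.ge

/-! ### Optimal combinations -/

theorem dot_le_of_feas (hf : Feas A k b) {d : Fin m → ℝ} (hd : Ker A k d) (h0 : ∀ i, 0 ≤ d i) :
    dot b d ≤ 0 := by
  obtain ⟨x, hx0, hx⟩ := hf
  calc dot b d ≤ ∑ i, (∑ c, A i c * x c) * d i :=
        Finset.sum_le_sum fun i _ => mul_le_mul_of_nonneg_right (hx i) (h0 i)
    _ = ∑ c, x c * dir A d c := by
        simp only [Finset.sum_mul, dir, Finset.mul_sum]
        rw [Finset.sum_comm]
        exact Finset.sum_congr rfl fun c _ => Finset.sum_congr rfl fun i _ => by ring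
    _ = 0 := by
        refine Finset.sum_eq_zero fun c _ => ?_
        by_cases hc : (c : ℕ) < k
        · rw [hd c hc, mul_zero]
        · rw [hx0 c (by omega), zero_mul]

theorem Opt.smul {w : Fin m → ℝ} {t : ℝ} (ht : 0 < t) (h : Opt A k b w) : Opt A k b (t • w) := by
  refine ⟨fun i => mul_nonneg ht.le (h.1 i), fun v hv hd => ?_⟩
  rcases h.2 (t⁻¹ • v) (fun i => mul_nonneg (inv_pos.2 ht).le (hv i)) (fun c hc => by
    rw [dir_smul, hd c hc, dir_smul, inv_mul_cancel_left₀ ht.ne']) with h1 | h1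
  · left
    rw [← h1, smul_smul, mul_inv_cancel₀ ht.ne', one_smul]
  · right
    have := h1.smul ht
    rwa [smul_sub, smul_smul, mul_inv_cancel₀ ht.ne', one_smul] at this

theorem Opt.part {v w : Fin m → ℝ} (h : Opt A k b w) (h0 : ∀ i, 0 ≤ v i) (h1 : ∀ i, v i ≤ w i) :
    Opt A k b v := by
  refine ⟨h0, fun u hu hd => ?_⟩
  rcases h.2 (u + (w - v)) (fun i => add_nonneg (hu i) (sub_nonneg.2 (h1 i))) (fun c hc => by
    rw [dir_add, dir_sub, hd c hc]; ring) with h2 | h2
  · left
    have : u + (w - v) - (w - v) = w - (w - v) := by rw [h2]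
    simpa using this
  · right
    have e : w - (u + (w - v)) = v - u := by abel
    rwa [e] at h2

theorem Opt.ne_zero_dir (hf : Feas A k b) {w : Fin m → ℝ} (h : Opt A k b w)
    (h0 : ∀ c : Fin n, (c : ℕ) < k → dir A w c = 0) : w = 0 := by
  rcases h.2 0 (fun i => le_rfl) (fun c hc => by rw [dir_zero, h0 c hc]) with h1 | h1
  · exact h1.symm
  · rw [sub_zero] at h1
    exfalso
    have h2 := dot_le_of_feas hf h0 h.1
    rcases h1 with h3 | ⟨-, i, hi, -⟩
    · linarith
    · exact absurd (h.1 i) (not_le.2 hi)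

/-- independent support -/
def Basic (A : Matrix (Fin m) (Fin n) ℝ) (k : ℕ) (w : Fin m → ℝ) : Prop :=
  ∀ d, Ker A k d → (∀ i, w i = 0 → d i = 0) → d = 0

theorem purify (hf : Feas A k b) : ∀ (N : ℕ) (w : Fin m → ℝ), (∀ i, 0 ≤ w i) →
    (univ.filter fun i => w i ≠ 0).card ≤ N → ∃ v : Fin m → ℝ, (∀ i, 0 ≤ v i) ∧
      (∀ c : Fin n, (c : ℕ) < k → dir A v c = dir A w c) ∧ (v = w ∨ Pos b (v - w)) ∧
      Basic A k v := by
  classical
  intro N
  induction N with
  | zero =>
    intro w hw hN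
    refine ⟨w, hw, fun _ _ => rfl, Or.inl rfl, fun d _ hd => funext fun i => hd i ?_⟩
    by_contra h
    have h1 : i ∈ univ.filter fun i => w i ≠ 0 := by simp [h]
    have := Finset.card_pos.2 ⟨i, h1⟩
    omega
  | succ N ih =>
    intro w hw hN
    by_cases hB : Basic A k w
    · exact ⟨w, hw, fun _ _ => rfl, Or.inl rfl, hB⟩
    · unfold Basic at hB
      push Not at hB
      obtain ⟨d0, hd0, hs0, hne0⟩ := hB
      obtain ⟨d, hd, hs, hP⟩ : ∃ d, Ker A k d ∧ (∀ i, w i = 0 → d i = 0) ∧ Pos b d := by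
        rcases pos_or (b := b) hne0 with h | h
        · exact ⟨d0, hd0, hs0, h⟩
        · exact ⟨-d0, hd0.neg, fun i hi => by simp [hs0 i hi], h⟩
      have hneg : (univ.filter fun i => d i < 0).Nonempty := by
        by_contra h
        rw [Finset.not_nonempty_iff_eq_empty] at h
        have h0 : ∀ i, 0 ≤ d i := by
          intro i
          by_contra h1
          have : i ∈ univ.filter fun i => d i < 0 := by simp [not_le.1 h1]
          rw [h] at this
          simp at this
        have h2 := dot_le_of_feas hf hd h0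
        rcases hP with h3 | ⟨-, i, hi, -⟩
        · linarith
        · exact absurd (h0 i) (not_le.2 hi)
      obtain ⟨i0, hi0, hmin⟩ := Finset.exists_min_image (univ.filter fun i => d i < 0)
        (fun i => w i / (-d i)) hneg
      have hdi : d i0 < 0 := (mem_filter.1 hi0).2
      set t := w i0 / (-d i0) with ht
      have hwi : 0 < w i0 := by
        refine lt_of_le_of_ne (hw i0) fun h => ?_
        rw [hs i0 h.symm] at hdi
        exact lt_irrefl _ hdi
      have htp : 0 < t := div_pos hwi (by linarith)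
      have hv0 : ∀ i, 0 ≤ (w + t • d) i := by
        intro i
        simp only [Pi.add_apply, Pi.smul_apply, smul_eq_mul]
        by_cases h : d i < 0
        · have h1 := hmin i (mem_filter.2 ⟨mem_univ _, h⟩)
          rw [le_div_iff₀ (by linarith)] at h1
          linarith
        · have := mul_nonneg htp.le (not_lt.1 h)
          linarith [hw i]
      have hz : (w + t • d) i0 = 0 := by
        have e : t * (-d i0) = w i0 := by rw [ht, div_mul_cancel₀ _ (by linarith)]
        simp only [Pi.add_apply, Pi.smul_apply, smul_eq_mul]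
        linarith
      obtain ⟨v, h1, h2, h3, h4⟩ := ih (w + t • d) hv0 (by
        have hsub : (univ.filter fun i => (w + t • d) i ≠ 0) ⊂ univ.filter fun i => w i ≠ 0 := by
          rw [Finset.ssubset_iff_of_subset]
          · exact ⟨i0, by simp [hwi.ne'], by simp only [mem_filter, mem_univ, true_and, not_not]; exact hz⟩
          · intro i hi
            simp only [mem_filter, mem_univ, true_and] at hi ⊢
            intro h
            exact hi (by simp [h, hs i h])
        have := Finset.card_lt_card hsub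
        omega)
      refine ⟨v, h1, fun c hc => ?_, Or.inr ?_, h4⟩
      · rw [h2 c hc, dir_add, dir_smul, hd c hc, mul_zero, add_zero]
      · have hp := hP.smul htp
        rcases h3 with rfl | h3
        · have e : w + t • d - w = t • d := by abel
          rw [e]
          exact hp
        · have e : v - w = (v - (w + t • d)) + t • d := by abel
          rw [e]
          exact h3.add hp

theorem exists_opt (hf : Feas A k b) {w : Fin m → ℝ} (hw : ∀ i, 0 ≤ w i) :
    ∃ v, Opt A k b v ∧ (∀ c : Fin n, (c : ℕ) < k → dir A v c = dir A w c) := by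
  classical
  let B : Set (Fin m → ℝ) := {v | (∀ i, 0 ≤ v i) ∧
    (∀ c : Fin n, (c : ℕ) < k → dir A v c = dir A w c) ∧ Basic A k v}
  have hfin : B.Finite := by
    refine Set.Finite.of_finite_image
      (f := fun v : Fin m → ℝ => (univ.filter fun i => v i ≠ 0)) (Set.toFinite _) ?_
    intro v hv v' hv' he
    have he' : ∀ i, v i = 0 ↔ v' i = 0 := by
      intro i
      have : i ∈ (univ.filter fun i => v i ≠ 0) ↔ i ∈ (univ.filter fun i => v' i ≠ 0) := by
        simp only at he
        rw [he]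
      simp only [mem_filter, mem_univ, true_and] at this
      exact not_iff_not.1 this
    have := hv.2.2 (v - v') (fun c hc => by
      rw [dir_sub, hv.2.1 c hc, hv'.2.1 c hc, sub_self]) (fun i hi => by
        simp [hi, (he' i).1 hi])
    exact sub_eq_zero.1 this
  obtain ⟨v0, h1, h2, h3, h4⟩ := purify hf _ w hw le_rfl
  have hB0 : v0 ∈ B := ⟨h1, h2, h4⟩
  have : Finite B := hfin
  let R : B → B → Prop := fun x y => Pos b ((x : Fin m → ℝ) - y)
  have : IsTrans B R := ⟨fun x y z hxy hyz => by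
    have := Pos.add hxy hyz
    have e : (x : Fin m → ℝ) - y + (y - z) = x - z := by abel
    rwa [e] at this⟩
  have : Std.Irrefl R := ⟨fun x hx => by
    have hx' : Pos b ((x : Fin m → ℝ) - x) := hx
    rw [sub_self] at hx'
    exact not_pos_zero hx'⟩
  have hwf : WellFounded R := Finite.wellFounded_of_trans_of_irrefl R
  obtain ⟨v, -, hmin⟩ := hwf.has_min Set.univ ⟨⟨v0, hB0⟩, trivial⟩
  refine ⟨v, ⟨v.2.1, fun u hu hd => ?_⟩, v.2.2.1⟩
  obtain ⟨u', g1, g2, g3, g4⟩ := purify hf _ u hu le_rfl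
  have hu' : u' ∈ B := ⟨g1, fun c hc => by rw [g2 c hc, hd c hc, v.2.2.1 c hc], g4⟩
  have hn : ¬ Pos b (u' - v) := hmin ⟨u', hu'⟩ trivial
  by_cases he : u' = v
  · rcases g3 with h | h
    · left
      rw [← h, he]
    · right
      rwa [he] at h
  · have h5 : Pos b ((v : Fin m → ℝ) - u') := by
      rcases pos_or (b := b) (sub_ne_zero.2 he) with h | h
      · exact absurd h hn
      · rwa [neg_sub] at h
    right
    rcases g3 with h | h
    · rwa [h] at h5
    · have := h5.add h
      have e : (v : Fin m → ℝ) - u' + (u' - u) = v - u := by abel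
      rwa [e] at this

/-! ### Decomposition -/

theorem split {w d : Fin m → ℝ} (hw : ∀ i, 0 ≤ w i) (hw0 : w ≠ 0) (hs : ∀ i, w i = 0 → d i = 0)
    (hm : ∀ t : ℝ, d ≠ t • w) : ∃ a s₁ s₂ : ℝ, 0 < a ∧ (∀ i, 0 ≤ (a • (d - s₁ • w)) i) ∧
      (∀ i, 0 ≤ (a • (s₂ • w - d)) i) ∧ w = a • (d - s₁ • w) + a • (s₂ • w - d) ∧
      a • (d - s₁ • w) ≠ 0 ∧ a • (s₂ • w - d) ≠ 0 ∧
      (∃ i, w i ≠ 0 ∧ (a • (d - s₁ • w)) i = 0) ∧ ∃ i, w i ≠ 0 ∧ (a • (s₂ • w - d)) i = 0 := by
  classical
  have hne : (univ.filter fun i => w i ≠ 0).Nonempty := by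
    by_contra h
    rw [Finset.not_nonempty_iff_eq_empty] at h
    refine hw0 (funext fun i => ?_)
    by_contra h1
    have : i ∈ (univ.filter fun i => w i ≠ 0) := by simp only [mem_filter, mem_univ, true_and]; exact h1
    rw [h] at this
    simp at this
  obtain ⟨i1, hi1, hmin⟩ := Finset.exists_min_image _ (fun i => d i / w i) hne
  obtain ⟨i2, hi2, hmax⟩ := Finset.exists_max_image _ (fun i => d i / w i) hne
  have g1 : w i1 ≠ 0 := (mem_filter.1 hi1).2
  have g2 : w i2 ≠ 0 := (mem_filter.1 hi2).2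
  have p1 : 0 < w i1 := lt_of_le_of_ne (hw i1) g1.symm
  have p2 : 0 < w i2 := lt_of_le_of_ne (hw i2) g2.symm
  set s1 := d i1 / w i1 with hs1
  set s2 := d i2 / w i2 with hs2
  have hlo : ∀ i, 0 ≤ d i - s1 * w i := by
    intro i
    by_cases h : w i = 0
    · rw [h, hs i h]; simp
    · have := hmin i (by simp [h])
      rw [le_div_iff₀ (lt_of_le_of_ne (hw i) (Ne.symm h))] at this
      linarith
  have hhi : ∀ i, 0 ≤ s2 * w i - d i := by
    intro i
    by_cases h : w i = 0
    · rw [h, hs i h]; simp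
    · have := hmax i (by simp [h])
      rw [div_le_iff₀ (lt_of_le_of_ne (hw i) (Ne.symm h))] at this
      linarith
  have hlt : s1 < s2 := by
    refine lt_of_le_of_ne (hmin i2 hi2) fun h => hm s1 (funext fun i => ?_)
    have e1 := hlo i
    have e2 := hhi i
    rw [← h] at e2
    simp only [Pi.smul_apply, smul_eq_mul]
    linarith
  have ha : 0 < (s2 - s1)⁻¹ := inv_pos.2 (sub_pos.2 hlt)
  refine ⟨(s2 - s1)⁻¹, s1, s2, ha, fun i => mul_nonneg ha.le (hlo i),
    fun i => mul_nonneg ha.le (hhi i), ?_, ?_, ?_, ⟨i1, g1, ?_⟩, ⟨i2, g2, ?_⟩⟩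
  · rw [← smul_add]
    have e : d - s1 • w + (s2 • w - d) = (s2 - s1) • w := by
      rw [sub_smul]; abel
    rw [e, smul_smul, inv_mul_cancel₀ (sub_pos.2 hlt).ne', one_smul]
  · intro h
    have := congrFun h i2
    simp only [Pi.smul_apply, Pi.sub_apply, smul_eq_mul, Pi.zero_apply] at this
    rcases mul_eq_zero.1 this with h1 | h1
    · exact ha.ne' h1
    · have e : d i2 = s2 * w i2 := by rw [hs2]; field_simp
      rw [e] at h1
      have : (s2 - s1) * w i2 = 0 := by linarith
      rcases mul_eq_zero.1 this with h3 | h3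
      · linarith
      · exact g2 h3
  · intro h
    have := congrFun h i1
    simp only [Pi.smul_apply, Pi.sub_apply, smul_eq_mul, Pi.zero_apply] at this
    rcases mul_eq_zero.1 this with h1 | h1
    · exact ha.ne' h1
    · have e : d i1 = s1 * w i1 := by rw [hs1]; field_simp
      rw [e] at h1
      have : (s2 - s1) * w i1 = 0 := by linarith
      rcases mul_eq_zero.1 this with h3 | h3
      · linarith
      · exact g1 h3
  · simp only [Pi.smul_apply, Pi.sub_apply, smul_eq_mul]
    have e : d i1 = s1 * w i1 := by rw [hs1]; field_simp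
    rw [e, sub_self, mul_zero]
  · simp only [Pi.smul_apply, Pi.sub_apply, smul_eq_mul]
    have e : d i2 = s2 * w i2 := by rw [hs2]; field_simp
    rw [e, sub_self, mul_zero]

/-- a part of a nonnegative combination where a linear function is positive -/
theorem exists_elem (f : (Fin m → ℝ) →ₗ[ℝ] ℝ) : ∀ (N : ℕ) (w : Fin m → ℝ), (∀ i, 0 ≤ w i) →
    Ker A j w → (univ.filter fun i => w i ≠ 0).card ≤ N → 0 < f w →
    ∃ v, Elem A j v ∧ (∀ i, v i ≤ w i) ∧ 0 < f v := by
  classical
  intro N
  induction N with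
  | zero =>
    intro w hw hK hN hf
    exfalso
    have : w = 0 := by
      funext i
      by_contra h
      have h1 : i ∈ univ.filter fun i => w i ≠ 0 := by
        simp only [mem_filter, mem_univ, true_and]; exact h
      have := Finset.card_pos.2 ⟨i, h1⟩
      omega
    rw [this, map_zero] at hf
    exact lt_irrefl _ hf
  | succ N ih =>
    intro w hw hK hN hf
    by_cases hE : Elem A j w
    · exact ⟨w, hE, fun _ => le_rfl, hf⟩
    have hw0 : w ≠ 0 := by
      rintro rfl
      rw [map_zero] at hf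
      exact lt_irrefl _ hf
    obtain ⟨d, hd, hs, hm⟩ : ∃ d, Ker A j d ∧ (∀ i, w i = 0 → d i = 0) ∧ ∀ t : ℝ, d ≠ t • w := by
      by_contra h
      push Not at h
      exact hE ⟨hw, hw0, hK, h⟩
    obtain ⟨a, s1, s2, -, p1, p2, hsum, -, -, ⟨i1, g1, z1⟩, ⟨i2, g2, z2⟩⟩ := split hw hw0 hs hm
    have K1 : Ker A j (a • (d - s1 • w)) := (hd.sub (hK.smul s1)).smul a
    have K2 : Ker A j (a • (s2 • w - d)) := ((hK.smul s2).sub hd).smul a
    have hle1 : ∀ i, (a • (d - s1 • w)) i ≤ w i := fun i => by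
      have := congrFun hsum i
      simp only [Pi.add_apply] at this
      linarith [p2 i]
    have hle2 : ∀ i, (a • (s2 • w - d)) i ≤ w i := fun i => by
      have := congrFun hsum i
      simp only [Pi.add_apply] at this
      linarith [p1 i]
    have hcard : ∀ u : Fin m → ℝ, (∀ i, 0 ≤ u i) → (∀ i, u i ≤ w i) → (∃ i, w i ≠ 0 ∧ u i = 0) →
        (univ.filter fun i => u i ≠ 0).card ≤ N := by
      rintro u hu0 huw ⟨i, hi, hui⟩
      have hsub : (univ.filter fun i => u i ≠ 0) ⊂ univ.filter fun i => w i ≠ 0 := by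
        rw [Finset.ssubset_iff_of_subset]
        · exact ⟨i, by simp [hi], by simp [hui]⟩
        · intro l hl
          simp only [mem_filter, mem_univ, true_and] at hl ⊢
          intro h
          exact hl (le_antisymm (h ▸ huw l) (hu0 l))
      have := Finset.card_lt_card hsub
      omega
    have hf2 : 0 < f (a • (d - s1 • w)) + f (a • (s2 • w - d)) := by
      rw [← map_add, ← hsum]
      exact hf
    by_cases h1 : 0 < f (a • (d - s1 • w))
    · obtain ⟨v, e1, e2, e3⟩ := ih _ p1 K1 (hcard _ p1 hle1 ⟨i1, g1, z1⟩) h1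
      exact ⟨v, e1, fun i => (e2 i).trans (hle1 i), e3⟩
    · obtain ⟨v, e1, e2, e3⟩ := ih _ p2 K2 (hcard _ p2 hle2 ⟨i2, g2, z2⟩) (by linarith)
      exact ⟨v, e1, fun i => (e2 i).trans (hle2 i), e3⟩

/-- elementary combinations for `j + 1` come from one or two elementary combinations for `j` -/
theorem elem_succ {c : Fin n} (hc : (c : ℕ) = j) {w : Fin m → ℝ} (h : Elem A (j + 1) w) :
    Elem A j w ∨ ∃ v₁ v₂, Elem A j v₁ ∧ Elem A j v₂ ∧ w = v₁ + v₂ ∧ 0 < dir A v₁ c ∧
      dir A v₂ c < 0 := by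
  obtain ⟨h1, h2, h3, h4⟩ := h
  have h3' : Ker A j w := h3.mono (Nat.le_succ j)
  by_cases hE : Elem A j w
  · exact Or.inl hE
  right
  obtain ⟨d, hd, hs, hm, hdc⟩ : ∃ d, Ker A j d ∧ (∀ i, w i = 0 → d i = 0) ∧
      (∀ t : ℝ, d ≠ t • w) ∧ 0 < dir A d c := by
    obtain ⟨d, hd, hs, hm⟩ : ∃ d, Ker A j d ∧ (∀ i, w i = 0 → d i = 0) ∧
        ∀ t : ℝ, d ≠ t • w := by
      by_contra h
      push Not at h
      exact hE ⟨h1, h2, h3', h⟩
    rcases lt_trichotomy (dir A d c) 0 with h | h | h
    · refine ⟨-d, hd.neg, fun i hi => by simp [hs i hi], fun t ht => hm (-t) ?_, by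
        rw [dir_neg]; linarith⟩
      rw [neg_smul, ← ht, neg_neg]
    · obtain ⟨t, ht⟩ := h4 d (hd.succ hc h) hs
      exact absurd ht (hm t)
    · exact ⟨d, hd, hs, hm, h⟩
  have hwc : dir A w c = 0 := h3 c (by omega)
  obtain ⟨a, s1, s2, ha, p1, p2, hsum, n1, n2, ⟨i1, g1, z1⟩, ⟨i2, g2, z2⟩⟩ := split h1 h2 hs hm
  have K1 : Ker A j (a • (d - s1 • w)) := (hd.sub (h3'.smul s1)).smul a
  have K2 : Ker A j (a • (s2 • w - d)) := ((h3'.smul s2).sub hd).smul a
  have d1 : dir A (a • (d - s1 • w)) c = a * dir A d c := by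
    rw [dir_smul, dir_sub, dir_smul, hwc]; ring
  have d2 : dir A (a • (s2 • w - d)) c = -(a * dir A d c) := by
    rw [dir_smul, dir_sub, dir_smul, hwc]; ring
  have hpos : 0 < a * dir A d c := mul_pos ha hdc
  have hle1 : ∀ i, (a • (d - s1 • w)) i ≤ w i := fun i => by
    have := congrFun hsum i
    simp only [Pi.add_apply] at this
    linarith [p2 i]
  have hle2 : ∀ i, (a • (s2 • w - d)) i ≤ w i := fun i => by
    have := congrFun hsum i
    simp only [Pi.add_apply] at this
    linarith [p1 i]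
  have hel : ∀ u : Fin m → ℝ, (∀ i, 0 ≤ u i) → u ≠ 0 → Ker A j u → (∀ i, u i ≤ w i) →
      dir A u c ≠ 0 → (∃ i, w i ≠ 0 ∧ u i = 0) → Elem A j u := by
    rintro u hu0 hu1 hu2 huw huc ⟨i, hi, hui⟩
    refine ⟨hu0, hu1, hu2, fun e he hes => ?_⟩
    have hsw : ∀ l, w l = 0 → u l = 0 := fun l hl => le_antisymm (hl ▸ huw l) (hu0 l)
    obtain ⟨t, ht⟩ := h4 (e - (dir A e c / dir A u c) • u) ((he.sub (hu2.smul _)).succ hc (by
      rw [dir_sub, dir_smul, div_mul_cancel₀ _ huc, sub_self])) (fun l hl => by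
        simp [hsw l hl, hes l (hsw l hl)])
    have e1 := congrFun ht i
    simp only [Pi.sub_apply, Pi.smul_apply, smul_eq_mul, hui, hes i hui, mul_zero, sub_zero] at e1
    have ht0 : t = 0 := by
      rcases mul_eq_zero.1 e1.symm with h | h
      · exact h
      · exact absurd h hi
    rw [ht0, zero_smul] at ht
    exact ⟨_, sub_eq_zero.1 ht⟩
  exact ⟨_, _, hel _ p1 n1 K1 hle1 (by rw [d1]; exact hpos.ne') ⟨i1, g1, z1⟩,
    hel _ p2 n2 K2 hle2 (by rw [d2]; linarith) ⟨i2, g2, z2⟩, hsum, by rw [d1]; exact hpos, by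
      rw [d2]; linarith⟩

end

end Pool.Agent.H54.FD
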