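import Pool.Agent.H54.FD.Sem

/-! The steps of the algorithm are correct. -/

set_option autoImplicit false

namespace Pool.Agent.H54.FD

open Finset Matrix Pool.Agent.H622R3.SM
open Pool.Agent.H37.CH (Src Key sO sz sz_mul sz_pos sz_neg sz_zero sz_eq_zero sz_nonneg sz_lt)

variable {m n : ℕ} {A : Matrix (Fin m) (Fin n) ℝ} {b β : Fin m → ℝ} {j k : ℕ}

theorem Par.symm {v v' : Fin m → ℝ} {θ : ℝ} (h : Par A k v v' θ) : Par A k v' v θ⁻¹ :=
  ⟨inv_pos.2 h.1, fun c hc => by rw [h.2 c hc, inv_mul_cancel_left₀ h.1.ne']⟩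

theorem Par.nz {v v' : Fin m → ℝ} {θ : ℝ} (h : Par A k v v' θ) (hn : Nz A k v) : Nz A k v' := by
  obtain ⟨c, hc, h0⟩ := hn
  exact ⟨c, hc, by rw [h.2 c hc]; exact mul_ne_zero h.1.ne' h0⟩

/-- every optimal elementary combination has its support in the list -/
def HasOpt (A : Matrix (Fin m) (Fin n) ℝ) (j k : ℕ) (β : Fin m → ℝ) (K : List (List ℕ)) : Prop :=
  ∀ v, Elem A j v → Opt A k β v → ∃ L ∈ K, Sup v L

/-- Two supports with the same direction. -/
def Same (A : Matrix (Fin m) (Fin n) ℝ) (j k : ℕ) (L L' : List ℕ) : Prop :=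
  ∃ v v' θ, RayV A (L, j) v ∧ RayV A (L', j) v' ∧ Par A k v v' θ

theorem zipIdx_mem {α : Type} {l : List α} {a : α} {i : ℕ} (h : (a, i) ∈ l.zipIdx) : a ∈ l := by
  have := List.mem_zipIdx h
  obtain ⟨h1, h2, h3⟩ := this
  rw [h3]
  exact List.getElem_mem _

theorem pairwise_zipIdx {α : Type} (l : List α) :
    l.zipIdx.Pairwise fun p p' => p.2 < p'.2 := by
  have h := List.pairwise_lt_range (n := l.length)
  have h2 : l.zipIdx.map Prod.snd = List.range' 0 l.length := List.zipIdx_map_snd 0 l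
  have h3 : (l.zipIdx.map Prod.snd).Pairwise (· < ·) := by
    rw [h2]
    exact List.pairwise_lt_range'
  exact List.pairwise_map.1 h3

section

variable {g : Reg → ℝ} (hg : Rg g A b) {T : List Ray} {ws : List (Fin m → ℝ)}
  (hT : TV A b k T ws β) {C : List (List ℕ)} (hC : ∀ L ∈ C, Good A j L)

include hg

theorem red_sub {L : List ℕ} (hL : L ∈ red (sO g) m n T C j (cks n k)) :
    L ∈ C ∧ ∀ v, RayV A (L, j) v → Nz A k v := by
  unfold red at hL
  obtain ⟨p, hp, rfl⟩ := List.mem_map.1 hL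
  have h1 := zipIdx_mem (l := C.filter fun L => nz (sO g) m n (L, j) (cks n k))
    (a := p.1) (i := p.2) (List.mem_filter.1 hp).1
  have h2 := List.mem_filter.1 h1
  exact ⟨h2.1, fun v hv => (nz_eq hg hv).1 h2.2⟩

theorem red_pairwise : (red (sO g) m n T C j (cks n k)).Pairwise fun L L' => ¬ Same A j k L L' := by
  unfold red
  rw [List.pairwise_map]
  refine List.Pairwise.imp_of_mem ?_ ((pairwise_zipIdx _).filter _)
  intro p p' hp hp' hlt hsame
  obtain ⟨v, v', θ, hv, hv', hpar⟩ := hsame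
  obtain ⟨hm, ha⟩ := List.mem_filter.1 hp
  obtain ⟨hm', ha'⟩ := List.mem_filter.1 hp'
  have h1 := (List.mem_filter.1 (zipIdx_mem (a := p.1) (i := p.2) hm)).2
  have hn : Nz A k v := (nz_eq hg hv).1 h1
  have hn' : Nz A k v' := hpar.nz hn
  have e1 := List.all_eq_true.1 ha p' hm'
  have e2 := List.all_eq_true.1 ha' p hm
  have p1 : par (sO g) m n (p.1, j) (p'.1, j) (cks n k) = true := (par_eq hg hv hv' hn).2 ⟨θ, hpar⟩
  have p2 : par (sO g) m n (p'.1, j) (p.1, j) (cks n k) = true :=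
    (par_eq hg hv' hv hn').2 ⟨_, hpar.symm⟩
  have n1 : ¬ p'.2 = p.2 := by omega
  have n2 : ¬ p.2 = p'.2 := by omega
  have n3 : ¬ p'.2 < p.2 := by omega
  simp only [p1, n1, n3, decide_false, Bool.false_or, Bool.not_true, if_false] at e1
  simp only [p2, n2, hlt, decide_false, Bool.false_or, Bool.not_true, if_true] at e2
  rw [e2] at e1
  simp at e1

include hT hC

theorem red_opt {L : List ℕ} (hL : L ∈ C) {v : Fin m → ℝ} (hv : RayV A (L, j) v)
    (ho : Opt A k β v) (hn : Nz A k v) : L ∈ red (sO g) m n T C j (cks n k) := by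
  classical
  have hL' : L ∈ C.filter fun L => nz (sO g) m n (L, j) (cks n k) :=
    List.mem_filter.2 ⟨hL, (nz_eq hg hv).2 hn⟩
  unfold red
  set C' := C.filter fun L => nz (sO g) m n (L, j) (cks n k) with hC'
  rw [List.mem_map]
  have hi : C'.idxOf L < C'.length := List.idxOf_lt_length_of_mem hL'
  have hget : C'[C'.idxOf L] = L := List.getElem_idxOf hi
  refine ⟨(L, C'.idxOf L), List.mem_filter.2 ⟨?_, ?_⟩, rfl⟩
  · rw [List.mem_zipIdx_iff_getElem?]
    simp only
    rw [List.getElem?_eq_getElem hi, hget]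
  · rw [List.all_eq_true]
    rintro ⟨L1, i1⟩ hm
    simp only [Bool.or_eq_true, decide_eq_true_eq, Bool.not_eq_true']
    by_cases hp : par (sO g) m n (L, j) (L1, j) (cks n k) = true
    · right; right
      have hL1 := zipIdx_mem hm
      obtain ⟨v1, hv1⟩ := (hC L1 (List.mem_filter.1 hL1).1).ray
      obtain ⟨θ, hpar⟩ := (par_eq hg hv hv1 hn).1 hp
      have hn1 := hpar.nz hn
      split_ifs with hlt
      · rw [better_eq hg hT hv hv1 hpar hn]
        rcases (ho.smul hpar.1).2 v1 hv1.el.1 (fun c hc => by rw [hpar.2 c hc, dir_smul]) with h1 | h1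
        · exfalso
          have hsup : Sup v1 L := by
            rw [h1]
            exact Sup.smul hv.sup hpar.1.ne'
          have : L1 = L := sup_ext (hC L1 (List.mem_filter.1 hL1).1).1 (hC L hL).1 hv1.sup hsup
          subst this
          obtain ⟨h3, h4, h5⟩ := List.mem_zipIdx hm
          have h6 := List.not_of_lt_findIdx (p := (· == L1)) (xs := C')
            (i := i1) (by simpa [List.idxOf] using hlt)
          have h7 : C'[i1]'(by simpa using h4) = L1 := by
            simp only [Nat.sub_zero] at h5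
            exact h5.symm
          simp [h7] at h6
        · exact h1
      · rw [Bool.not_eq_true', ← Bool.not_eq_true, better_eq hg hT hv1 hv hpar.symm hn1]
        intro hP
        have hpar' := hpar.symm
        rcases ho.2 (θ⁻¹ • v1) (fun i => mul_nonneg hpar'.1.le (hv1.el.1 i))
          (fun c hc => by rw [dir_smul]; exact (hpar'.2 c hc).symm) with h1 | h1
        · rw [h1, sub_self] at hP
          exact not_pos_zero hP
        · have := h1.asymm
          rw [neg_sub] at this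
          exact this hP
    · right; left
      simpa using hp

end

/-! ### Elimination -/

theorem Good.succ {c : Fin n} (hc : (c : ℕ) = j) {L : List ℕ} {v : Fin m → ℝ} (hL : Can m L)
    (hv : RayV A (L, j) v) (h0 : dir A v c = 0) : Good A (j + 1) L := by
  refine ⟨hL, v, ⟨hv.el.1, hv.el.2.1, hv.el.2.2.1.succ hc h0, fun d hd hs => ?_⟩, hv.sup⟩
  exact hv.el.2.2.2 d (hd.mono (Nat.le_succ j)) hs

theorem sup_add {v v' : Fin m → ℝ} (h : ∀ i, 0 ≤ v i) (h' : ∀ i, 0 ≤ v' i) {L L' : List ℕ}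
    (hs : Sup v L) (hs' : Sup v' L') : Sup (v + v') (uni m L L') := by
  intro i
  rw [mem_uni, ← hs i, ← hs' i]
  simp only [Pi.add_apply, i.2, true_and]
  constructor
  · intro h1
    by_contra h2
    push Not at h2
    exact h1 (by rw [h2.1, h2.2, add_zero])
  · intro h1 h2
    have e1 : v i = 0 := by linarith [h i, h' i]
    have e2 : v' i = 0 := by linarith [h i, h' i]
    rcases h1 with h1 | h1
    · exact h1 e1
    · exact h1 e2

section

variable {g : Reg → ℝ} (hg : Rg g A b)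

include hg

/-- the combination of two elementary combinations, if it is nondegenerate -/
theorem comb_good {c : Fin n} (hc : (c : ℕ) = j) {L L' : List ℕ} {v v' : Fin m → ℝ}
    (hv : RayV A (L, j) v) (hv' : RayV A (L', j) v') (h1 : 0 < dir A v c) (h2 : dir A v' c < 0)
    (hk : sO g (kn m n (uni m L L', j + 1)) ≠ 0) : Good A (j + 1) (uni m L L') := by
  have hL : Can m (uni m L L') := can_uni L L'
  let w : Fin m → ℝ := (- dir A v' c) • v + dir A v c • v'
  have hw0 : ∀ i, 0 ≤ w i := fun i => add_nonneg (mul_nonneg (by linarith) (hv.el.1 i))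
    (mul_nonneg h1.le (hv'.el.1 i))
  have hws : Sup w (uni m L L') := sup_add (fun i => mul_nonneg (by linarith) (hv.el.1 i))
    (fun i => mul_nonneg h1.le (hv'.el.1 i)) (Sup.smul hv.sup (by linarith))
    (Sup.smul hv'.sup h1.ne')
  have hwK : Ker A (j + 1) w := by
    refine Ker.succ hc ((hv.el.2.2.1.smul _).add (hv'.el.2.2.1.smul _)) ?_
    rw [dir_add, dir_smul, dir_smul]
    ring
  obtain ⟨i, hi⟩ := exists_ne hv.el.2.1
  have hwi : w i ≠ 0 := (hws i).2 (mem_uni.2 ⟨i.2, Or.inl ((hv.sup i).1 hi)⟩)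
  have hmem : (uni m L L').headD 0 ∈ uni m L L' := headD_mem ((hws i).1 hwi)
  have hlt := hL.lt hmem
  have hk' := (kn_eq (R := (uni m L L', j + 1)) hg hlt).1 hk
  have hw1 : w ⟨_, hlt⟩ ≠ 0 := (hws ⟨_, hlt⟩).2 hmem
  refine ⟨hL, w, ⟨hw0, fun h => hwi (by rw [h]; rfl), hwK, fun d hd hs => ?_⟩, hws⟩
  refine ⟨d ⟨_, hlt⟩ / w ⟨_, hlt⟩, ?_⟩
  have := hk' (d - (d ⟨_, hlt⟩ / w ⟨_, hlt⟩) • w) (fun i hi => by
    have : w i = 0 := by
      by_contra h
      exact hi ((hws i).1 h)
    simp [this, hs i this]) (by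
      simp only [Pi.sub_apply, Pi.smul_apply, smul_eq_mul]
      rw [div_mul_cancel₀ _ hw1, sub_self]) (hd.sub (hwK.smul _))
  exact sub_eq_zero.1 this

/-- an elementary combination is nondegenerate -/
theorem kn_of_good {L : List ℕ} (hL : Can m L) {w : Fin m → ℝ} (hw : Elem A j w)
    (hs : Sup w L) : sO g (kn m n (L, j)) ≠ 0 := by
  obtain ⟨i, hi⟩ := exists_ne hw.2.1
  have hmem : L.headD 0 ∈ L := headD_mem ((hs i).1 hi)
  have hlt := hL.lt hmem
  rw [kn_eq (R := (L, j)) hg hlt]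
  intro y h1 h2 h3
  obtain ⟨t, rfl⟩ := hw.2.2.2 y h3 fun i hi => h1 i fun h => (hs i).2 h hi
  have hw1 : w ⟨_, hlt⟩ ≠ 0 := (hs ⟨_, hlt⟩).2 hmem
  have : t = 0 := by
    simp only [Pi.smul_apply, smul_eq_mul] at h2
    rcases mul_eq_zero.1 h2 with h | h
    · exact h
    · exact absurd h hw1
  rw [this, zero_smul]

omit hg in
theorem sz_one_iff {x : ℝ} : sz x = 1 ↔ 0 < x := by
  constructor
  · intro h
    by_contra hc
    rcases lt_or_eq_of_le (not_lt.1 hc) with h1 | h1
    · rw [sz_neg h1] at h; norm_num at h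
    · rw [h1, sz_zero] at h; norm_num at h
  · exact sz_pos

omit hg in
theorem sz_neg_iff {x : ℝ} : sz x = -1 ↔ x < 0 := by
  constructor
  · intro h
    by_contra hc
    rcases lt_or_eq_of_le (not_lt.1 hc) with h1 | h1
    · rw [sz_pos h1] at h; norm_num at h
    · rw [← h1, sz_zero] at h; norm_num at h
  · exact sz_neg

theorem gen_good {K : List (List ℕ)} (hK : ∀ L ∈ K, Good A j L) (hj : j < n) :
    ∀ L ∈ gen (sO g) m n K j, Good A (j + 1) L := by
  intro L hL
  unfold gen at hL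
  rcases List.mem_append.1 hL with hL | hL
  · obtain ⟨h1, h2⟩ := List.mem_filter.1 hL
    obtain ⟨v, hv⟩ := (hK L h1).ray
    rw [decide_eq_true_eq, nu_eq hg hv hj, sz_eq_zero] at h2
    exact Good.succ (c := ⟨j, hj⟩) rfl (hK L h1).1 hv h2
  · obtain ⟨L1, h1, hL⟩ := List.mem_flatMap.1 hL
    obtain ⟨L2, h2, hL⟩ := List.mem_flatMap.1 hL
    split_ifs at hL with hc
    · rw [List.mem_singleton] at hL
      subst hL
      obtain ⟨v1, hv1⟩ := (hK L1 h1).ray
      obtain ⟨v2, hv2⟩ := (hK L2 h2).ray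
      rw [nu_eq hg hv1 hj, nu_eq hg hv2 hj, sz_one_iff, sz_neg_iff] at hc
      exact comb_good hg (c := ⟨j, hj⟩) rfl hv1 hv2 hc.1 hc.2.1 hc.2.2
    · simp at hL

theorem gen_opt {K : List (List ℕ)} (hK : ∀ L ∈ K, Good A j L) (hj : j < n)
    (hO : HasOpt A j k β K) : HasOpt A (j + 1) k β (gen (sO g) m n K j) := by
  intro w hw ho
  have hw' := hw
  rcases elem_succ (c := ⟨j, hj⟩) rfl hw with h | ⟨v1, v2, e1, e2, rfl, d1, d2⟩
  · obtain ⟨L, hL, hs⟩ := hO w h ho
    refine ⟨L, ?_, hs⟩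
    unfold gen
    refine List.mem_append_left _ (List.mem_filter.2 ⟨hL, ?_⟩)
    obtain ⟨t, ht, hray⟩ := ray_of (hK L hL).1 h hs
    rw [decide_eq_true_eq, nu_eq hg hray hj, sz_eq_zero, dir_smul]
    have : dir A w ⟨j, hj⟩ = 0 := hw.2.2.1 _ (Nat.lt_succ_self j)
    rw [this, mul_zero]
  · have o1 : Opt A k β v1 := ho.part e1.1 fun i => by
      have := e2.1 i
      simp only [Pi.add_apply]
      linarith
    have o2 : Opt A k β v2 := ho.part e2.1 fun i => by
      have := e1.1 i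
      simp only [Pi.add_apply]
      linarith
    obtain ⟨L1, hL1, s1⟩ := hO v1 e1 o1
    obtain ⟨L2, hL2, s2⟩ := hO v2 e2 o2
    refine ⟨uni m L1 L2, ?_, sup_add e1.1 e2.1 s1 s2⟩
    unfold gen
    refine List.mem_append_right _ (List.mem_flatMap.2 ⟨L1, hL1, List.mem_flatMap.2 ⟨L2, hL2, ?_⟩⟩)
    obtain ⟨t1, p1, r1⟩ := ray_of (hK L1 hL1).1 e1 s1
    obtain ⟨t2, p2, r2⟩ := ray_of (hK L2 hL2).1 e2 s2
    rw [if_pos]
    · simp
    · refine ⟨?_, ?_, kn_of_good hg (can_uni _ _) hw' (sup_add e1.1 e2.1 s1 s2)⟩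
      · rw [nu_eq hg r1 hj, sz_one_iff, dir_smul]
        exact mul_pos p1 d1
      · rw [nu_eq hg r2 hj, sz_neg_iff, dir_smul]
        exact mul_neg_of_pos_of_neg p2 d2

end

/-! ### The rows -/

theorem dir_single (i : Fin m) (t : ℝ) (c : Fin n) : dir A (Pi.single i t) c = t * A i c := by
  unfold dir
  rw [Finset.sum_eq_single i]
  · simp
  · intro i' _ h
    simp [Pi.single_eq_of_ne h]
  · intro h
    exact absurd (mem_univ i) h

theorem elem_unit (i : Fin m) : Elem A 0 (Pi.single i 1) := by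
  refine ⟨fun i' => ?_, fun h => ?_, fun c hc => absurd hc (Nat.not_lt_zero _), fun d _ hs => ?_⟩
  · by_cases h : i' = i
    · subst h; simp
    · simp [Pi.single_eq_of_ne h]
  · have := congrFun h i
    simp at this
  · refine ⟨d i, funext fun i' => ?_⟩
    by_cases h : i' = i
    · subst h; simp
    · simp only [Pi.smul_apply, smul_eq_mul, Pi.single_eq_of_ne h, mul_zero]
      exact hs i' (by simp [Pi.single_eq_of_ne h])

theorem sup_unit (i : Fin m) : Sup (Pi.single i (1 : ℝ)) [(i : ℕ)] := by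
  intro i'
  by_cases h : i' = i
  · subst h; simp
  · have : ¬ ((i' : ℕ) = i) := fun h' => h (Fin.ext h')
    simp [Pi.single_eq_of_ne h, this]

theorem units_good : ∀ L ∈ units m, Good A 0 L := by
  intro L hL
  obtain ⟨i, hi, rfl⟩ := List.mem_map.1 hL
  rw [List.mem_range] at hi
  exact ⟨can_unit hi, _, elem_unit ⟨i, hi⟩, sup_unit ⟨i, hi⟩⟩

theorem units_opt : HasOpt A 0 k β (units m) := by
  intro v hv _
  obtain ⟨i, hi⟩ := exists_ne hv.2.1
  refine ⟨[(i : ℕ)], List.mem_map.2 ⟨i, List.mem_range.2 i.2, rfl⟩, ?_⟩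
  obtain ⟨t, ht⟩ := hv.2.2.2 (Pi.single i 1) (fun c hc => absurd hc (Nat.not_lt_zero _))
    (fun i' hi' => by
      refine Pi.single_eq_of_ne ?_ _
      rintro rfl
      exact hi hi')
  have ht0 : t ≠ 0 := by
    rintro rfl
    rw [zero_smul] at ht
    have := congrFun ht i
    simp at this
  intro i'
  rw [← sup_unit i i', ht]
  simp [ht0]

theorem ray_unit {i : ℕ} (hi : i < m) : RayV A ([i], 0) (Pi.single ⟨i, hi⟩ 1) :=
  ⟨elem_unit ⟨i, hi⟩, sup_unit ⟨i, hi⟩, hi, by simp⟩

end Pool.Agent.H54.FD
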