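import Pool.Agent.H54.FD.Tab
import Pool.Agent.H37.CH.Runs

/-! The run of the computation. -/

set_option autoImplicit false

namespace Pool.Agent.H54.FD

open Pool.Agent.NPC Pool.Agent.H558R2 Pool.Agent.H622R3.SM Pool.Agent.W920.FC
open Pool.Agent.Y648.CS.TDET (qD)
open Pool.Agent.H37.CH (sO runs_comp rb Key len_flatMap_le)

/-- the number of supports -/
def dB (m c : ℕ) : ℕ := m + (c + c * c)

theorem len_gen (s : Key → ℤ) (m n : ℕ) (K : List (List ℕ)) (j : ℕ) :
    (gen s m n K j).length ≤ K.length + K.length * K.length := by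
  unfold gen
  rw [List.length_append]
  have h1 := List.length_filter_le (fun L => decide (nu s m n (L, j) j = 0)) K
  have h2 := len_flatMap_le K (fun L => K.flatMap fun L' =>
    if nu s m n (L, j) j = 1 ∧ nu s m n (L', j) j = -1 ∧ s (kn m n (uni m L L', j + 1)) ≠ 0 then
      [uni m L L'] else []) (K.length * 1) (fun L _ => len_flatMap_le K _ 1 fun L' _ => by
        split_ifs <;> simp)
  rw [mul_one] at h2
  omega

theorem len_units (m : ℕ) : (units m).length = m := by simp [units]

theorem len_pick (s : Key → ℤ) (m n : ℕ) (K : List (List ℕ)) (j : ℕ) :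
    (pick s m n K j).length ≤ 1 := by
  unfold pick
  rw [List.length_map, List.length_take]
  exact min_le_left _ _

/-- bounds -/
def Bd (n D : ℕ) (st : St) : Prop := st.2.1.length ≤ D ∧ st.2.2.length + st.1.1 ≤ n

theorem bd_start (m n c : ℕ) : Bd n (dB m c) (st0 m n) := by
  refine ⟨?_, ?_⟩
  · show (units m).length ≤ _
    rw [len_units]
    exact Nat.le_add_right _ _
  · show 0 + n ≤ n
    omega

theorem bd_step {m n : ℕ} {s : Key → ℤ} {cap : List Unit} {st : St}
    (h : Bd n (dB m cap.length) st) : Bd n (dB m cap.length) (stepS s m n cap st) := by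
  obtain ⟨h1, h2⟩ := h
  unfold stepS
  split_ifs with h3 h4
  · exact ⟨h1, h2⟩
  · refine ⟨?_, h2⟩
    show (gen s m n _ _).length ≤ _
    refine (len_gen _ _ _ _ _).trans ?_
    have h5 : ((red s m n st.2.2 st.2.1 st.1.2 (cks n st.1.1)).take cap.length).length ≤
        cap.length := by
      rw [List.length_take]
      exact min_le_left _ _
    have h6 := Nat.mul_le_mul h5 h5
    unfold dB
    omega
  · refine ⟨?_, ?_⟩
    · show (units m).length ≤ _
      rw [len_units]
      exact Nat.le_add_right _ _
    · show (_ ++ st.2.2).length + (st.1.1 - 1) ≤ n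
      rw [List.length_append]
      have h5 := len_pick s m n ((red s m n st.2.2 st.2.1 st.1.2
        (cks n st.1.1)).take cap.length) st.1.2
      omega

theorem bd_iter {m n : ℕ} {s : Key → ℤ} {cap : List Unit} (i : ℕ) :
    Bd n (dB m cap.length) ((stepS s m n cap)^[i] (st0 m n)) := by
  induction i with
  | zero => exact bd_start m n _
  | succ i ih =>
    rw [Function.iterate_succ_apply']
    exact bd_step ih

theorem cS_mono (m n : ℕ) {D D' : ℕ} (h : D ≤ D') : cS m n D ≤ cS m n D' := by
  unfold cS
  gcongr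

section

variable {m n κ : ℕ} {g : Reg → ℝ} (hg : Base g)

include hg

theorem runs_step {cap : List Unit} {st : St} (hst : Bd n (dB m cap.length) st) :
    Runs g (Gd qD (nB m n) g) (stepT m n cap st) (stepS (sO g) m n cap st)
      (cS m n (dB m cap.length) * (qD.eval (nB m n) + 1)) :=
  runs_comp (m := nB m n) (n := 0) hg _ (fun K hK => by
    have := stepK_short (j := st.1.2) (C := st.2.1) (T := st.2.2)
      ((Nat.le_add_right _ _).trans hst.2) K hK
    omega) ((stepK_len _ _ _ _ _).trans (cS_mono _ _ hst.1)) (fun s => stepS s m n cap st)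
    (fun s hs => stepS_congr hs)

theorem runs_iter (cap : List Unit) (k : ℕ) :
    Runs g (Gd qD (nB m n) g) (iter (stepT m n cap) k (st0 m n))
      ((stepS (sO g) m n cap)^[k] (st0 m n))
      (k * (cS m n (dB m cap.length) * (qD.eval (nB m n) + 1))) := by
  refine t_TT.2.2.1 _ _ _ _ (fun i => (stepS (sO g) m n cap)^[i] (st0 m n)) k _
    fun i _ => ?_
  show Runs _ _ _ ((stepS (sO g) m n cap)^[i + 1] (st0 m n)) _
  rw [Function.iterate_succ_apply']
  exact runs_step hg (bd_iter i)

theorem runs_fin {st : St} (hst : st.2.2.length ≤ n) :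
    Runs g (Gd qD (nB m n) g) (finT m n st) (fin (sO g) m n st)
      ((m + 1) * (qD.eval (nB m n) + 1)) :=
  runs_comp (m := nB m n) (n := 0) hg _ (fun K hK => by
    have := finK_short (T := st.2.2) hst K hK
    omega) (finK_len _ _ _).le (fun s => fin s m n st)
    (fun s hs => fin_congr hs)

theorem runs_TA : Runs g (Gd qD (nB m n) g) (TA κ m n)
    (fin (sO g) m n ((stepS (sO g) m n (capU κ m n))^[n * n] (st0 m n)))
    (n * n * (cS m n (dB m (capU κ m n).length) * (qD.eval (nB m n) + 1)) +
      (m + 1) * (qD.eval (nB m n) + 1)) :=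
  rb (runs_iter hg (capU κ m n) (n * n))
    (runs_fin hg ((Nat.le_add_right _ _).trans (bd_iter (n * n)).2))

/-- the polynomial for the size of the matrices -/
noncomputable def pN : Polynomial ℕ := (Polynomial.X + 2) * (Polynomial.X + 1)

/-- the polynomial for the number of supports -/
noncomputable def pD (κ : ℕ) : Polynomial ℕ :=
  Polynomial.X + (Polynomial.X ^ κ + Polynomial.X ^ κ * Polynomial.X ^ κ)

/-- the polynomial for the number of queries -/
noncomputable def qR (κ : ℕ) : Polynomial ℕ :=
  Polynomial.X * Polynomial.X * ((pD κ * (Polynomial.X + 1) + pD κ * (pD κ * (Polynomial.X *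
    (Polynomial.X + 1) + 1)) + 1) * (qD.comp pN + 1)) + (Polynomial.X + 1) * (qD.comp pN + 1)

omit hg in
theorem cost_le : n * n * (cS m n (dB m (capU κ m n).length) * (qD.eval (nB m n) + 1)) +
      (m + 1) * (qD.eval (nB m n) + 1) ≤ (qR κ).eval (m + n) := by
  unfold qR pN pD nB cS dB capU
  simp only [Polynomial.eval_add, Polynomial.eval_mul, Polynomial.eval_X, Polynomial.eval_one,
    Polynomial.eval_ofNat, Polynomial.eval_comp, Polynomial.eval_pow, List.length_replicate]
  have hm : m ≤ m + n := Nat.le_add_right _ _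
  have hn : n ≤ m + n := Nat.le_add_left _ _
  have hnm : n + m ≤ m + n := (Nat.add_comm n m).le
  gcongr

theorem runs_TA' : Runs g (Gd qD (nB m n) g) (TA κ m n)
    (fin (sO g) m n ((stepS (sO g) m n (capU κ m n))^[n * n] (st0 m n))) ((qR κ).eval (m + n)) :=
  t_TT.2.2.2 _ _ _ _ _ _ _ _ (fun _ h => h) cost_le (runs_TA hg)

end

end Pool.Agent.H54.FD
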