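import Pool.Agent.H54.FD.PT
import Pool.Agent.H54.FD.Runs

/-! The algorithm is controlled in polynomial time. -/

set_option autoImplicit false

namespace Pool.Agent.H54.FD

open Pool.Agent.NPC Pool.Agent.H558R2 Pool.Agent.H622R3.SM Pool.Agent.W920.FC
open Pool.Agent.H37.CH (Src Key askT orc pcomp porcs paskT sz_nat')

/-- a bound for the states -/
def SI (n D B : ℕ) (st : St) : Prop :=
  Bd n D st ∧ st.1.1 ≤ n ∧ st.1.2 ≤ n ∧ (∀ L ∈ st.2.1, NPC.sz L ≤ B) ∧
    ∀ R ∈ st.2.2, NPC.sz R ≤ B + 4 * n + 2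

theorem sz_sublist {β : Type} [TEnc β] {l l' : List β} (h : l.Sublist l') :
    NPC.sz l ≤ NPC.sz l' := by
  induction h with
  | slnil => exact le_rfl
  | cons a _ ih => simp only [NPC.sz_list_cons]; omega
  | cons_cons a _ ih => simp only [NPC.sz_list_cons]; omega

/-- the bound for the supports -/
def bS (m : ℕ) : ℕ := NPC.sz (List.range m) + 4 * m + 3

theorem sz_uni (m : ℕ) (L L' : List ℕ) : NPC.sz (uni m L L') ≤ bS m := by
  have h : NPC.sz (uni m L L') ≤ NPC.sz (List.range m) := sz_sublist List.filter_sublist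
  unfold bS
  omega

theorem sz_units {m : ℕ} {L : List ℕ} (h : L ∈ units m) : NPC.sz L ≤ bS m := by
  simp only [units, List.mem_map, List.mem_range] at h
  obtain ⟨i, hi, rfl⟩ := h
  rw [NPC.sz_list_cons, NPC.sz_list_nil]
  have := sz_nat' i
  unfold bS
  omega

theorem si_start (m n c : ℕ) : SI n (dB m c) (bS m) (st0 m n) :=
  ⟨bd_start m n c, le_rfl, Nat.zero_le _, fun _ h => sz_units h, fun R h => by
    have h' : R ∈ ([] : List Ray) := h
    exact absurd h' (by simp)⟩

theorem mem_gen {s : Key → ℤ} {m n j : ℕ} {K : List (List ℕ)} {L : List ℕ}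
    (h : L ∈ gen s m n K j) : L ∈ K ∨ ∃ L1 L2, L = uni m L1 L2 := by
  unfold gen at h
  rcases List.mem_append.1 h with h | h
  · exact Or.inl (List.mem_filter.1 h).1
  · simp only [List.mem_flatMap] at h
    obtain ⟨L1, -, L2, -, h⟩ := h
    split_ifs at h
    · exact Or.inr ⟨L1, L2, List.mem_singleton.1 h⟩
    · exact absurd h (by simp)

theorem mem_pick {s : Key → ℤ} {m n j : ℕ} {K : List (List ℕ)} {R : Ray}
    (h : R ∈ pick s m n K j) : R.1 ∈ K ∧ R.2 = j := by
  unfold pick at h
  obtain ⟨L, hL, rfl⟩ := List.mem_map.1 h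
  refine ⟨?_, rfl⟩
  rcases List.mem_append.1 (List.mem_of_mem_take hL) with h | h
  · exact (List.mem_filter.1 h).1
  · exact (List.mem_filter.1 h).1

theorem mem_red' {s : Key → ℤ} {m n j c : ℕ} {T : List Ray} {C : List (List ℕ)} {ks : List ℕ}
    {L : List ℕ} (h : L ∈ (red s m n T C j ks).take c) : L ∈ C :=
  mem_red (List.mem_of_mem_take h)

theorem si_step {m n : ℕ} {s : Key → ℤ} {cap : List Unit} {st : St}
    (h : SI n (dB m cap.length) (bS m) st) :
    SI n (dB m cap.length) (bS m) (stepS s m n cap st) := by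
  obtain ⟨h0, h1, h2, h3, h4⟩ := h
  have hb := bd_step (s := s) h0
  unfold stepS at hb ⊢
  split_ifs at hb ⊢ with h5 h6
  · exact ⟨hb, h1, h2, h3, h4⟩
  · refine ⟨hb, h1, by simp only; omega, fun L hL => ?_, h4⟩
    rcases mem_gen hL with h | ⟨L1, L2, rfl⟩
    · exact h3 L (mem_red' h)
    · exact sz_uni _ _ _
  · refine ⟨hb, by simp only; omega, Nat.zero_le _, fun L hL => sz_units hL, fun R hR => ?_⟩
    rcases List.mem_append.1 hR with hR | hR
    · obtain ⟨h6, h7⟩ := mem_pick hR
      have h8 := h3 _ (mem_red' h6)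
      obtain ⟨L, j⟩ := R
      rw [NPC.sz_pair]
      have h9 := sz_nat' j
      simp only at h7 h8
      omega
    · exact h4 R hR

theorem out_step {m n : ℕ} {cap : List Unit} {st st' : St}
    (h : Out (stepT m n cap st) st') : ∃ s, st' = stepS s m n cap st := by
  unfold stepT at h
  obtain ⟨o, -, h2⟩ := t_OUT.1.2.1 _ _ _ _ _ h
  exact ⟨_, t_OUT.1.1 _ _ _ h2⟩

theorem shr_step (m n : ℕ) (cap : List Unit) (st : St) : Shr (stepT m n cap st) :=
  t_OUT.1.2.2.2.2.1 _ _ _ _ (t_OUT.1.2.2.2.2.2.1 _) fun _ => t_OUT.1.2.2.2.1 _ _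

theorem out_iter {m n : ℕ} {cap : List Unit} (i : ℕ) : ∀ st,
    Out (iter (stepT m n cap) i (st0 m n)) st → SI n (dB m cap.length) (bS m) st := by
  induction i with
  | zero =>
    intro st h
    have h1 : st = st0 m n := t_OUT.1.1 _ _ _ h
    rw [h1]
    exact si_start m n _
  | succ i ih =>
    intro st h
    obtain ⟨st', h1, h2⟩ := t_OUT.1.2.2.1 _ _ _ _ _ h
    obtain ⟨s, rfl⟩ := out_step h2
    exact si_step (ih st' h1)

theorem si_sz {n D B : ℕ} {st : St} (h : SI n D B st) :
    NPC.sz st ≤ D * (B + 1) + n * (B + 4 * n + 3) + 8 * n + 7 := by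
  obtain ⟨⟨h0, h0'⟩, h1, h2, h3, h4⟩ := h
  obtain ⟨⟨k, j⟩, C, T⟩ := st
  simp only at h0 h0' h1 h2 h3 h4
  rw [NPC.sz_pair, NPC.sz_pair, NPC.sz_pair]
  have e1 := sz_nat' k
  have e2 := sz_nat' j
  have e3 := sz_le_length_mul C B h3
  have e4 := sz_le_length_mul T (B + 4 * n + 2) h4
  have e5 : C.length * (B + 1) ≤ D * (B + 1) := Nat.mul_le_mul_right _ h0
  have e6 : T.length * (B + 4 * n + 2 + 1) ≤ n * (B + 4 * n + 3) :=
    Nat.mul_le_mul (by omega) (by omega)
  omega

variable {α : Type} [TEnc α]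

theorem pstepT' {U V cap : α → List Unit} (hU : Poly U) (hV : Poly V) (hc : Poly cap)
    {st : α → St} (hst : Poly st) {Ks : α → List Key} (hK : Poly Ks) :
    PT (fun a => bnd (askT (Ks a)) fun o =>
      ret (stepS (orc (Ks a) o) (U a).length (V a).length (cap a) (st a))) := by
  refine pcomp hK (F := fun a s => stepS s (U a).length (V a).length (cap a) (st a)) ?_
  exact pstepS (α := α × List Outcome) (s := fun p => orc (Ks p.1) p.2) (U := fun p => U p.1)
    (V := fun p => V p.1) (cap := fun p => cap p.1) (st := fun p => st p.1)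
    (porcs hK) (hU.comp (NPC.Poly.fst NPC.Poly.id)) (hV.comp (NPC.Poly.fst NPC.Poly.id))
    (hc.comp (NPC.Poly.fst NPC.Poly.id)) (hst.comp (NPC.Poly.fst NPC.Poly.id))

theorem pstepT {U V cap : α → List Unit} (hU : Poly U) (hV : Poly V) (hc : Poly cap)
    {st : α → St} (hst : Poly st) :
    PT (fun a => stepT (U a).length (V a).length (cap a) (st a)) :=
  pstepT' hU hV hc hst (pstepK hU hV (NPC.Poly.snd (NPC.Poly.fst hst))
    (NPC.Poly.fst (NPC.Poly.snd hst)) (NPC.Poly.snd (NPC.Poly.snd hst)))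

theorem pfinT' {U V : α → List Unit} (hU : Poly U) (hV : Poly V)
    {st : α → St} (hst : Poly st) {Ks : α → List Key} (hK : Poly Ks) :
    PT (fun a => bnd (askT (Ks a)) fun o =>
      ret (fin (orc (Ks a) o) (U a).length (V a).length (st a))) := by
  refine pcomp hK (F := fun a s => fin s (U a).length (V a).length (st a)) ?_
  exact pfin (α := α × List Outcome) (s := fun p => orc (Ks p.1) p.2) (U := fun p => U p.1)
    (V := fun p => V p.1) (st := fun p => st p.1)
    (porcs hK) (hU.comp (NPC.Poly.fst NPC.Poly.id)) (hV.comp (NPC.Poly.fst NPC.Poly.id))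
    (hst.comp (NPC.Poly.fst NPC.Poly.id))

theorem pfinT {U V : α → List Unit} (hU : Poly U) (hV : Poly V) {st : α → St} (hst : Poly st) :
    PT (fun a => finT (U a).length (V a).length (st a)) :=
  pfinT' hU hV hst (pfinK hU hV (NPC.Poly.snd (NPC.Poly.snd hst)))

theorem pcapU (κ : ℕ) {U V : α → List Unit} (hU : Poly U) (hV : Poly V) :
    Poly (fun a => capU κ (U a).length (V a).length) := by
  have h : UPoly (fun a => ((Polynomial.X ^ κ : Polynomial ℕ)).eval
      ((U a).length + (V a).length)) :=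
    UPoly.eval (UPoly.add (UPoly.length hU) (UPoly.length hV)) _
  refine NPC.Poly.congr h fun a => ?_
  unfold capU
  show List.replicate (Polynomial.eval ((U a).length + (V a).length) (Polynomial.X ^ κ)) () = _
  rw [Polynomial.eval_pow, Polynomial.eval_X]

theorem piter (κ : ℕ) {U V : α → List Unit} (hU : Poly U) (hV : Poly V) :
    PT (fun a => iter (stepT (U a).length (V a).length (capU κ (U a).length (V a).length))
      ((V a).length * (V a).length) (st0 (U a).length (V a).length)) := by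
  have hc := pcapU κ hU hV
  refine t_PTITER α St (fun a => stepT (U a).length (V a).length
    (capU κ (U a).length (V a).length))
    (fun a => (V a).length * (V a).length) (fun a => st0 (U a).length (V a).length) ?_
    (UPoly.mul (UPoly.length hV) (UPoly.length hV)) ?_ (fun a st => shr_step _ _ _ _) ?_
  · have b : Poly (fun q : α × St => q.1) := NPC.Poly.fst NPC.Poly.id
    exact pstepT (α := α × St) (U := fun p => U p.1) (V := fun p => V p.1)
      (cap := fun p => capU κ (U p.1).length (V p.1).length) (hU.comp b) (hV.comp b)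
      (hc.comp b) (NPC.Poly.snd NPC.Poly.id)
  · exact NPC.Poly.pair (NPC.Poly.pair (NPC.Poly.length hV) (NPC.Poly.const 0))
      (NPC.Poly.pair (punits hU) (NPC.Poly.const []))
  · obtain ⟨qU, hqU⟩ := hU.sz_le
    obtain ⟨qV, hqV⟩ := hV.sz_le
    obtain ⟨qC, hqC⟩ := hc.sz_le
    obtain ⟨qR, hqR⟩ := (NPC.Poly.range_length hU).sz_le
    refine ⟨(qU + (qC + qC * qC)) * ((qR + 4 * qU + 3) + 1) +
      qV * ((qR + 4 * qU + 3) + 4 * qV + 3) + 8 * qV + 7, fun a i st hi hout => ?_⟩
    have h5 := si_sz (out_iter i st hout)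
    have e1 : (U a).length ≤ qU.eval (NPC.sz a) := by
      have := hqU a
      have := length_lt_sz (U a)
      omega
    have e2 : (V a).length ≤ qV.eval (NPC.sz a) := by
      have := hqV a
      have := length_lt_sz (V a)
      omega
    have e3 : (capU κ (U a).length (V a).length).length ≤ qC.eval (NPC.sz a) := by
      have := hqC a
      have := length_lt_sz (capU κ (U a).length (V a).length)
      omega
    have e4 := hqR a
    simp only [Polynomial.eval_add, Polynomial.eval_mul, Polynomial.eval_ofNat,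
      Polynomial.eval_one]
    refine h5.trans ?_
    unfold dB bS
    gcongr

theorem pTA (κ : ℕ) : PT (fun p : List Unit × List Unit => TA κ p.1.length p.2.length) := by
  unfold TA
  have hU : Poly (fun p : List Unit × List Unit => p.1) := NPC.Poly.fst NPC.Poly.id
  have hV : Poly (fun p : List Unit × List Unit => p.2) := NPC.Poly.snd NPC.Poly.id
  refine t_PT.2.1 _ _ _ _ (fun (p : List Unit × List Unit) (st : St) =>
    finT p.1.length p.2.length st) (piter κ hU hV) ?_
  exact pfinT (α := (List Unit × List Unit) × St) (U := fun q => q.1.1) (V := fun q => q.1.2)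
    (st := fun q => q.2) (NPC.Poly.fst (NPC.Poly.fst NPC.Poly.id))
    (NPC.Poly.snd (NPC.Poly.fst NPC.Poly.id)) (NPC.Poly.snd NPC.Poly.id)

theorem ctrl (κ : ℕ) : PolyControl (alg κ) := t_OUT.2 (TA κ) (pTA κ)

theorem oracleFree (κ : ℕ) : OracleFree (alg κ) := by
  intro m n h w
  unfold alg algOf
  cases TA κ m n h <;> simp

end Pool.Agent.H54.FD
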