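import Pool.Agent.H54.FD.Corr

/-! The algorithm is correct. -/

set_option autoImplicit false

namespace Pool.Agent.H54.FD

open Finset Matrix Pool.Agent.H622R3.SM
open Pool.Agent.H37.CH (Src Key sO sz sz_mul sz_pos sz_neg sz_zero sz_eq_zero sz_nonneg sz_lt)

variable {m n : ℕ} {A : Matrix (Fin m) (Fin n) ℝ} {b β : Fin m → ℝ} {j k : ℕ}

/-- Eliminating the first `j` unknowns gives at most `N` directions. -/
def Few (A : Matrix (Fin m) (Fin n) ℝ) (j N : ℕ) : Prop :=
  ∃ V : List (Fin n → ℝ), V.length ≤ N ∧ ∀ w, Elem A j w → ∃ v ∈ V, ∃ s : ℝ, 0 ≤ s ∧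
    ∀ c, dir A w c = s * v c

theorem Opt.nz (hf : Feas A k β) {v : Fin m → ℝ} (hv : Elem A j v) (ho : Opt A k β v) :
    Nz A k v := by
  by_contra h
  unfold Nz at h
  push Not at h
  exact hv.2.1 (ho.ne_zero_dir hf h)

theorem Same.symm {L L' : List ℕ} (h : Same A j k L L') : Same A j k L' L := by
  obtain ⟨v, v', θ, h1, h2, h3⟩ := h
  exact ⟨v', v, θ⁻¹, h2, h1, h3.symm⟩

section

variable {g : Reg → ℝ} (hg : Rg g A b) {T : List Ray} {ws : List (Fin m → ℝ)}
  {C : List (List ℕ)} (hC : ∀ L ∈ C, Good A j L)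

include hg hC

theorem red_good : ∀ L ∈ red (sO g) m n T C j (cks n k), Good A j L :=
  fun L hL => hC L (red_sub hg hL).1

theorem red_hasOpt (hT : TV A b k T ws β) (hf : Feas A k β) (hO : HasOpt A j k β C) :
    HasOpt A j k β (red (sO g) m n T C j (cks n k)) := by
  intro v hv ho
  obtain ⟨L, hL, hs⟩ := hO v hv ho
  obtain ⟨t, ht, hr⟩ := ray_of (hC L hL).1 hv hs
  exact ⟨L, red_opt hg hT hC hL hr (ho.smul ht) ((ho.smul ht).nz hf hr.el), hs⟩

theorem red_length {N : ℕ} (hF : Few A j N) :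
    (red (sO g) m n T C j (cks n k)).length ≤ N := by
  classical
  obtain ⟨V, hV, hd⟩ := hF
  have hex : ∀ L : List ℕ, ∃ v : Fin n → ℝ, L ∈ red (sO g) m n T C j (cks n k) → v ∈ V ∧
      ∀ w, RayV A (L, j) w → ∃ s : ℝ, 0 < s ∧ ∀ c, dir A w c = s * v c := by
    intro L
    by_cases hL : L ∈ red (sO g) m n T C j (cks n k)
    · obtain ⟨w, hw⟩ := (red_good hg hC L hL).ray
      obtain ⟨v, hv, s, hs, h1⟩ := hd w hw.el
      refine ⟨v, fun _ => ⟨hv, fun w' hw' => ⟨s, ?_, ?_⟩⟩⟩
      · obtain ⟨c, -, h0⟩ := (red_sub hg hL).2 w hw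
        refine lt_of_le_of_ne hs fun h => h0 ?_
        rw [h1, ← h, zero_mul]
      · rw [← hw.unique hw']
        exact h1
    · exact ⟨0, fun h => absurd h hL⟩
  choose f hf using hex
  have hnd : ((red (sO g) m n T C j (cks n k)).map f).Nodup := by
    rw [List.Nodup, List.pairwise_map]
    refine List.Pairwise.imp_of_mem ?_ (red_pairwise (T := T) (k := k) (j := j) (C := C) hg)
    intro L L' hL hL' hns he
    obtain ⟨w, hw⟩ := (red_good hg hC L hL).ray
    obtain ⟨w', hw'⟩ := (red_good hg hC L' hL').ray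
    obtain ⟨s, hs, h1⟩ := (hf L hL).2 w hw
    obtain ⟨s', hs', h2⟩ := (hf L' hL').2 w' hw'
    refine hns ⟨w, w', s' / s, hw, hw', div_pos hs' hs, fun c _ => ?_⟩
    rw [h2, h1, he]
    field_simp
  have hsub : (red (sO g) m n T C j (cks n k)).map f ⊆ V := by
    intro v hv
    obtain ⟨L, hL, rfl⟩ := List.mem_map.1 hv
    exact (hf L hL).1
  have := (hnd.subperm hsub).length_le
  rw [List.length_map] at this
  exact this.trans hV

end

/-- The invariant. -/
structure Inv (A : Matrix (Fin m) (Fin n) ℝ) (b : Fin m → ℝ) (st : St) : Prop where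
  /-- the number of unknowns -/
  kn : st.1.1 ≤ n
  /-- the number of eliminated unknowns -/
  lt : st.1.1 = 0 ∨ st.1.2 < st.1.1
  /-- supports -/
  good : ∀ L ∈ st.2.1, Good A st.1.2 L
  /-- the new right-hand side -/
  ex : ∃ ws β, TV A b st.1.1 st.2.2 ws β ∧
    (Feas A n b → Feas A st.1.1 β ∧ HasOpt A st.1.2 st.1.1 β st.2.1)

theorem inv_start : Inv A b (st0 m n) := by
  refine ⟨le_rfl, ?_, units_good, [], b, ⟨List.Forall₂.nil, by simp [st0], by simp [st0],
    ⟨fun _ => 0, ?_⟩, ⟨fun _ => 0, fun i => by simp⟩⟩, fun h => ⟨h, units_opt⟩⟩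
  · rcases Nat.eq_zero_or_pos n with h | h
    · exact Or.inl h
    · exact Or.inr h
  · simp [cT, cols, st0]

theorem f_shift {T : List Ray} {ws : List (Fin m → ℝ)} (h : List.Forall₂ (RayT A β) T ws)
    (c : Fin n) (hT : ∀ R ∈ T, (c : ℕ) < R.2) (t : ℝ) :
    List.Forall₂ (RayT A (shift A β c t)) T ws := by
  induction h with
  | nil => exact List.Forall₂.nil
  | @cons R w' T ws h1 _ ih =>
    refine List.Forall₂.cons ⟨h1.1, h1.2.1, ?_⟩ (ih fun R' hR' => hT R' (by simp [hR']))
    rw [dot_shift, h1.2.2, h1.1.el.2.2.1 c (hT R (by simp))]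
    ring

theorem TV.push {T : List Ray} {ws : List (Fin m → ℝ)} {c : Fin n}
    (hT : TV A b ((c : ℕ) + 1) T ws β) {L : List ℕ} {v : Fin m → ℝ} (hv : RayV A (L, (c : ℕ)) v)
    (h0 : dir A v c ≠ 0) :
    TV A b c ((L, (c : ℕ)) :: T) (v :: ws) (shift A β c (dot β v / dir A v c)) := by
  have hlt : ∀ R ∈ T, (c : ℕ) < R.2 := fun R hR => hT.ge R hR
  refine ⟨List.Forall₂.cons ⟨hv, ⟨c.2, h0⟩, ?_⟩ (f_shift hT.f c hlt _), ?_, ?_, ?_, ?_⟩
  · rw [dot_shift, div_mul_cancel₀ _ h0, sub_self]
  · intro R hR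
    rcases List.mem_cons.1 hR with rfl | hR
    · exact le_rfl
    · exact (hlt R hR).le
  · rw [List.pairwise_cons]
    exact ⟨fun R hR => hlt R hR, hT.sorted⟩
  · obtain ⟨y, hy⟩ := hT.y
    generalize dot β v / dir A v c = t
    refine ⟨fun l => if l = 0 then t else y (l - 1), ?_⟩
    have e : cT A b ((L, (c : ℕ)) :: T) = cv A b (0, (c : ℕ)) :: cT A b T := rfl
    rw [e, List.length_cons, Finset.sum_range_succ']
    have e2 : shift A β c t = β - t • cv A b (0, (c : ℕ)) := by
      rw [cv_col c.2]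
      funext i
      simp [shift]
    rw [e2]
    simp only [List.getD_cons_zero, List.getD_cons_succ, Nat.add_eq_zero_iff, one_ne_zero,
      and_false, if_false, if_true, Nat.add_sub_cancel]
    rw [hy, sub_sub]
  · obtain ⟨x, hx⟩ := hT.x
    refine ⟨fun c' => x c' + if c' = c then dot β v / dir A v c else 0, fun i => ?_⟩
    simp only [shift, hx i, mul_add, Finset.sum_add_distrib, mul_ite, mul_zero,
      Finset.sum_ite_eq', Finset.mem_univ, if_true]
    ring

section

variable {g : Reg → ℝ} (hg : Rg g A b)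

include hg

theorem inv_mid {T : List Ray} {C : List (List ℕ)} {cap : List Unit} (hkn : k ≤ n)
    (hj : j + 1 < k) (hI : Inv A b ((k, j), (C, T))) (hF : Few A j cap.length) :
    Inv A b ((k, j + 1), (gen (sO g) m n ((red (sO g) m n T C j (cks n k)).take cap.length) j,
      T)) := by
  obtain ⟨ws, β, hT, hO⟩ := hI.ex
  have hlen := red_length (T := T) (k := k) hg hI.good hF
  rw [List.take_of_length_le hlen]
  refine ⟨hkn, Or.inr hj, gen_good hg (red_good hg hI.good) (by omega), ws, β, hT, fun h => ?_⟩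
  obtain ⟨h1, h2⟩ := hO h
  exact ⟨h1, gen_opt hg (red_good hg hI.good) (by omega) (red_hasOpt hg hI.good hT h1 h2)⟩

omit hg in
theorem same_of_last {c : Fin n} {L L' : List ℕ} {v v' : Fin m → ℝ} (hv : RayV A (L, (c : ℕ)) v)
    (hv' : RayV A (L', (c : ℕ)) v') (h : 0 < dir A v c * dir A v' c) :
    Same A c ((c : ℕ) + 1) L L' := by
  have h0 : dir A v c ≠ 0 := fun h0 => by rw [h0, zero_mul] at h; exact lt_irrefl _ h
  refine ⟨v, v', dir A v' c / dir A v c, hv, hv', ?_, fun c' hc' => ?_⟩
  · have e : dir A v' c / dir A v c = dir A v c * dir A v' c / (dir A v c * dir A v c) := by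
      field_simp
    rw [e]
    exact div_pos h (mul_self_pos.2 h0)
  · rcases Nat.lt_succ_iff_lt_or_eq.1 hc' with h1 | h1
    · rw [hv.el.2.2.1 c' h1, hv'.el.2.2.1 c' h1, mul_zero]
    · have : c' = c := Fin.ext h1
      rw [this, div_mul_cancel₀ _ h0]

/-- the supports chosen belong to optimal combinations -/
theorem opt_of_red {T : List Ray} {ws : List (Fin m → ℝ)} {C : List (List ℕ)} {c : Fin n}
    (hC : ∀ L ∈ C, Good A c L) (hT : TV A b ((c : ℕ) + 1) T ws β) (hf : Feas A ((c : ℕ) + 1) β)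
    (hO : HasOpt A c ((c : ℕ) + 1) β C) {L : List ℕ}
    (hL : L ∈ red (sO g) m n T C c (cks n ((c : ℕ) + 1))) {v : Fin m → ℝ}
    (hv : RayV A (L, (c : ℕ)) v) : Opt A ((c : ℕ) + 1) β v := by
  have hn := (red_sub hg hL).2 v hv
  obtain ⟨c', hc', h0'⟩ := hn
  have h0 : dir A v c ≠ 0 := by
    rcases Nat.lt_succ_iff_lt_or_eq.1 hc' with h1 | h1
    · exact absurd (hv.el.2.2.1 c' h1) h0'
    · have : c' = c := Fin.ext h1
      rwa [this] at h0'
  obtain ⟨u, e1, e2, e3⟩ := exists_opt_dir hf hv.el.1 hv.el.2.2.1 (s := dir A v c)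
    (mul_self_pos.2 h0)
  obtain ⟨L', hL', hs'⟩ := red_hasOpt hg hC hT hf hO u e1 e2
  obtain ⟨t, ht, hr⟩ := ray_of (red_good hg hC L' hL').1 e1 hs'
  have hsame : Same A c ((c : ℕ) + 1) L L' := same_of_last hv hr (by
    rw [dir_smul, mul_left_comm]
    exact mul_pos ht e3)
  have : L = L' := by
    by_contra hne
    have : Std.Symm fun L L' => ¬ Same A c ((c : ℕ) + 1) L L' := ⟨fun L L' h h' => h h'.symm⟩
    exact (red_pairwise (T := T) (k := (c : ℕ) + 1) (j := c) (C := C) hg).forall
      hL hL' hne hsame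
  subst this
  rw [hv.unique hr]
  exact e2.smul ht

theorem inv_last {T : List Ray} {C : List (List ℕ)} {cap : List Unit} {c : Fin n}
    (hI : Inv A b (((c : ℕ) + 1, (c : ℕ)), (C, T))) (hF : Few A c cap.length) :
    Inv A b (((c : ℕ), 0), (units m, pick (sO g) m n ((red (sO g) m n T C c
      (cks n ((c : ℕ) + 1))).take cap.length) c ++ T)) := by
  obtain ⟨ws, β, hT, hO⟩ := hI.ex
  have hC : ∀ L ∈ C, Good A c L := hI.good
  have hT' : TV A b ((c : ℕ) + 1) T ws β := hT
  have hO' : Feas A n b → Feas A ((c : ℕ) + 1) β ∧ HasOpt A c ((c : ℕ) + 1) β C := hO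
  have hlen := red_length (T := T) (k := (c : ℕ) + 1) hg hC hF
  rw [List.take_of_length_le hlen]
  have hKgood := red_good (T := T) (k := (c : ℕ) + 1) hg hC
  set K := red (sO g) m n T C c (cks n ((c : ℕ) + 1)) with hK
  refine ⟨c.2.le, ?_, units_good, ?_⟩
  · rcases Nat.eq_zero_or_pos (c : ℕ) with h | h
    · exact Or.inl h
    · exact Or.inr h
  show ∃ ws β, TV A b c (pick (sO g) m n K c ++ T) ws β ∧
    (Feas A n b → Feas A c β ∧ HasOpt A 0 c β (units m))
  have hnu : ∀ {L : List ℕ} {v : Fin m → ℝ}, RayV A (L, (c : ℕ)) v →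
      nu (sO g) m n (L, (c : ℕ)) c = sz (dir A v c) := fun hv => nu_eq hg hv c.2
  unfold pick
  cases hP : (K.filter fun L => decide (nu (sO g) m n (L, (c : ℕ)) c = 1)) ++
      K.filter fun L => decide (nu (sO g) m n (L, (c : ℕ)) c = -1) with
  | nil =>
    refine ⟨ws, β, ⟨hT'.f, fun R hR => (Nat.lt_of_succ_le (hT'.ge R hR)).le, hT'.sorted, hT'.y,
      hT'.x⟩, fun h => ?_⟩
    obtain ⟨hf, hO1⟩ := hO' h
    refine ⟨choose_zero hf fun u e1 e2 => ?_, units_opt⟩
    by_contra h0
    obtain ⟨L, hL, hs⟩ := red_hasOpt hg hC hT' hf hO1 u e1 e2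
    obtain ⟨t, ht, hr⟩ := ray_of (hKgood L hL).1 e1 hs
    have hmem : L ∈ (K.filter fun L => decide (nu (sO g) m n (L, (c : ℕ)) c = 1)) ++
        K.filter fun L => decide (nu (sO g) m n (L, (c : ℕ)) c = -1) := by
      rw [List.mem_append, List.mem_filter, List.mem_filter]
      rcases lt_or_gt_of_ne h0 with h1 | h1
      · right
        refine ⟨hL, ?_⟩
        rw [decide_eq_true_eq, hnu hr, sz_neg_iff, dir_smul]
        exact mul_neg_of_pos_of_neg ht h1
      · left
        refine ⟨hL, ?_⟩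
        rw [decide_eq_true_eq, hnu hr, sz_one_iff, dir_smul]
        exact mul_pos ht h1
    rw [hP] at hmem
    simp at hmem
  | cons L0 rest =>
    have hmem : L0 ∈ (K.filter fun L => decide (nu (sO g) m n (L, (c : ℕ)) c = 1)) ++
        K.filter fun L => decide (nu (sO g) m n (L, (c : ℕ)) c = -1) := by
      rw [hP]; simp
    have hL0 : L0 ∈ K := by
      rcases List.mem_append.1 hmem with h | h <;> exact (List.mem_filter.1 h).1
    obtain ⟨v, hv⟩ := (hKgood L0 hL0).ray
    have h0 : dir A v c ≠ 0 := by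
      rcases List.mem_append.1 hmem with h | h
      · have := (List.mem_filter.1 h).2
        rw [decide_eq_true_eq, hnu hv, sz_one_iff] at this
        exact this.ne'
      · have := (List.mem_filter.1 h).2
        rw [decide_eq_true_eq, hnu hv, sz_neg_iff] at this
        exact this.ne
    refine ⟨v :: ws, shift A β c (dot β v / dir A v c), hT'.push hv h0, fun h => ?_⟩
    obtain ⟨hf, hO1⟩ := hO' h
    have ho := opt_of_red hg hC hT' hf hO1 hL0 hv
    refine ⟨?_, units_opt⟩
    rcases lt_or_gt_of_ne h0 with h1 | h1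
    · refine choose_neg hf hv.el ho h1 fun u e1 e2 hu => ?_
      obtain ⟨L, hL, hs⟩ := red_hasOpt hg hC hT' hf hO1 u e1 e2
      obtain ⟨t, ht, hr⟩ := ray_of (hKgood L hL).1 e1 hs
      have hL1 : L ∈ K.filter fun L => decide (nu (sO g) m n (L, (c : ℕ)) c = 1) := by
        rw [List.mem_filter]
        refine ⟨hL, ?_⟩
        rw [decide_eq_true_eq, hnu hr, sz_one_iff, dir_smul]
        exact mul_pos ht hu
      cases hF1 : K.filter fun L => decide (nu (sO g) m n (L, (c : ℕ)) c = 1) with
      | nil =>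
        rw [hF1] at hL1
        simp at hL1
      | cons L1 rest1 =>
        rw [hF1, List.cons_append] at hP
        have e : L1 = L0 := (List.cons.inj hP).1
        have h2 : L1 ∈ K.filter fun L => decide (nu (sO g) m n (L, (c : ℕ)) c = 1) := by
          rw [hF1]; simp
        have h3 := (List.mem_filter.1 h2).2
        rw [e, decide_eq_true_eq, hnu hv, sz_one_iff] at h3
        exact absurd h3 (not_lt.2 h1.le)
    · exact choose_pos hf hv.el ho h1

theorem inv_step {st : St} {cap : List Unit} (hF : ∀ j < n, Few A j cap.length)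
    (hI : Inv A b st) : Inv A b (stepS (sO g) m n cap st) := by
  obtain ⟨⟨k, j⟩, C, T⟩ := st
  unfold stepS
  simp only
  split_ifs with h1 h2
  · exact hI
  · exact inv_mid hg hI.kn h2 hI (hF j (by have := hI.kn; simp only at this; omega))
  · have hlt : j < k := by
      rcases hI.lt with h | h
      · exact absurd h h1
      · exact h
    have hkn : k ≤ n := hI.kn
    obtain rfl : k = j + 1 := by omega
    have := inv_last hg (c := ⟨j, by omega⟩) (cap := cap) hI (hF j (by omega))
    exact this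

theorem inv_iter {cap : List Unit} (hF : ∀ j < n, Few A j cap.length) (i : ℕ) :
    Inv A b ((stepS (sO g) m n cap)^[i] (st0 m n)) := by
  induction i with
  | zero => exact inv_start
  | succ i ih =>
    rw [Function.iterate_succ_apply']
    exact inv_step hg hF ih

/-- at the end all unknowns are fixed -/
theorem iter_end {cap : List Unit} (hF : ∀ j < n, Few A j cap.length) (i : ℕ) :
    ((stepS (sO g) m n cap)^[i] (st0 m n)).1.1 = 0 ∨
      ((stepS (sO g) m n cap)^[i] (st0 m n)).1.1 * n + i ≤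
        n * n + ((stepS (sO g) m n cap)^[i] (st0 m n)).1.2 := by
  induction i with
  | zero =>
    right
    simp [st0]
  | succ i ih =>
    rw [Function.iterate_succ_apply']
    have hI := inv_iter hg hF i
    generalize (stepS (sO g) m n cap)^[i] (st0 m n) = st at ih hI
    obtain ⟨⟨k, j⟩, C, T⟩ := st
    unfold stepS
    simp only at ih ⊢
    split_ifs with h1 h2
    · left
      exact h1
    · right
      rcases ih with h | h
      · exact absurd h h1
      · simp only; omega
    · rcases ih with h | h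
      · exact absurd h h1
      · have hlt : j < k := by
          rcases hI.lt with h3 | h3
          · exact absurd h3 h1
          · exact h3
        have hkn : k ≤ n := hI.kn
        obtain ⟨k', rfl⟩ := Nat.exists_eq_succ_of_ne_zero h1
        right
        simp only [Nat.succ_sub_one] at h2 ⊢
        have e : (k' + 1) * n = k' * n + n := by ring
        have h' : k'.succ * n = k' * n + n := e
        omega

/-- The answer is correct. -/
theorem answer {cap : List Unit} (hn : 1 ≤ n) (hF : ∀ j < n, Few A j cap.length) :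
    fin (sO g) m n ((stepS (sO g) m n cap)^[n * n] (st0 m n)) = true ↔
      ∃ x : Fin n → ℝ, ∀ i, b i ≤ ∑ c, A i c * x c := by
  have hI := inv_iter hg hF (n * n)
  have hE := iter_end hg hF (n * n)
  generalize (stepS (sO g) m n cap)^[n * n] (st0 m n) = st at hI hE
  obtain ⟨⟨k, j⟩, C, T⟩ := st
  have hk : k = 0 := by
    rcases hE with h | h
    · exact h
    · simp only at h
      by_contra h0
      have h1 : j < k := by
        rcases hI.lt with h3 | h3
        · exact absurd h3 h0
        · exact h3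
      have h2 : k * 1 ≤ k * n := Nat.mul_le_mul_left k hn
      omega
  subst hk
  obtain ⟨ws, β, hT, hO⟩ := hI.ex
  have hT' : TV A b 0 T ws β := hT
  have hfin : fin (sO g) m n ((0, j), (C, T)) = true ↔ ∀ i, β i ≤ 0 := by
    simp only [fin, List.all_eq_true, List.mem_range, decide_eq_true_eq]
    have key : ∀ i : Fin m, qs (sO g) m n (([(i : ℕ)], 0) :: T) ((1, 0) :: cols T) *
        qT (sO g) m n T ≤ 0 ↔ β i ≤ 0 := by
      intro i
      rw [q1T_eq hg hT' (ray_unit i.2)]
      have e : dot β (Pi.single i (1 : ℝ)) = β i := by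
        unfold dot
        rw [Finset.sum_eq_single i]
        · simp
        · intro i' _ h
          simp [Pi.single_eq_of_ne h]
        · intro h
          exact absurd (mem_univ i) h
      have e' : dot β (Pi.single (⟨(i : ℕ), i.2⟩ : Fin m) (1 : ℝ)) = β i := e
      rw [e']
      constructor
      · intro h
        by_contra h2
        rw [sz_pos (not_le.1 h2)] at h
        norm_num at h
      · intro h
        rcases lt_or_eq_of_le h with h2 | h2
        · rw [sz_neg h2]; norm_num
        · rw [h2, sz_zero]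
    exact ⟨fun h i => (key i).1 (h i i.2), fun h i hi => (key ⟨i, hi⟩).2 (h ⟨i, hi⟩)⟩
  rw [hfin]
  constructor
  · intro h
    obtain ⟨x, hx⟩ := hT'.x
    refine ⟨x, fun i => ?_⟩
    have := h i
    rw [hx i] at this
    linarith
  · rintro ⟨x, hx⟩ i
    obtain ⟨⟨z, hz, h1⟩, -⟩ := hO ⟨x, fun c hc => absurd c.2 (by omega), hx⟩
    refine (h1 i).trans (le_of_eq ?_)
    refine Finset.sum_eq_zero fun c _ => ?_
    rw [hz c (Nat.zero_le _), mul_zero]

end

end Pool.Agent.H54.FD
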