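import Pool.Agent.H54.FD.Runs
import Pool.Agent.H54.FD.Inv
import Pool.Graph.R_seed8.R533.GU.Defs
import Pool.Graph.R_seed8.W920.FC.T_RUN
import Pool.Graph.R_seed8.W920.FC.T_BITS
import Pool.Graph.R_seed8.Y648.CS.T_FINAL

/-! The algorithm decides all instances with few directions. -/

set_option autoImplicit false

namespace Pool.Agent.H54.FD

open Matrix Pool.Agent.H558R2 Pool.Agent.H622R3.SM Pool.Agent.W920.FC Pool.Agent.R533.GU
open Pool.Agent.Y648.CS.TDET (qD)

/-- Every elimination gives few directions. -/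
def FewDir (κ m n : ℕ) (A : Matrix (Fin m) (Fin n) ℝ) : Prop :=
  ∀ j < n, Few A j ((m + n) ^ κ)

theorem decides (κ : ℕ) : DecidesOn ∅ (fun m n A _ => FewDir κ m n A) (alg κ) := by
  refine ⟨qR κ + 1 + (2 * qD.comp (pN + 2 * Polynomial.X) + 3), fun m n hm hn A b hA => ?_⟩
  have hbase : Base (start A b) := ⟨rfl, rfl⟩
  have hr := runs_TA' (m := m) (n := n) (κ := κ) hbase
  have hfuel : (qR κ).eval (m + n) + 1 ≤
      (qR κ + 1 + (2 * qD.comp (pN + 2 * Polynomial.X) + 3)).eval (m + n) := by
    simp only [Polynomial.eval_add, Polynomial.eval_one]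
    omega
  obtain ⟨nums, steps, hrun, hsteps, hG⟩ := t_RUN (TA κ) m n _ _ _ _ hr ∅ _ hfuel
  have hans := answer (rg_start A b) (cap := capU κ m n) hn (fun j hj => by
    unfold capU
    rw [List.length_replicate]
    exact hA j hj)
  refine ⟨_, nums, steps, hrun, ?_, by omega, ?_⟩
  · rw [hans]
    rfl
  · intro A' b' hA' hb' v hv
    have hA2 : (fun i j => ((A' i j : ℚ) : ℝ)) = (A : Fin m → Fin n → ℝ) := by
      funext i j
      exact hA' i j
    have hb2 : (fun i => ((b' i : ℚ) : ℝ)) = b := by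
      funext i
      exact hb' i
    have hRB := t_BITS.2 m n A' b'
    rw [hA2, hb2] at hRB
    have hQ := hG v hv _ hRB
    obtain ⟨q, hq, hq2⟩ := t_BITS.1 _ _ hQ
    refine ⟨q, hq, hq2.trans ?_⟩
    have hL := Pool.Agent.Y648.CS.FL.le_inputLength hm A' b'
    have hN : nB m n ≤ (inputLength A' b' + 2) * (inputLength A' b' + 1) := by
      unfold nB
      gcongr
    have hmono := Pool.Agent.Y648.CS.pe_mono qD
      (show nB m n + 2 * inputLength A' b' ≤
        (inputLength A' b' + 2) * (inputLength A' b' + 1) + 2 * inputLength A' b' by omega)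
    unfold pN
    simp only [Polynomial.eval_add, Polynomial.eval_mul, Polynomial.eval_comp,
      Polynomial.eval_X, Polynomial.eval_ofNat, Polynomial.eval_one]
    omega

end Pool.Agent.H54.FD
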