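import Pool.Agent.H54.FD.Alg
import Pool.Agent.H54.FD.Blk
import Pool.Agent.H37.CH.Orc

/-! The meaning of the queries. -/

set_option autoImplicit false

namespace Pool.Agent.H54.FD

open Finset Matrix Pool.Agent.H622R3.SM
open Pool.Agent.H37.CH (Src Key sv MK dv kget sO sz sz_mul sz_pos sz_neg osg_sz rd)

/-- The determinant of a matrix given by a list of positions. -/
theorem det_list {δ ι : Type} [Fintype ι] [DecidableEq ι] [DecidableEq δ] (P : List δ)
    (hP : P.Nodup) (e : ι → δ) (he : Function.Injective e) (hm : ∀ d, d ∈ P ↔ ∃ x, e x = d)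
    (F : δ → δ → ℝ) : (Matrix.of fun t t' : Fin P.length => F (P.get t) (P.get t')).det =
      (Matrix.of fun x y : ι => F (e x) (e y)).det := by
  let f : ι → {d // d ∈ P} := fun x => ⟨e x, (hm _).2 ⟨x, rfl⟩⟩
  have hf : Function.Bijective f := by
    constructor
    · intro x y hxy
      exact he (congrArg Subtype.val hxy)
    · rintro ⟨d, hd⟩
      obtain ⟨x, hx⟩ := (hm d).1 hd
      exact ⟨x, Subtype.ext hx⟩
  let φ : ι ≃ Fin P.length := (Equiv.ofBijective f hf).trans (hP.getEquiv P).symm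
  have h1 : ∀ x, P.get (φ x) = e x := by
    intro x
    have h2 : (hP.getEquiv P) (φ x) = f x := by
      simp [φ]
    have h3 := congrArg Subtype.val h2
    exact h3
  rw [← Matrix.det_submatrix_equiv_self φ]
  congr 1
  ext x y
  simp only [Matrix.submatrix_apply, Matrix.of_apply, h1]

theorem mem_posn {Rs : List Ray} {S : ℕ} {d : ℕ × ℕ} :
    d ∈ posn Rs (List.range S) ↔ d.1 < Rs.length ∧ d.2 < S := by
  simp only [posn, List.mem_flatMap, List.mem_map, List.mem_range]
  constructor
  · rintro ⟨a, ha, r, hr, rfl⟩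
    exact ⟨ha, hr⟩
  · rintro ⟨h1, h2⟩
    exact ⟨d.1, h1, d.2, h2, rfl⟩

theorem nodup_posn (Rs : List Ray) (S : ℕ) : (posn Rs (List.range S)).Nodup := by
  unfold posn
  rw [List.nodup_flatMap]
  constructor
  · intro a _
    exact List.nodup_range.map fun r r' h => (Prod.ext_iff.1 h).2
  · refine List.nodup_range.pairwise_of_forall_ne ?_
    intro a _ a' _ hne x hx hx'
    simp only [List.mem_map] at hx hx'
    obtain ⟨r, -, rfl⟩ := hx
    obtain ⟨r', -, h⟩ := hx'
    exact hne (Prod.ext_iff.1 h).1.symm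

theorem length_posn (Rs : List Ray) (S : ℕ) : (posn Rs (List.range S)).length = Rs.length * S := by
  unfold posn
  rw [List.length_flatMap]
  simp

/-- the determinant of a query -/
theorem det_mkey {ι : Type} [Fintype ι] [DecidableEq ι] (g : Reg → ℝ) (m n : ℕ) (Rs : List Ray)
    (us : List Col) (S : ℕ) (e : ι → ℕ × ℕ) (he : Function.Injective e)
    (hm : ∀ d : ℕ × ℕ, (d.1 < Rs.length ∧ d.2 < S) ↔ ∃ x, e x = d) :
    (MK g (mkey m n Rs us (posn Rs (List.range S)))).det = (Matrix.of fun x y : ι =>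
      sv g (ent m n (Rs.getD (e x).1 ([], 0)) (us.getD (e y).1 (0, 0)) (e x) (e y))).det := by
  rw [← det_list (posn Rs (List.range S)) (nodup_posn Rs S) e he
    (fun d => by rw [mem_posn]; exact hm d)
    (fun d d' => sv g (ent m n (Rs.getD d.1 ([], 0)) (us.getD d'.1 (0, 0)) d d'))]
  refine Pool.Agent.H37.CH.det_cast (by simp [mkey]) _ _ fun i j hi hj hi' hj' => ?_
  have g1 : (mkey m n Rs us (posn Rs (List.range S))).getD i [] =
      (posn Rs (List.range S)).map fun d' =>
        ent m n (Rs.getD ((posn Rs (List.range S))[i]).1 ([], 0)) (us.getD d'.1 (0, 0))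
          ((posn Rs (List.range S))[i]) d' := by
    unfold mkey
    rw [List.getD_eq_getElem _ _ (by simpa using hi'), List.getElem_map]
  simp only [MK, Matrix.of_apply, kget]
  rw [g1]
  congr 1
  rw [List.getD_eq_getElem _ _ (show j < ((posn Rs (List.range S)).map fun d' =>
        ent m n (Rs.getD ((posn Rs (List.range S))[i]).1 ([], 0)) (us.getD d'.1 (0, 0))
          ((posn Rs (List.range S))[i]) d').length by simpa using hj'), List.getElem_map]
  rfl

section

variable {m n : ℕ} (A : Matrix (Fin m) (Fin n) ℝ) (b : Fin m → ℝ)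

/-- the value of a column -/
def cv (u : Col) (i : Fin m) : ℝ :=
  if u.1 = 0 then (if h : u.2 < n then A i ⟨u.2, h⟩ else 0) else if u.1 = 1 then b i
  else if u.2 = i then 1 else 0

/-- The base registers contain the instance. -/
structure Rg (g : Reg → ℝ) (A : Matrix (Fin m) (Fin n) ℝ) (b : Fin m → ℝ) : Prop where
  /-- entries -/
  ent : ∀ (i : Fin m) (c : Fin n), g [0, i, c] = A i c
  /-- no entries -/
  out : ∀ (i : Fin m) (c : ℕ), ¬ c < n → g [0, i, c] = 0
  /-- the right-hand side -/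
  rhs : ∀ i : Fin m, g [1, i] = b i
  /-- one -/
  one : g [2] = 1
  /-- zero -/
  zero : g [3] = 0

theorem rg_start (A : Fin m → Fin n → ℝ) (b : Fin m → ℝ) : Rg (start A b) (Matrix.of A) b where
  ent i c := by simp [start, i.2, c.2]
  out i c hc := by simp [start, hc]
  rhs i := by simp [start, i.2]
  one := by simp [start]
  zero := by simp [start]

variable {g : Reg → ℝ} (hg : Rg g A b)

include hg

theorem sv_one : sv g (false, [2]) = 1 := by simp [sv, rd, hg.one]

theorem sv_zero : sv g (false, [3]) = 0 := by simp [sv, rd, hg.zero]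

theorem sv_ent (i : Fin m) (c : Fin n) : sv g (false, [0, i, c]) = A i c := by
  simp [sv, rd, hg.ent]

theorem sv_nent (i : Fin m) (c : Fin n) : sv g (true, [0, i, c]) = - A i c := by
  simp [sv, rd, hg.ent]

theorem sv_csrc (u : Col) (i : Fin m) : sv g (csrc u i) = cv A b u i := by
  unfold csrc cv
  split_ifs with h1 h2 h3 h4
  · have := sv_ent A b hg i ⟨u.2, h2⟩
    exact this
  · simp [sv, rd, hg.out i _ h2]
  · simp [sv, rd, hg.rhs]
  · exact sv_one A b hg
  · exact sv_zero A b hg

omit hg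

/-- the positions -/
def eW (m n q : ℕ) : ((Fin q × Fin n) ⊕ (Fin q × Fin m)) → ℕ × ℕ
  | Sum.inl x => (x.1, x.2)
  | Sum.inr x => (x.1, n + x.2)

/-- the positions, with border -/
def eB (m n q : ℕ) : (((Fin q × Fin n) ⊕ (Fin q × Fin m)) ⊕ Fin q) → ℕ × ℕ
  | Sum.inl x => eW m n q x
  | Sum.inr x => (x, n + m)

theorem eW_inj (m n q : ℕ) : Function.Injective (eW m n q) := by
  rintro (⟨a, c⟩ | ⟨a, i⟩) (⟨a', c'⟩ | ⟨a', i'⟩) h <;> simp only [eW, Prod.mk.injEq] at h
  · rw [Fin.ext h.1, Fin.ext h.2]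
  · have := c.2; omega
  · have := c'.2; omega
  · rw [Fin.ext h.1, Fin.ext (show (i : ℕ) = i' by omega)]

theorem eW_mem (m n q : ℕ) (d : ℕ × ℕ) : (d.1 < q ∧ d.2 < n + m) ↔ ∃ x, eW m n q x = d := by
  constructor
  · rintro ⟨h1, h2⟩
    by_cases h : d.2 < n
    · exact ⟨Sum.inl (⟨d.1, h1⟩, ⟨d.2, h⟩), rfl⟩
    · refine ⟨Sum.inr (⟨d.1, h1⟩, ⟨d.2 - n, by omega⟩), ?_⟩
      simp only [eW]
      exact Prod.ext rfl (by simp only; omega)
  · rintro ⟨⟨a, c⟩ | ⟨a, i⟩, rfl⟩
    · exact ⟨a.2, by have := c.2; simp only [eW]; omega⟩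
    · exact ⟨a.2, by have := i.2; simp only [eW]; omega⟩

theorem eB_inj (m n q : ℕ) : Function.Injective (eB m n q) := by
  rintro (x | a) (y | a') h
  · exact congrArg Sum.inl (eW_inj m n q h)
  · have h1 := (eW_mem m n q (eW m n q x)).2 ⟨x, rfl⟩
    have h2 : eW m n q x = (↑a', n + m) := h
    rw [h2] at h1
    simp at h1
  · have h1 := (eW_mem m n q (eW m n q y)).2 ⟨y, rfl⟩
    have h2 : (↑a, n + m) = eW m n q y := h
    rw [← h2] at h1
    simp at h1
  · simp only [eB, Prod.mk.injEq] at h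
    rw [Fin.ext h.1]

theorem eB_mem (m n q : ℕ) (d : ℕ × ℕ) : (d.1 < q ∧ d.2 < n + m + 1) ↔ ∃ x, eB m n q x = d := by
  constructor
  · rintro ⟨h1, h2⟩
    by_cases h : d.2 < n + m
    · obtain ⟨x, hx⟩ := (eW_mem m n q d).1 ⟨h1, h⟩
      exact ⟨Sum.inl x, hx⟩
    · exact ⟨Sum.inr ⟨d.1, h1⟩, Prod.ext rfl (by simp only [eB]; omega)⟩
  · rintro ⟨x | a, rfl⟩
    · have := (eW_mem m n q _).2 ⟨x, rfl⟩
      exact ⟨this.1, by have := this.2; simp only [eB]; omega⟩
    · exact ⟨a.2, by simp [eB]⟩

/-- the support -/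
def SS (Rs : List Ray) (a : Fin Rs.length) (i : Fin m) : Prop := (i : ℕ) ∈ (Rs.getD a ([], 0)).1

instance (Rs : List Ray) (a : Fin Rs.length) (i : Fin m) : Decidable (SS Rs a i) := by
  unfold SS
  infer_instance

/-- the number of unknowns eliminated -/
def JJ (Rs : List Ray) (a : Fin Rs.length) : ℕ := (Rs.getD a ([], 0)).2

variable {A b}

include hg

omit hg in
theorem sv_ite {p q : Prop} {ip : Decidable p} {iq : Decidable q} (h : p ↔ q) {x y : Src}
    {vx vy : ℝ} (hx : sv g x = vx) (hy : sv g y = vy) : sv g (if p then x else y) =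
      if q then vx else vy := by
  by_cases hp : p
  · rw [if_pos hp, if_pos (h.1 hp), hx]
  · rw [if_neg hp, if_neg (fun hq => hp (h.2 hq)), hy]

theorem ent_DD (Rs : List Ray) (us : List Col) (h : Fin Rs.length → Fin m)
    (hh : ∀ a, ((h a : Fin m) : ℕ) = (Rs.getD a ([], 0)).1.headD 0)
    (x y : (Fin Rs.length × Fin n) ⊕ (Fin Rs.length × Fin m)) :
    sv g (ent m n (Rs.getD (eW m n _ x).1 ([], 0)) (us.getD (eW m n _ y).1 (0, 0))
      (eW m n _ x) (eW m n _ y)) = DD A (SS Rs) h (JJ Rs) x y := by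
  unfold ent
  rcases x with ⟨a, c⟩ | ⟨a, i⟩ <;> rcases y with ⟨a', c'⟩ | ⟨a', i'⟩
  · show sv g (if (c : ℕ) < n then _ else _) = (1 : Matrix _ _ ℝ) (a, c) (a', c')
    rw [if_pos c.2]
    show sv g (if (c' : ℕ) < n then _ else _) = _
    rw [if_pos c'.2, Matrix.one_apply]
    refine sv_ite ?_ (sv_one A b hg) (sv_zero A b hg)
    simp only [eW, Prod.mk.injEq, Fin.ext_iff]
  · have e1 : ¬ (n + (i' : ℕ) < n) := by omega
    have e2 : n + (i' : ℕ) < n + m := by have := i'.2; omega
    have e3 : n + (i' : ℕ) - n = i' := by omega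
    show sv g (if (c : ℕ) < n then _ else _) = (AA A (SS Rs) (JJ Rs))ᵀ (a, c) (a', i')
    rw [if_pos c.2]
    show sv g (if n + (i' : ℕ) < n then _ else if n + (i' : ℕ) < n + m then _ else _) = _
    rw [if_neg e1, if_pos e2]
    refine sv_ite ?_ ?_ (sv_zero A b hg)
    · constructor
      · rintro ⟨h1, h2, h3⟩
        have h1' : a' = a := Fin.ext h1.symm
        subst h1'
        simp only [eW, e3] at h2
        exact ⟨rfl, h2, h3⟩
      · rintro ⟨h1, h2, h3⟩
        have h1' : a' = a := h1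
        subst h1'
        refine ⟨rfl, ?_, h3⟩
        simp only [eW, e3]
        exact h2
    · simp only [eW, e3]
      exact sv_ent A b hg i' c
  · have e1 : ¬ (n + (i : ℕ) < n) := by omega
    have e2 : n + (i : ℕ) < n + m := by have := i.2; omega
    have e3 : n + (i : ℕ) - n = i := by omega
    show sv g (if n + (i : ℕ) < n then _ else if n + (i : ℕ) < n + m then _ else _) =
      (-(AA A (SS Rs) (JJ Rs))) (a, i) (a', c')
    rw [if_neg e1, if_pos e2, Matrix.neg_apply]
    show sv g (if (c' : ℕ) < n then _ else _) = _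
    rw [if_pos c'.2]
    have e4 : -(AA A (SS Rs) (JJ Rs)) (a, i) (a', c') =
        if a = a' ∧ SS Rs a i ∧ (c' : ℕ) < JJ Rs a then - A i c' else 0 := by
      simp only [AA, Matrix.of_apply]
      split_ifs <;> simp
    rw [e4]
    refine sv_ite ?_ ?_ (sv_zero A b hg)
    · constructor
      · rintro ⟨h1, h2, h3⟩
        have h1' : a = a' := Fin.ext h1
        subst h1'
        simp only [eW, e3] at h2
        exact ⟨rfl, h2, h3⟩
      · rintro ⟨h1, h2, h3⟩
        have h1' : a = a' := h1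
        subst h1'
        refine ⟨rfl, ?_, h3⟩
        simp only [eW, e3]
        exact h2
    · simp only [eW, e3]
      exact sv_nent A b hg i c'
  · have e1 : ¬ (n + (i : ℕ) < n) := by omega
    have e2 : n + (i : ℕ) < n + m := by have := i.2; omega
    have e3 : n + (i : ℕ) - n = i := by omega
    have e1' : ¬ (n + (i' : ℕ) < n) := by omega
    have e2' : n + (i' : ℕ) < n + m := by have := i'.2; omega
    show sv g (if n + (i : ℕ) < n then _ else if n + (i : ℕ) < n + m then _ else _) =
      (EE (SS Rs) h) (a, i) (a', i')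
    rw [if_neg e1, if_pos e2]
    show sv g (if n + (i' : ℕ) < n then _ else if n + (i' : ℕ) < n + m then _ else _) = _
    rw [if_neg e1', if_pos e2']
    refine sv_ite ?_ (sv_one A b hg) (sv_zero A b hg)
    have e4 : (((a : ℕ), n + (i : ℕ)) = ((a' : ℕ), n + (i' : ℕ))) ↔ ((a, i) = (a', i')) := by
      simp only [Prod.mk.injEq]
      rw [Fin.ext_iff, Fin.ext_iff]
      omega
    have e5 : ((Rs.getD a ([], 0)).1.headD 0 = i) ↔ (h a = i) := by
      rw [← hh a, Fin.ext_iff]
    simp only [eW, e3]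
    rw [e4, e5]
    exact Iff.rfl

theorem ent_BB (Rs : List Ray) (us : List Col) (h : Fin Rs.length → Fin m)
    (hh : ∀ a, ((h a : Fin m) : ℕ) = (Rs.getD a ([], 0)).1.headD 0)
    (x y : ((Fin Rs.length × Fin n) ⊕ (Fin Rs.length × Fin m)) ⊕ Fin Rs.length) :
    sv g (ent m n (Rs.getD (eB m n _ x).1 ([], 0)) (us.getD (eB m n _ y).1 (0, 0))
      (eB m n _ x) (eB m n _ y)) = Matrix.fromBlocks (DD A (SS Rs) h (JJ Rs))
        (UU (n := n) fun a => cv A b (us.getD a (0, 0))) (RR h) 0 x y := by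
  have e1 : ¬ (n + m < n) := by omega
  rcases x with x | a <;> rcases y with y | a'
  · exact ent_DD hg Rs us h hh x y
  · unfold ent
    rcases x with ⟨a, c⟩ | ⟨a, i⟩
    · show sv g (if (c : ℕ) < n then _ else _) = 0
      rw [if_pos c.2]
      show sv g (if n + m < n then _ else if n + m < n + m then _ else _) = _
      rw [if_neg e1, if_neg (lt_irrefl _), sv_zero A b hg]
    · have e1' : ¬ (n + (i : ℕ) < n) := by omega
      have e2 : n + (i : ℕ) < n + m := by have := i.2; omega
      have e3 : n + (i : ℕ) - n = i := by omega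
      show sv g (if n + (i : ℕ) < n then _ else if n + (i : ℕ) < n + m then _ else _) =
        cv A b (us.getD a' (0, 0)) i
      rw [if_neg e1', if_pos e2]
      show sv g (if n + m < n then _ else if n + m < n + m then _ else _) = _
      rw [if_neg e1, if_neg (lt_irrefl _)]
      simp only [eB, eW, e3]
      exact sv_csrc A b hg _ i
  · unfold ent
    rcases y with ⟨a', c⟩ | ⟨a', i⟩
    · show sv g (if n + m < n then _ else if n + m < n + m then _ else _) = 0
      rw [if_neg e1, if_neg (lt_irrefl _)]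
      show sv g (if (c : ℕ) < n then _ else _) = 0
      rw [if_pos c.2, sv_zero A b hg]
    · have e1' : ¬ (n + (i : ℕ) < n) := by omega
      have e2 : n + (i : ℕ) < n + m := by have := i.2; omega
      have e3 : n + (i : ℕ) - n = i := by omega
      show sv g (if n + m < n then _ else if n + m < n + m then _ else _) =
        if a = a' ∧ h a = i then 1 else 0
      rw [if_neg e1, if_neg (lt_irrefl _)]
      show sv g (if n + (i : ℕ) < n then _ else if n + (i : ℕ) < n + m then _ else _) = _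
      rw [if_neg e1', if_pos e2]
      refine sv_ite ?_ (sv_one A b hg) (sv_zero A b hg)
      simp only [eB, eW, e3]
      rw [← hh a, Fin.ext_iff, Fin.ext_iff]
  · unfold ent
    show sv g (if n + m < n then _ else if n + m < n + m then _ else _) = 0
    rw [if_neg e1, if_neg (lt_irrefl _)]
    show sv g (if n + m < n then _ else if n + m < n + m then _ else _) = _
    rw [if_neg e1, if_neg (lt_irrefl _), sv_zero A b hg]

omit hg

/-- `v` is the combination with the support and the stage of `R`; the first coefficient is `1`. -/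
structure RayV (A : Matrix (Fin m) (Fin n) ℝ) (R : Ray) (v : Fin m → ℝ) : Prop where
  /-- elementary -/
  el : Elem A R.2 v
  /-- support -/
  sup : ∀ i : Fin m, v i ≠ 0 ↔ (i : ℕ) ∈ R.1
  /-- the first coefficient -/
  hd : ∃ h : R.1.headD 0 < m, v ⟨R.1.headD 0, h⟩ = 1

/-- the determinant of the scalar products -/
noncomputable def XD (vs us : List (Fin m → ℝ)) : ℝ :=
  (Matrix.of fun a b : Fin vs.length => dot (us.getD b 0) (vs.getD a 0)).det

theorem sgk_spec (K : Key) (q : ℕ) (x : ℝ) :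
    sgk K q * sz ((-1) ^ (K.length - 1) * ((-1) ^ q * x)) = sz x := by
  rw [← mul_assoc, ← pow_add, sz_mul]
  unfold sgk
  split_ifs with h
  · have : Even (K.length - 1 + q) := Nat.even_iff.2 h
    rw [this.neg_one_pow, sz_pos one_pos, one_mul, one_mul]
  · have : Odd (K.length - 1 + q) := Nat.odd_iff.2 (by omega)
    rw [this.neg_one_pow, sz_neg (by norm_num)]
    ring

theorem getD_forall {Rs : List Ray} {vs : List (Fin m → ℝ)} (h : List.Forall₂ (RayV A) Rs vs)
    {a : ℕ} (ha : a < Rs.length) : RayV A (Rs.getD a ([], 0)) (vs.getD a 0) := by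
  have hl := h.length_eq
  rw [List.getD_eq_getElem _ _ ha, List.getD_eq_getElem _ _ (by omega)]
  exact h.get ha (by omega)

theorem NS_of_elem (Rs : List Ray) (h : Fin Rs.length → Fin m) {v : Fin Rs.length → Fin m → ℝ}
    (a : Fin Rs.length) (he : Elem A (JJ Rs a) (v a))
    (hs : ∀ i : Fin m, v a i ≠ 0 ↔ SS Rs a i) (h1 : v a (h a) = 1) :
    NS A (SS Rs) h (JJ Rs) a := by
  intro y hy hyh hK
  obtain ⟨t, rfl⟩ := he.2.2.2 y hK fun i hi => hy i fun hsi => (hs i).2 hsi hi
  have : t = 0 := by simpa [h1] using hyh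
  rw [this, zero_smul]

include hg in
/-- Meaning of the queries. -/
theorem qs_eq {Rs : List Ray} {vs : List (Fin m → ℝ)} (h : List.Forall₂ (RayV A) Rs vs)
    {us : List Col} (hu : us.length = Rs.length) (h0 : 1 ≤ Rs.length) :
    qs (sO g) m n Rs us = sz (XD vs (us.map (cv A b))) := by
  have hl := h.length_eq
  have hR : ∀ a : Fin Rs.length, RayV A (Rs.getD a ([], 0)) (vs.getD a 0) := fun a =>
    getD_forall h a.2
  choose hd hv using fun a => (hR a).hd
  let hh : Fin Rs.length → Fin m := fun a => ⟨_, hd a⟩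
  have hNS : ∀ a, NS A (SS Rs) hh (JJ Rs) a := fun a =>
    NS_of_elem (v := fun a => vs.getD a 0) Rs hh a (hR a).el (hR a).sup (hv a)
  have hdet := det_mkey g m n Rs us (n + m + 1) (eB m n Rs.length) (eB_inj _ _ _)
    (eB_mem m n Rs.length)
  have e1 : (Matrix.of fun x y => sv g (ent m n (Rs.getD (eB m n _ x).1 ([], 0))
      (us.getD (eB m n _ y).1 (0, 0)) (eB m n _ x) (eB m n _ y))) =
      Matrix.fromBlocks (DD A (SS Rs) hh (JJ Rs))
        (UU (n := n) fun a => cv A b (us.getD a (0, 0))) (RR hh) 0 := by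
    ext x y
    exact ent_BB hg Rs us hh (fun a => rfl) x y
  rw [e1, det_border (v := fun a => vs.getD a 0) _ hNS
    (fun a i hi => by
      by_contra hne
      exact hi (((hR a).sup i).1 hne))
    (fun a => hv a) (fun a => (hR a).el.2.2.1)] at hdet
  have hX : (Matrix.of fun a b_1 : Fin Rs.length =>
      dot (cv A b (us.getD b_1 (0, 0))) (vs.getD a 0)).det = XD vs (us.map (cv A b)) := by
    unfold XD
    refine Pool.Agent.H37.CH.det_cast hl _ _ fun i j _ hj _ _ => ?_
    simp only [Matrix.of_apply]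
    have hj' : j < us.length := by omega
    have e3 : (us.map (cv A b)).getD j 0 = cv A b (us.getD j (0, 0)) := by
      rw [List.getD_eq_getElem _ _ hj', List.getD_eq_getElem _ _ (by simpa using hj'),
        List.getElem_map]
    rw [e3]
  unfold qs
  have hlen : (kq m n Rs us).length = Rs.length * (n + m + 1) := by
    unfold kq mkey
    rw [List.length_map, length_posn]
  have hlen1 : (kq m n Rs us).length ≠ 0 := by
    rw [hlen]
    exact (Nat.mul_pos h0 (Nat.succ_pos _)).ne'
  have e2 : sO g (kq m n Rs us) =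
      sz ((-1) ^ ((kq m n Rs us).length - 1) * ((-1) ^ Rs.length * XD vs (us.map (cv A b)))) := by
    unfold sO
    rw [osg_sz]
    unfold dv
    rw [if_neg hlen1]
    have : (MK g (kq m n Rs us)).det = _ := hdet
    rw [this, hX]
    have hp := DD_pos A (SS Rs) hh (JJ Rs) hNS
    rw [mul_left_comm, sz_mul, sz_pos hp, one_mul]
  rw [e2, sgk_spec]

include hg in
/-- Meaning of the nondegeneracy query. -/
theorem kn_eq {R : Ray} (hR : R.1.headD 0 < m) :
    sO g (kn m n R) ≠ 0 ↔ ∀ y : Fin m → ℝ, (∀ i : Fin m, (i : ℕ) ∉ R.1 → y i = 0) →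
      y ⟨R.1.headD 0, hR⟩ = 0 → Ker A R.2 y → y = 0 := by
  let hh : Fin [R].length → Fin m := fun _ => ⟨R.1.headD 0, hR⟩
  have h1 : ∀ a : Fin [R].length, [R].getD a ([], 0) = R := by
    intro a
    have : (a : ℕ) = 0 := by
      have := a.2
      have hl : [R].length = 1 := rfl
      omega
    rw [this]
    rfl
  have hdet := det_mkey g m n [R] [] (n + m) (eW m n [R].length) (eW_inj _ _ _)
    (eW_mem m n [R].length)
  have e1 : (Matrix.of fun x y => sv g (ent m n ([R].getD (eW m n _ x).1 ([], 0))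
      (([] : List Col).getD (eW m n _ y).1 (0, 0)) (eW m n _ x) (eW m n _ y))) =
      DD A (SS [R]) hh (JJ [R]) := by
    ext x y
    exact ent_DD hg [R] [] hh (fun a => by rw [h1]) x y
  rw [e1] at hdet
  have hlen : (kn m n R).length ≠ 0 := by
    unfold kn mkey
    rw [List.length_map, length_posn]
    simp only [List.length_singleton, one_mul]
    omega
  have e2 : sO g (kn m n R) ≠ 0 ↔ (DD A (SS [R]) hh (JJ [R])).det ≠ 0 := by
    unfold sO
    rw [osg_sz, Ne, Pool.Agent.H37.CH.sz_eq_zero]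
    unfold dv
    rw [if_neg hlen]
    have : (MK g (kn m n R)).det = _ := hdet
    rw [this, mul_eq_zero, not_or]
    exact ⟨fun h => h.2, fun h => ⟨pow_ne_zero _ (by norm_num), h⟩⟩
  rw [e2]
  have e3 : ∀ a, NS A (SS [R]) hh (JJ [R]) a ↔
      ∀ y : Fin m → ℝ, (∀ i : Fin m, (i : ℕ) ∉ R.1 → y i = 0) →
      y ⟨R.1.headD 0, hR⟩ = 0 → Ker A R.2 y → y = 0 := by
    intro a
    unfold NS SS JJ
    rw [h1]
  constructor
  · intro h
    exact (e3 ⟨0, by simp⟩).1 (NS_of_det _ _ _ _ _ h)
  · intro h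
    exact (DD_pos _ _ _ _ fun a => (e3 a).2 h).ne'

end

end Pool.Agent.H54.FD
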