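import Pool.Agent.H54.FD.Inv

/-! Systems of order two on a forest have few directions. -/

set_option autoImplicit false

namespace Pool.Agent.H54.FD

open Finset Matrix

variable {m n : ℕ}

/-- Systems of order two along a forest: `p` is the parent of an unknown (`p j = j` for a root).
The inequality number `i` is attached to an unknown `j`, and either it involves only the unknowns
`j` and `p j`, or its left-hand side is a multiple of the linear form `ℓ j`, which involves only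
the unknowns `j`, `p j` and `p (p j)`. -/
def SecondOrder (m n : ℕ) (A : Matrix (Fin m) (Fin n) ℝ) : Prop :=
  ∃ (p : Fin n → Fin n) (ℓ : Fin n → Fin n → ℝ), (∀ j, j ≤ p j) ∧
    (∀ j c, c ≠ j → c ≠ p j → c ≠ p (p j) → ℓ j c = 0) ∧
    ∀ i, ∃ j, (∀ c, c ≠ j → c ≠ p j → A i c = 0) ∨ ∃ t : ℝ, ∀ c, A i c = t * ℓ j c

section

variable (p : Fin n → Fin n) (ℓ : Fin n → Fin n → ℝ)

/-- the directions which occur after `s` eliminations -/
def Q2 (s : ℕ) (v : Fin n → ℝ) : Prop := (∀ c : Fin n, (c : ℕ) < s → v c = 0) ∧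
  (v = 0 ∨ ∃ j : Fin n, s ≤ (j : ℕ) ∧ ((∀ c, c ≠ j → c ≠ p j → v c = 0) ∨
    ∃ t : ℝ, ∀ c, v c = t * ℓ j c))

/-- elimination of the unknown `s` -/
noncomputable def el (s : Fin n) (v : Fin n → ℝ) : Fin n → ℝ :=
  if v s = 0 then v else fun c => |ℓ s s| * v c - SignType.sign (ℓ s s) * v s * ℓ s c

variable {p ℓ} (hp : ∀ j, j ≤ p j)
  (hℓ : ∀ j c, c ≠ j → c ≠ p j → c ≠ p (p j) → ℓ j c = 0)

include hp

/-- vectors which involve only `s`, `p s`, `p (p s)` but not `s` -/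
theorem q2_of {s : Fin n} {v : Fin n → ℝ} (h0 : ∀ c : Fin n, (c : ℕ) < s → v c = 0)
    (hs : v s = 0) (h : ∀ c, c ≠ s → c ≠ p s → c ≠ p (p s) → v c = 0) :
    Q2 p ℓ ((s : ℕ) + 1) v := by
  refine ⟨fun c hc => ?_, ?_⟩
  · rcases lt_or_eq_of_le (Nat.lt_succ_iff.1 hc) with h1 | h1
    · exact h0 c h1
    · rw [show c = s from Fin.ext h1, hs]
  · by_cases h1 : p s = s
    · left
      funext c
      by_cases h2 : c = s
      · rw [h2, hs]; rfl
      · exact h c h2 (by rw [h1]; exact h2) (by rw [h1, h1]; exact h2)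
    · right
      refine ⟨p s, ?_, Or.inl fun c hc1 hc2 => ?_⟩
      · exact lt_of_le_of_ne (hp s) (Ne.symm h1)
      · by_cases h2 : c = s
        · rw [h2, hs]
        · exact h c h2 hc1 hc2

include hℓ

theorem q2_keep {s : Fin n} {v : Fin n → ℝ} (h : Q2 p ℓ s v) (hs : v s = 0) :
    Q2 p ℓ ((s : ℕ) + 1) v := by
  obtain ⟨h0, h | ⟨j, hj, h⟩⟩ := h
  · refine q2_of hp h0 hs fun c _ _ _ => by rw [h]; rfl
  · rcases lt_or_eq_of_le hj with h1 | h1
    · refine ⟨fun c hc => ?_, Or.inr ⟨j, h1, h⟩⟩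
      rcases lt_or_eq_of_le (Nat.lt_succ_iff.1 hc) with h2 | h2
      · exact h0 c h2
      · rw [show c = s from Fin.ext h2, hs]
    · have h2 : s = j := Fin.ext h1
      subst h2
      refine q2_of hp h0 hs fun c c1 c2 c3 => ?_
      rcases h with h | ⟨t, h⟩
      · exact h c c1 c2
      · rw [h c, hℓ _ c c1 c2 c3, mul_zero]

/-- the possible vectors with a nonzero entry at `s` -/
theorem q2_ne {s : Fin n} {v : Fin n → ℝ} (h : Q2 p ℓ s v) (hs : v s ≠ 0) :
    (∀ c, c ≠ s → c ≠ p s → v c = 0) ∨ ∃ t : ℝ, ∀ c, v c = t * ℓ s c := by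
  obtain ⟨h0, h | ⟨j, hj, h⟩⟩ := h
  · exact absurd (by rw [h]; rfl) hs
  · have hjs : j = s := by
      by_contra hne
      have h1 : s < j := lt_of_le_of_ne hj (Ne.symm hne)
      rcases h with h | ⟨t, h⟩
      · exact hs (h s (ne_of_lt h1) (ne_of_lt (h1.trans_le (hp j))))
      · refine hs ?_
        rw [h s, hℓ j s (ne_of_lt h1) (ne_of_lt (h1.trans_le (hp j)))
          (ne_of_lt ((h1.trans_le (hp j)).trans_le (hp (p j)))), mul_zero]
    rw [hjs] at h
    exact h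

theorem q2_el {s : Fin n} {v : Fin n → ℝ} (h : Q2 p ℓ s v) :
    Q2 p ℓ ((s : ℕ) + 1) (el ℓ s v) := by
  unfold el
  split_ifs with hs
  · exact q2_keep hp hℓ h hs
  · have h1 : ∀ c, c ≠ s → c ≠ p s → c ≠ p (p s) → v c = 0 := fun c c1 c2 c3 => by
      rcases q2_ne hp hℓ h hs with h1 | ⟨t, h1⟩
      · exact h1 c c1 c2
      · rw [h1 c, hℓ _ c c1 c2 c3, mul_zero]
    refine q2_of hp (fun c hc => ?_) ?_ fun c c1 c2 c3 => ?_
    · have e1 : ℓ s c = 0 := by
        have e2 : c < s := hc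
        refine hℓ s c (ne_of_lt e2) (ne_of_lt (e2.trans_le (hp s)))
          (ne_of_lt ((e2.trans_le (hp s)).trans_le (hp (p s))))
      simp only [h.1 c hc, e1, mul_zero, sub_zero]
    · show |ℓ s s| * v s - SignType.sign (ℓ s s) * v s * ℓ s s = 0
      have := sign_mul_self (ℓ s s)
      linear_combination (- v s) * this
    · show |ℓ s s| * v c - SignType.sign (ℓ s s) * v s * ℓ s c = 0
      rw [h1 c c1 c2 c3, hℓ s c c1 c2 c3]
      ring

/-- a unit vector at the parent -/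
noncomputable def pe (p : Fin n → Fin n) (s : Fin n) (σ : ℝ) : Fin n → ℝ :=
  if p s = s then 0 else Pi.single (p s) σ

theorem q2_pe (s : Fin n) (σ : ℝ) : Q2 p ℓ ((s : ℕ) + 1) (pe p s σ) := by
  unfold pe
  split_ifs with h
  · exact ⟨fun _ _ => rfl, Or.inl rfl⟩
  · refine q2_of hp (fun c hc => ?_) ?_ fun c c1 c2 c3 => ?_
    · have h1 : c ≠ p s := ne_of_lt (lt_of_lt_of_le (show c < s from hc) (hp s))
      simp [Pi.single_eq_of_ne h1]
    · simp [Pi.single_eq_of_ne (Ne.symm h)]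
    · simp [Pi.single_eq_of_ne c2]

omit hp hℓ in
/-- combination with a multiple of `ℓ s` -/
theorem comb_long {s : Fin n} {u y : Fin n → ℝ} (hus : u s ≠ 0) (hls : ℓ s s ≠ 0) {a e : ℝ}
    (hy : ∀ c, y c = a * u c + e * ℓ s c) (hys : y s = 0) (c : Fin n) :
    y c = (a / |ℓ s s|) * el ℓ s u c := by
  unfold el
  rw [if_neg hus, hy c]
  have h1 : a * u s + e * ℓ s s = 0 := by rw [← hy s, hys]
  have h2 : (SignType.sign (ℓ s s) : ℝ) * |ℓ s s| = ℓ s s := sign_mul_abs _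
  have h3 : |ℓ s s| ≠ 0 := abs_ne_zero.2 hls
  have h4 : |ℓ s s| * |ℓ s s| = ℓ s s * ℓ s s := abs_mul_abs_self _
  have h5 : (SignType.sign (ℓ s s) : ℝ) * ℓ s s = |ℓ s s| := by
    rw [mul_comm]; exact self_mul_sign _
  have h6 : e = - (a * u s) / ℓ s s := by
    field_simp
    linarith
  have h7 : (SignType.sign (ℓ s s) : ℝ) / |ℓ s s| = 1 / ℓ s s := by
    rw [div_eq_div_iff h3 hls, h5, one_mul]
  show a * u c + e * ℓ s c = a / |ℓ s s| * (|ℓ s s| * u c - SignType.sign (ℓ s s) * u s * ℓ s c)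
  calc a * u c + e * ℓ s c = a * u c - a * u s * (1 / ℓ s s) * ℓ s c := by rw [h6]; ring
    _ = a * u c - a * u s * ((SignType.sign (ℓ s s) : ℝ) / |ℓ s s|) * ℓ s c := by rw [h7]
    _ = _ := by field_simp

/-- combination of two directions -/
theorem q2_comb {s : Fin n} {u v y : Fin n → ℝ} (hu : Q2 p ℓ s u) (hv : Q2 p ℓ s v)
    (hus : u s ≠ 0) (hvs : v s ≠ 0) {a b : ℝ} (ha : 0 ≤ a) (hb : 0 ≤ b)
    (hy : ∀ c, y c = a * u c + b * v c) (hys : y s = 0) :
    ∃ z, (z = el ℓ s u ∨ z = el ℓ s v ∨ z = pe p s 1 ∨ z = pe p s (-1)) ∧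
      ∃ t : ℝ, 0 ≤ t ∧ ∀ c, y c = t * z c := by
  rcases q2_ne hp hℓ hv hvs with h2 | ⟨t, h2⟩
  · rcases q2_ne hp hℓ hu hus with h1 | ⟨t, h1⟩
    · have h3 : ∀ c, c ≠ p s → y c = 0 := fun c hc => by
        by_cases h : c = s
        · rw [h, hys]
        · rw [hy c, h1 c h hc, h2 c h hc]
          ring
      by_cases hps : p s = s
      · refine ⟨pe p s 1, Or.inr (Or.inr (Or.inl rfl)), 0, le_rfl, fun c => ?_⟩
        rw [zero_mul]
        by_cases hc : c = p s
        · rw [hc, hps, hys]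
        · exact h3 c hc
      · rcases le_total 0 (y (p s)) with h4 | h4
        · refine ⟨pe p s 1, Or.inr (Or.inr (Or.inl rfl)), y (p s), h4, fun c => ?_⟩
          unfold pe
          rw [if_neg hps]
          by_cases hc : c = p s
          · rw [hc, Pi.single_eq_same, mul_one]
          · rw [Pi.single_eq_of_ne hc, mul_zero, h3 c hc]
        · refine ⟨pe p s (-1), Or.inr (Or.inr (Or.inr rfl)), - y (p s), by linarith,
            fun c => ?_⟩
          unfold pe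
          rw [if_neg hps]
          by_cases hc : c = p s
          · rw [hc, Pi.single_eq_same]; ring
          · rw [Pi.single_eq_of_ne hc, mul_zero, h3 c hc]
    · have hl : ℓ s s ≠ 0 := fun h => hus (by rw [h1 s, h, mul_zero])
      refine ⟨el ℓ s v, Or.inr (Or.inl rfl), b / |ℓ s s|, div_nonneg hb (abs_nonneg _),
        comb_long hvs hl (a := b) (e := a * t) (fun c => ?_) hys⟩
      rw [hy c, h1 c]
      ring
  · have hl : ℓ s s ≠ 0 := fun h => hvs (by rw [h2 s, h, mul_zero])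
    refine ⟨el ℓ s u, Or.inl rfl, a / |ℓ s s|, div_nonneg ha (abs_nonneg _),
      comb_long hus hl (a := a) (e := b * t) (fun c => ?_) hys⟩
    rw [hy c, h2 c]
    ring

omit hp hℓ in
/-- elementary combinations without elimination are multiples of rows -/
theorem elem_zero {A : Matrix (Fin m) (Fin n) ℝ} {w : Fin m → ℝ} (h : Elem A 0 w) :
    ∃ i, ∃ t : ℝ, 0 ≤ t ∧ ∀ c, dir A w c = t * A i c := by
  obtain ⟨h1, h2, -, h4⟩ := h
  obtain ⟨i, hi⟩ : ∃ i, w i ≠ 0 := by
    by_contra hc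
    push Not at hc
    exact h2 (funext hc)
  obtain ⟨t, ht⟩ := h4 (Pi.single i 1) (fun c hc => absurd hc (Nat.not_lt_zero _)) fun i' h' => by
    by_cases h5 : i' = i
    · exact absurd (h5 ▸ h') hi
    · exact Pi.single_eq_of_ne h5 1
  refine ⟨i, w i, h1 i, fun c => ?_⟩
  have ht1 : t * w i = 1 := by
    have := congrFun ht i
    rw [Pi.single_eq_same] at this
    simpa using this.symm
  have ht0 : t ≠ 0 := fun h => by rw [h, zero_mul] at ht1; exact zero_ne_one ht1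
  unfold dir
  rw [Finset.sum_eq_single i]
  · intro i' _ h5
    have := congrFun ht i'
    rw [Pi.single_eq_of_ne h5] at this
    have h6 : t * w i' = 0 := by simpa using this.symm
    rw [(mul_eq_zero.1 h6).resolve_left ht0, zero_mul]
  · intro h5
    exact absurd (mem_univ i) h5

/-- the list of directions -/
theorem few_list {A : Matrix (Fin m) (Fin n) ℝ}
    (hA : ∀ i, ∃ j, (∀ c, c ≠ j → c ≠ p j → A i c = 0) ∨ ∃ t : ℝ, ∀ c, A i c = t * ℓ j c)
    (s : ℕ) (hs : s ≤ n) : ∃ V : List (Fin n → ℝ), V.length ≤ m + 2 * s ∧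
      (∀ v ∈ V, Q2 p ℓ s v) ∧ ∀ w, Elem A s w → ∃ v ∈ V, ∃ t : ℝ, 0 ≤ t ∧
        ∀ c, dir A w c = t * v c := by
  induction s with
  | zero =>
    refine ⟨List.ofFn fun i => A i, by simp, fun v hv => ?_, fun w hw => ?_⟩
    · obtain ⟨i, rfl⟩ := (List.mem_ofFn' _ _).1 hv
      obtain ⟨j, hj⟩ := hA i
      exact ⟨fun c hc => absurd hc (Nat.not_lt_zero _), Or.inr ⟨j, Nat.zero_le _, hj⟩⟩
    · obtain ⟨i, t, h1, h2⟩ := elem_zero hw
      exact ⟨A i, (List.mem_ofFn' _ _).2 ⟨i, rfl⟩, t, h1, h2⟩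
  | succ s ih =>
    obtain ⟨V, h1, h2, h3⟩ := ih (by omega)
    have hsn : s < n := hs
    refine ⟨V.map (el ℓ ⟨s, hsn⟩) ++ [pe p ⟨s, hsn⟩ 1, pe p ⟨s, hsn⟩ (-1)], ?_, ?_, ?_⟩
    · simp only [List.length_append, List.length_map, List.length_cons, List.length_nil]
      omega
    · intro v hv
      rcases List.mem_append.1 hv with hv | hv
      · obtain ⟨u, hu, rfl⟩ := List.mem_map.1 hv
        exact q2_el hp hℓ (s := ⟨s, hsn⟩) (h2 u hu)
      · simp only [List.mem_cons, List.not_mem_nil, or_false] at hv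
        rcases hv with rfl | rfl
        · exact q2_pe hp hℓ ⟨s, hsn⟩ 1
        · exact q2_pe hp hℓ ⟨s, hsn⟩ (-1)
    · intro w hw
      rcases elem_succ (c := (⟨s, hsn⟩ : Fin n)) rfl hw with h | ⟨v₁, v₂, e1, e2, rfl, e3, e4⟩
      · obtain ⟨v, hv, t, ht, h4⟩ := h3 w h
        by_cases hv0 : v ⟨s, hsn⟩ = 0
        · refine ⟨el ℓ ⟨s, hsn⟩ v, List.mem_append_left _ (List.mem_map.2 ⟨v, hv, rfl⟩), t, ht, ?_⟩
          unfold el
          rw [if_pos hv0]
          exact h4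
        · have h5 : dir A w ⟨s, hsn⟩ = 0 := hw.2.2.1 ⟨s, hsn⟩ (Nat.lt_succ_self s)
          rw [h4] at h5
          have h6 : t = 0 := (mul_eq_zero.1 h5).resolve_right hv0
          refine ⟨pe p ⟨s, hsn⟩ 1, List.mem_append_right _ (by simp), 0, le_rfl, fun c => ?_⟩
          rw [h4 c, h6, zero_mul, zero_mul]
      · obtain ⟨u₁, f1, t₁, g1, k1⟩ := h3 v₁ e1
        obtain ⟨u₂, f2, t₂, g2, k2⟩ := h3 v₂ e2
        have hw0 : dir A (v₁ + v₂) ⟨s, hsn⟩ = 0 := hw.2.2.1 ⟨s, hsn⟩ (Nat.lt_succ_self s)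
        have n1 : u₁ ⟨s, hsn⟩ ≠ 0 := fun h => by
          rw [k1, h, mul_zero] at e3
          exact lt_irrefl _ e3
        have n2 : u₂ ⟨s, hsn⟩ ≠ 0 := fun h => by
          rw [k2, h, mul_zero] at e4
          exact lt_irrefl _ e4
        obtain ⟨z, hz, t, ht, hzt⟩ := q2_comb hp hℓ (s := (⟨s, hsn⟩ : Fin n))
          (y := fun c => dir A (v₁ + v₂) c) (h2 _ f1) (h2 _ f2) n1 n2 g1 g2
          (fun c => by rw [dir_add, k1, k2]) hw0
        refine ⟨z, ?_, t, ht, hzt⟩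
        rcases hz with rfl | rfl | rfl | rfl
        · exact List.mem_append_left _ (List.mem_map.2 ⟨_, f1, rfl⟩)
        · exact List.mem_append_left _ (List.mem_map.2 ⟨_, f2, rfl⟩)
        · exact List.mem_append_right _ (by simp)
        · exact List.mem_append_right _ (by simp)

end

/-- Systems of order two have few directions. -/
theorem few_second {A : Matrix (Fin m) (Fin n) ℝ} (h : SecondOrder m n A) (j : ℕ) (hj : j < n) :
    Few A j ((m + n) ^ 2) := by
  obtain ⟨p, ℓ, hp, hℓ, hA⟩ := h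
  obtain ⟨V, h1, -, h3⟩ := few_list hp hℓ hA j hj.le
  refine ⟨V, h1.trans ?_, h3⟩
  nlinarith [Nat.zero_le (m * n), Nat.zero_le (m * m)]

end Pool.Agent.H54.FD
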