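import Pool.Agent.H54.FD.Final
import Pool.Agent.H54.FD.Ctrl
import Pool.Agent.H54.FD.Second

/-! Summary. -/

set_option autoImplicit false

namespace Pool.Agent.H54.FD

open Finset Matrix Pool.Agent.H622R3.SM Pool.Agent.R533.GU

variable {m n : ℕ}

/-- minimal support -/
theorem elem_of_min {A : Matrix (Fin m) (Fin n) ℝ} {j : ℕ} {w : Fin m → ℝ} (h1 : ∀ i, 0 ≤ w i)
    (h2 : w ≠ 0) (h3 : Ker A j w)
    (h4 : ∀ v : Fin m → ℝ, (∀ i, 0 ≤ v i) → v ≠ 0 → Ker A j v → (∀ i, w i = 0 → v i = 0) →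
      ∀ i, v i = 0 → w i = 0) : Elem A j w := by
  refine ⟨h1, h2, h3, fun d hd hs => ?_⟩
  obtain ⟨i, hi⟩ : ∃ i, w i ≠ 0 := by
    by_contra hc
    push Not at hc
    exact h2 (funext hc)
  obtain ⟨i0, hi0, hmax⟩ := Finset.exists_max_image (univ.filter fun i => w i ≠ 0)
    (fun i => d i / w i) ⟨i, by simp [hi]⟩
  have hw0 : w i0 ≠ 0 := by simpa using hi0
  refine ⟨d i0 / w i0, ?_⟩
  set t := d i0 / w i0 with ht
  have hv : ∀ i, 0 ≤ (t • w - d) i := fun i => by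
    rw [Pi.sub_apply, Pi.smul_apply, smul_eq_mul]
    by_cases h : w i = 0
    · rw [h, hs i h]; simp
    · have h5 : 0 < w i := lt_of_le_of_ne (h1 i) (Ne.symm h)
      have h6 := hmax i (by simp [h])
      have h7 : d i = d i / w i * w i := by field_simp
      rw [h7]
      have := mul_le_mul_of_nonneg_right h6 h5.le
      linarith
  have hk : Ker A j (t • w - d) := fun c hc => by
    rw [dir_sub, dir_smul, h3 c hc, hd c hc]; simp
  have hs' : ∀ i, w i = 0 → (t • w - d) i = 0 := fun i h => by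
    rw [Pi.sub_apply, Pi.smul_apply, h, hs i h]; simp
  by_contra hne
  have hv0 : t • w - d ≠ 0 := fun h => hne (sub_eq_zero.1 h).symm
  have h5 := h4 _ hv hv0 hk hs' i0 (by
    rw [Pi.sub_apply, Pi.smul_apply, smul_eq_mul, ht, div_mul_cancel₀ _ hw0, sub_self])
  exact hw0 h5

theorem min_of_elem {A : Matrix (Fin m) (Fin n) ℝ} {j : ℕ} {w : Fin m → ℝ} (h : Elem A j w)
    (v : Fin m → ℝ) (hv : v ≠ 0) (hk : Ker A j v) (hs : ∀ i, w i = 0 → v i = 0)
    (i : Fin m) (hi : v i = 0) : w i = 0 := by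
  obtain ⟨t, rfl⟩ := h.2.2.2 v hk hs
  have ht : t ≠ 0 := fun h0 => hv (by rw [h0, zero_smul])
  exact (mul_eq_zero.1 hi).resolve_left ht

/-- Strongly polynomial algorithms for classes with few directions. -/
theorem main (κ : ℕ) (C : ∀ m n : ℕ, Matrix (Fin m) (Fin n) ℝ → (Fin m → ℝ) → Prop)
    (hC : ∀ m n A b, C m n A b → FewDir κ m n A) :
    PolyControl (alg κ) ∧ OracleFree (alg κ) ∧ DecidesOn ∅ C (alg κ) := by
  refine ⟨ctrl κ, oracleFree κ, ?_⟩
  obtain ⟨p, hp⟩ := decides κ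
  exact ⟨p, fun m n hm hn A b h => hp m n hm hn A b (hC m n A b h)⟩

/-- Tridiagonal systems are of order two. -/
theorem second_tridiagonal {T : Matrix (Fin n) (Fin n) ℝ}
    (hT : ∀ u c : Fin n, (u : ℕ) + 1 < c ∨ (c : ℕ) + 1 < u → T u c = 0)
    {A : Matrix (Fin m) (Fin n) ℝ}
    (hA : ∀ i, (∃ (u : Fin n) (t : ℝ), ∀ c, A i c = t * T u c) ∨
      ∃ u : Fin n, ∀ c : Fin n, (c : ℕ) ≠ u → (c : ℕ) ≠ u + 1 → A i c = 0) :
    SecondOrder m n A := by
  classical
  have hp : ∀ j : Fin n, ∃ j' : Fin n, (j : ℕ) ≤ j' ∧ ((j : ℕ) + 1 < n → (j' : ℕ) = j + 1) :=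
    fun j => by
      by_cases h : (j : ℕ) + 1 < n
      · exact ⟨⟨(j : ℕ) + 1, h⟩, Nat.le_succ _, fun _ => rfl⟩
      · exact ⟨j, le_rfl, fun h' => absurd h' h⟩
  choose p hp1 hp2 using hp
  refine ⟨p, fun j c => if (j : ℕ) + 1 < n then T (p j) c else 0, hp1, fun j c c1 c2 c3 => ?_,
    fun i => ?_⟩
  · simp only
    split_ifs with h
    · have e1 := hp2 j h
      refine hT _ _ ?_
      have n1 : (c : ℕ) ≠ j := fun h => c1 (Fin.ext h)
      have n2 : (c : ℕ) ≠ p j := fun h => c2 (Fin.ext h)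
      have n3 : (c : ℕ) ≠ p (p j) := fun h => c3 (Fin.ext h)
      by_cases h2 : (p j : ℕ) + 1 < n
      · have e2 := hp2 (p j) h2
        omega
      · have := c.2
        omega
    · rfl
  · rcases hA i with ⟨u, t, h⟩ | ⟨u, h⟩
    · by_cases hu : (u : ℕ) = 0
      · refine ⟨u, Or.inl fun c c1 c2 => ?_⟩
        rw [h c, hT u c, mul_zero]
        left
        have n1 : (c : ℕ) ≠ u := fun h => c1 (Fin.ext h)
        have n2 : (c : ℕ) ≠ p u := fun h => c2 (Fin.ext h)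
        have := c.2
        by_cases h2 : (u : ℕ) + 1 < n
        · have e2 := hp2 u h2
          omega
        · omega
      · have hlt : (u : ℕ) - 1 < n := by omega
        refine ⟨⟨(u : ℕ) - 1, hlt⟩, Or.inr ⟨t, fun c => ?_⟩⟩
        have h3 : ((⟨(u : ℕ) - 1, hlt⟩ : Fin n) : ℕ) + 1 < n := by
          show (u : ℕ) - 1 + 1 < n
          omega
        have e : p ⟨(u : ℕ) - 1, hlt⟩ = u := Fin.ext (by
          rw [hp2 _ h3]
          show (u : ℕ) - 1 + 1 = u
          omega)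
        show A i c = t * (if ((⟨(u : ℕ) - 1, hlt⟩ : Fin n) : ℕ) + 1 < n then
          T (p ⟨(u : ℕ) - 1, hlt⟩) c else 0)
        rw [if_pos h3, e]
        exact h c
    · refine ⟨u, Or.inl fun c c1 c2 => h c (fun h => c1 (Fin.ext h)) fun h => ?_⟩
      have := c.2
      exact c2 (Fin.ext (by rw [hp2 u (by omega), h]))

end Pool.Agent.H54.FD
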