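import Pool.Agent.H54.FD.Tab
import Pool.Agent.H37.CH.Ctrl

/-! The computation is controlled in polynomial time. -/

set_option autoImplicit false

namespace Pool.Agent.H54.FD

open Pool.Agent.NPC Pool.Agent.H558R2 Pool.Agent.H622R3.SM Pool.Agent.W920.FC
open Pool.Agent.H37.CH (Src Key askT orc pcomp porcs paskT)

variable {α : Type} [TEnc α]

attribute [local fun_prop] NPC.Poly.range_length NPC.Poly.imul NPC.Poly.ile NPC.Poly.ilt
  NPC.Poly.ineg NPC.Poly.take_length Pool.Agent.Y648.CS.TQQ.pheadD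

theorem pcsrc {u : α → Col} {i : α → ℕ} (hu : Poly u) (hi : Poly i) :
    Poly (fun a => csrc (u a) (i a)) := by
  unfold csrc
  fun_prop

section ent

variable {m n : α → ℕ} {R : α → Ray} {u : α → Col} {d d' : α → ℕ × ℕ}

theorem pent1 (hn : Poly n) (hR : Poly R) (hd : Poly d) (hd' : Poly d') :
    Poly (fun a => (if (d a).1 = (d' a).1 ∧ (d' a).2 - n a ∈ (R a).1 ∧ (d a).2 < (R a).2 then
      ((false, [0, (d' a).2 - n a, (d a).2]) : Src) else (false, [3]))) := by
  fun_prop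

theorem pent2 (hn : Poly n) (hR : Poly R) (hd : Poly d) (hd' : Poly d') :
    Poly (fun a => (if (d a).1 = (d' a).1 ∧ (d a).2 - n a ∈ (R a).1 ∧ (d' a).2 < (R a).2 then
      ((true, [0, (d a).2 - n a, (d' a).2]) : Src) else (false, [3]))) := by
  fun_prop

theorem pent3 (hn : Poly n) (hR : Poly R) (hd : Poly d) (hd' : Poly d') :
    Poly (fun a => (if d a = d' a ∧ (¬ ((d a).2 - n a ∈ (R a).1) ∨
      (R a).1.headD 0 = (d a).2 - n a) then ((false, [2]) : Src) else (false, [3]))) := by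
  fun_prop

theorem pent4 (hn : Poly n) (hR : Poly R) (hd : Poly d) (hd' : Poly d') :
    Poly (fun a => (if (d a).1 = (d' a).1 ∧ (R a).1.headD 0 = (d' a).2 - n a then
      ((false, [2]) : Src) else (false, [3]))) := by
  fun_prop

theorem pent (hm : Poly m) (hn : Poly n) (hR : Poly R) (hu : Poly u) (hd : Poly d)
    (hd' : Poly d') : Poly (fun a => ent (m a) (n a) (R a) (u a) (d a) (d' a)) := by
  have c1 : Poly (fun a => decide ((d a).2 < n a)) := NPC.Poly.decide_lt (NPC.Poly.snd hd) hn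
  have c2 : Poly (fun a => decide ((d' a).2 < n a)) := NPC.Poly.decide_lt (NPC.Poly.snd hd') hn
  have c3 : Poly (fun a => decide ((d a).2 < n a + m a)) :=
    NPC.Poly.decide_lt (NPC.Poly.snd hd) (NPC.Poly.add hn hm)
  have c4 : Poly (fun a => decide ((d' a).2 < n a + m a)) :=
    NPC.Poly.decide_lt (NPC.Poly.snd hd') (NPC.Poly.add hn hm)
  have z : Poly (fun _ : α => ((false, [3]) : Src)) := NPC.Poly.const _
  have e1 : Poly (fun a => (if d a = d' a then ((false, [2]) : Src) else (false, [3]))) :=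
    NPC.Poly.ite (NPC.Poly.dec_eq hd hd') (NPC.Poly.const _) z
  have e2 : Poly (fun a => csrc (u a) ((d a).2 - n a)) :=
    pcsrc hu (NPC.Poly.sub (NPC.Poly.snd hd) hn)
  have f1 := NPC.Poly.ite c4 (pent1 hn hR hd hd') z
  have f2 := NPC.Poly.ite c2 e1 f1
  have f3 := NPC.Poly.ite c4 (pent3 hn hR hd hd') e2
  have f4 := NPC.Poly.ite c2 (pent2 hn hR hd hd') f3
  have f5 := NPC.Poly.ite c4 (pent4 hn hR hd hd') z
  have f6 := NPC.Poly.ite c2 z f5
  have f7 := NPC.Poly.ite c3 f4 f6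
  have f8 := NPC.Poly.ite c1 f2 f7
  unfold ent
  exact f8

end ent

theorem pposn {Rs : α → List Ray} {S : α → List ℕ} (hR : Poly Rs) (hS : Poly S) :
    Poly (fun a => posn (Rs a) (S a)) := by
  unfold posn
  fun_prop

theorem pmkey {m n : α → ℕ} {Rs : α → List Ray} {us : α → List Col} {P : α → List (ℕ × ℕ)}
    (hm : Poly m) (hn : Poly n) (hR : Poly Rs) (hu : Poly us) (hP : Poly P) :
    Poly (fun a => mkey (m a) (n a) (Rs a) (us a) (P a)) := by
  have b : Poly (fun q : (α × (ℕ × ℕ)) × (ℕ × ℕ) => q.1.1) :=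
    NPC.Poly.fst (NPC.Poly.fst NPC.Poly.id)
  have b2 : Poly (fun q : (α × (ℕ × ℕ)) × (ℕ × ℕ) => q.1.2) :=
    NPC.Poly.snd (NPC.Poly.fst NPC.Poly.id)
  have b3 : Poly (fun q : (α × (ℕ × ℕ)) × (ℕ × ℕ) => q.2) := NPC.Poly.snd NPC.Poly.id
  have e1 : Poly (fun q : (α × (ℕ × ℕ)) × (ℕ × ℕ) => (Rs q.1.1).getD q.1.2.1 ([], 0)) :=
    NPC.Poly.getD (NPC.Poly.comp hR b) (NPC.Poly.fst b2) (NPC.Poly.const _)
  have e2 : Poly (fun q : (α × (ℕ × ℕ)) × (ℕ × ℕ) => (us q.1.1).getD q.2.1 (0, 0)) :=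
    NPC.Poly.getD (NPC.Poly.comp hu b) (NPC.Poly.fst b3) (NPC.Poly.const _)
  have g1 : Poly (fun q : (α × (ℕ × ℕ)) × (ℕ × ℕ) => ent (m q.1.1) (n q.1.1)
      ((Rs q.1.1).getD q.1.2.1 ([], 0)) ((us q.1.1).getD q.2.1 (0, 0)) q.1.2 q.2) :=
    pent (NPC.Poly.comp hm b) (NPC.Poly.comp hn b) e1 e2 b2 b3
  have g0 : Poly (fun q : α × (ℕ × ℕ) => P q.1) := NPC.Poly.comp hP (NPC.Poly.fst NPC.Poly.id)
  have g2 := NPC.Poly.map (F := fun (q : α × (ℕ × ℕ)) (d' : ℕ × ℕ) => ent (m q.1) (n q.1)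
    ((Rs q.1).getD q.2.1 ([], 0)) ((us q.1).getD d'.1 (0, 0)) q.2 d') g0 g1
  have g3 := NPC.Poly.map (F := fun (a : α) (d : ℕ × ℕ) => (P a).map fun (d' : ℕ × ℕ) =>
    ent (m a) (n a) ((Rs a).getD d.1 ([], 0)) ((us a).getD d'.1 (0, 0)) d d') hP g2
  exact g3

theorem pcols {T : α → List Ray} (hT : Poly T) : Poly (fun a => cols (T a)) := by
  unfold cols
  fun_prop

theorem psgk {K : α → Key} {q : α → ℕ} (hK : Poly K) (hq : Poly q) :
    Poly (fun a => sgk (K a) (q a)) := by
  unfold sgk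
  fun_prop

/-! ### Shapes -/

section shapes

variable {ks : α → List ℕ} {C : α → List (List ℕ)} {U : α → List Unit}

theorem sh_nz {N : α → ℕ → ℤ} (hN : Poly (fun q : α × ℕ => N q.1 q.2)) (hk : Poly ks) :
    Poly (fun a => (ks a).any fun c => decide (N a c ≠ 0)) := by
  fun_prop

theorem sh_par {N N' : α → ℕ → ℤ} {Q : α → ℕ → ℕ → ℤ} (hN : Poly (fun q : α × ℕ => N q.1 q.2))
    (hN' : Poly (fun q : α × ℕ => N' q.1 q.2))
    (hQ : Poly (fun q : (α × ℕ) × ℕ => Q q.1.1 q.1.2 q.2)) (hk : Poly ks) :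
    Poly (fun a => (ks a).all fun c => decide (N a c = N' a c) &&
      (ks a).all fun c' => decide (Q a c c' = 0)) := by
  refine NPC.Poly.all (p := fun a c => decide (N a c = N' a c) &&
      (ks a).all fun c' => decide (Q a c c' = 0)) hk ?_
  refine NPC.Poly.and (NPC.Poly.dec_eq hN hN') ?_
  exact NPC.Poly.all (p := fun (q : α × ℕ) c' => decide (Q q.1 q.2 c' = 0))
    (hk.comp (NPC.Poly.fst NPC.Poly.id)) (NPC.Poly.dec_eq hQ (NPC.Poly.const 0))

theorem sh_last {I : α → ℕ → ℤ} (hI : Poly (fun q : α × ℕ => I q.1 q.2)) (hU : Poly U) :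
    Poly (fun a => (List.range (U a).length).any fun i => decide (I a i < 0) &&
      (List.range (U a).length).all fun i' => decide (i ≤ i') || decide (I a i' = 0)) := by
  refine NPC.Poly.any (p := fun a i => decide (I a i < 0) &&
      (List.range (U a).length).all fun i' => decide (i ≤ i') || decide (I a i' = 0))
      (NPC.Poly.range_length hU) ?_
  refine NPC.Poly.and (NPC.Poly.ilt hI (NPC.Poly.const 0)) ?_
  refine NPC.Poly.all (p := fun (q : α × ℕ) i' => decide (q.2 ≤ i') || decide (I q.1 i' = 0))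
    (NPC.Poly.range_length (hU.comp (NPC.Poly.fst NPC.Poly.id))) ?_
  have h : Poly (fun q : (α × ℕ) × ℕ => ((q.1.1, q.2) : α × ℕ)) :=
    NPC.Poly.pair (NPC.Poly.fst (NPC.Poly.fst NPC.Poly.id)) (NPC.Poly.snd NPC.Poly.id)
  have h2 := NPC.Poly.comp hI h
  exact NPC.Poly.or (NPC.Poly.decide_le (NPC.Poly.snd (NPC.Poly.fst NPC.Poly.id))
    (NPC.Poly.snd NPC.Poly.id)) (NPC.Poly.dec_eq h2 (NPC.Poly.const 0))

theorem sh_better {N B : α → ℕ → ℤ} {I : α → ℕ → ℕ → ℤ}
    (hN : Poly (fun q : α × ℕ => N q.1 q.2)) (hB : Poly (fun q : α × ℕ => B q.1 q.2))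
    (hI : Poly (fun q : (α × ℕ) × ℕ => I q.1.1 q.1.2 q.2)) (hk : Poly ks) (hU : Poly U) :
    Poly (fun a => (ks a).any fun c => decide (N a c ≠ 0) && (decide (0 < B a c) ||
    (decide (B a c = 0) && (List.range (U a).length).any fun i =>
      decide (I a c i < 0) && (List.range (U a).length).all fun i' =>
        decide (i ≤ i') || decide (I a c i' = 0)))) := by
  refine NPC.Poly.any (p := fun a c => decide (N a c ≠ 0) && (decide (0 < B a c) ||
    (decide (B a c = 0) && (List.range (U a).length).any fun i =>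
      decide (I a c i < 0) && (List.range (U a).length).all fun i' =>
        decide (i ≤ i') || decide (I a c i' = 0)))) hk ?_
  refine NPC.Poly.and (NPC.Poly.decide_not (NPC.Poly.dec_eq hN (NPC.Poly.const 0)))
    (NPC.Poly.or (NPC.Poly.ilt (NPC.Poly.const 0) hB) (NPC.Poly.and
      (NPC.Poly.dec_eq hB (NPC.Poly.const 0)) ?_))
  exact sh_last (I := fun (q : α × ℕ) i => I q.1 q.2 i) hI (hU.comp (NPC.Poly.fst NPC.Poly.id))

theorem sh_red {Z : α → List ℕ → Bool} {P B : α → List ℕ → List ℕ → Bool}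
    (hZ : Poly (fun q : α × List ℕ => Z q.1 q.2))
    (hP : Poly (fun q : (α × List ℕ) × List ℕ => P q.1.1 q.1.2 q.2))
    (hB : Poly (fun q : (α × List ℕ) × List ℕ => B q.1.1 q.1.2 q.2)) (hC : Poly C) :
    Poly (fun a => (((C a).filter fun L => Z a L).zipIdx.filter fun p =>
      ((C a).filter fun L => Z a L).zipIdx.all fun p' => decide (p'.2 = p.2) ||
        (!P a p.1 p'.1 || (if p'.2 < p.2 then B a p.1 p'.1 else !B a p'.1 p.1))).map
      Prod.fst) := by
  have hD : Poly (fun a => ((C a).filter fun L => Z a L).zipIdx) :=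
    NPC.Poly.zipIdx (NPC.Poly.filter (p := fun a L => Z a L) hC hZ)
  refine NPC.Poly.map (F := fun (_ : α) (p : List ℕ × ℕ) => p.1) ?_ (NPC.Poly.fst (NPC.Poly.snd NPC.Poly.id))
  refine NPC.Poly.filter (p := fun a p => ((C a).filter fun L => Z a L).zipIdx.all fun p' =>
    decide (p'.2 = p.2) || (!P a p.1 p'.1 || (if p'.2 < p.2 then B a p.1 p'.1
      else !B a p'.1 p.1))) hD ?_
  refine NPC.Poly.all (p := fun (q : α × (List ℕ × ℕ)) p' =>
    decide (p'.2 = q.2.2) || (!P q.1 q.2.1 p'.1 || (if p'.2 < q.2.2 then B q.1 q.2.1 p'.1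
      else !B q.1 p'.1 q.2.1))) (hD.comp (NPC.Poly.fst NPC.Poly.id)) ?_
  have b : Poly (fun q : (α × (List ℕ × ℕ)) × (List ℕ × ℕ) => q.1.1) :=
    NPC.Poly.fst (NPC.Poly.fst NPC.Poly.id)
  have b2 : Poly (fun q : (α × (List ℕ × ℕ)) × (List ℕ × ℕ) => q.1.2) :=
    NPC.Poly.snd (NPC.Poly.fst NPC.Poly.id)
  have b3 : Poly (fun q : (α × (List ℕ × ℕ)) × (List ℕ × ℕ) => q.2) := NPC.Poly.snd NPC.Poly.id
  have g1 := NPC.Poly.comp hP (NPC.Poly.pair (NPC.Poly.pair b (NPC.Poly.fst b2))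
    (NPC.Poly.fst b3))
  have g2 := NPC.Poly.comp hB (NPC.Poly.pair (NPC.Poly.pair b (NPC.Poly.fst b2))
    (NPC.Poly.fst b3))
  have g3 := NPC.Poly.comp hB (NPC.Poly.pair (NPC.Poly.pair b (NPC.Poly.fst b3))
    (NPC.Poly.fst b2))
  have g4 := NPC.Poly.ite (NPC.Poly.decide_lt (NPC.Poly.snd b3) (NPC.Poly.snd b2)) g2
    (NPC.Poly.not g3)
  exact NPC.Poly.or (NPC.Poly.dec_eq (NPC.Poly.snd b3) (NPC.Poly.snd b2))
    (NPC.Poly.or (NPC.Poly.not g1) g4)

theorem sh_gen {N : α → List ℕ → ℤ} {S : α → List ℕ → List ℕ → ℤ}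
    {W : α → List ℕ → List ℕ → List ℕ} (hN : Poly (fun q : α × List ℕ => N q.1 q.2))
    (hS : Poly (fun q : (α × List ℕ) × List ℕ => S q.1.1 q.1.2 q.2))
    (hW : Poly (fun q : (α × List ℕ) × List ℕ => W q.1.1 q.1.2 q.2)) (hC : Poly C) :
    Poly (fun a => ((C a).filter fun L => decide (N a L = 0)) ++ (C a).flatMap fun L =>
      (C a).flatMap fun L' => if N a L = 1 ∧ N a L' = -1 ∧ S a L L' ≠ 0 then
        [W a L L'] else []) := by
  refine NPC.Poly.append (NPC.Poly.filter (p := fun a L => decide (N a L = 0)) hC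
    (NPC.Poly.dec_eq hN (NPC.Poly.const 0))) ?_
  refine NPC.Poly.flatMap (F := fun a L => (C a).flatMap fun L' =>
    if N a L = 1 ∧ N a L' = -1 ∧ S a L L' ≠ 0 then [W a L L'] else []) hC ?_
  refine NPC.Poly.flatMap (F := fun (q : α × List ℕ) L' =>
    if N q.1 q.2 = 1 ∧ N q.1 L' = -1 ∧ S q.1 q.2 L' ≠ 0 then [W q.1 q.2 L'] else [])
    (hC.comp (NPC.Poly.fst NPC.Poly.id)) ?_
  have b : Poly (fun q : (α × List ℕ) × List ℕ => q.1.1) :=
    NPC.Poly.fst (NPC.Poly.fst NPC.Poly.id)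
  have b2 : Poly (fun q : (α × List ℕ) × List ℕ => q.1.2) :=
    NPC.Poly.snd (NPC.Poly.fst NPC.Poly.id)
  have b3 : Poly (fun q : (α × List ℕ) × List ℕ => q.2) := NPC.Poly.snd NPC.Poly.id
  have g1 := NPC.Poly.comp hN (NPC.Poly.pair b b2)
  have g2 := NPC.Poly.comp hN (NPC.Poly.pair b b3)
  have d1 := NPC.Poly.dec_eq g1 (NPC.Poly.const (1 : ℤ))
  have d2 := NPC.Poly.dec_eq g2 (NPC.Poly.const (-1 : ℤ))
  have d3 := NPC.Poly.decide_not (NPC.Poly.dec_eq hS (NPC.Poly.const (0 : ℤ)))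
  exact NPC.Poly.ite (NPC.Poly.decide_and d1 (NPC.Poly.decide_and d2 d3))
    (NPC.Poly.cons hW (NPC.Poly.const [])) (NPC.Poly.const [])

theorem sh_pick {N : α → List ℕ → ℤ} {j : α → ℕ} (hN : Poly (fun q : α × List ℕ => N q.1 q.2))
    (hC : Poly C) (hj : Poly j) :
    Poly (fun a => ((((C a).filter fun L => decide (N a L = 1)) ++
      (C a).filter fun L => decide (N a L = -1)).take 1).map fun L => ((L, j a) : Ray)) := by
  have e : ∀ l : List (List ℕ), l.take 1 = l.take [()].length := fun _ => rfl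
  simp only [e]
  refine NPC.Poly.map (F := fun a L => ((L, j a) : Ray)) (NPC.Poly.take_length
    (NPC.Poly.append (NPC.Poly.filter (p := fun a L => decide (N a L = 1)) hC
      (NPC.Poly.dec_eq hN (NPC.Poly.const _)))
      (NPC.Poly.filter (p := fun a L => decide (N a L = -1)) hC
      (NPC.Poly.dec_eq hN (NPC.Poly.const _)))) (NPC.Poly.const _)) ?_
  exact NPC.Poly.pair (NPC.Poly.snd NPC.Poly.id) (hj.comp (NPC.Poly.fst NPC.Poly.id))

end shapes

section

variable {U V : α → List Unit}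

theorem pkq (hU : Poly U) (hV : Poly V) {Rs : α → List Ray} {us : α → List Col} (hR : Poly Rs)
    (hu : Poly us) : Poly (fun a => kq (U a).length (V a).length (Rs a) (us a)) := by
  unfold kq
  exact pmkey (NPC.Poly.length hU) (NPC.Poly.length hV) hR hu (pposn hR
    (UPoly.add (UPoly.add (UPoly.length hV) (UPoly.length hU)) (UPoly.const 1)).range)

theorem pkn (hU : Poly U) (hV : Poly V) {R : α → Ray} (hR : Poly R) :
    Poly (fun a => kn (U a).length (V a).length (R a)) := by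
  unfold kn
  have h1 : Poly (fun a => [R a]) := NPC.Poly.cons hR (NPC.Poly.const [])
  exact pmkey (NPC.Poly.length hU) (NPC.Poly.length hV) h1 (NPC.Poly.const []) (pposn h1
    (UPoly.add (UPoly.length hV) (UPoly.length hU)).range)

variable {s : α → Key → ℤ}

theorem lift1 {β : Type} [TEnc β] (hs : Poly (fun p : α × Key => s p.1 p.2)) :
    Poly (fun p : (α × β) × Key => s p.1.1 p.2) := by
  have h : Poly (fun p : (α × β) × Key => ((p.1.1, p.2) : α × Key)) :=
    NPC.Poly.pair (NPC.Poly.fst (NPC.Poly.fst NPC.Poly.id)) (NPC.Poly.snd NPC.Poly.id)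
  have h2 := NPC.Poly.comp hs h
  exact h2

theorem papp (hs : Poly (fun p : α × Key => s p.1 p.2)) {K : α → Key} (hK : Poly K) :
    Poly (fun a => s a (K a)) := by
  have h : Poly (fun a => ((a, K a) : α × Key)) := NPC.Poly.pair NPC.Poly.id hK
  have h2 := NPC.Poly.comp hs h
  exact h2

theorem pqs (hs : Poly (fun p : α × Key => s p.1 p.2)) (hU : Poly U) (hV : Poly V)
    {Rs : α → List Ray} {us : α → List Col} (hR : Poly Rs) (hu : Poly us) :
    Poly (fun a => qs (s a) (U a).length (V a).length (Rs a) (us a)) := by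
  unfold qs
  exact NPC.Poly.imul (psgk (pkq hU hV hR hu) (NPC.Poly.length hR)) (papp hs (pkq hU hV hR hu))

theorem pqT (hs : Poly (fun p : α × Key => s p.1 p.2)) (hU : Poly U) (hV : Poly V)
    {T : α → List Ray} (hT : Poly T) :
    Poly (fun a => qT (s a) (U a).length (V a).length (T a)) := by
  unfold qT
  exact NPC.Poly.ite (NPC.Poly.dec_eq hT (NPC.Poly.const [])) (NPC.Poly.const 1)
    (pqs hs hU hV hT (pcols hT))

theorem pcol {t c : α → ℕ} (ht : Poly t) (hc : Poly c) :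
    Poly (fun a => ((t a, c a) : Col)) := NPC.Poly.pair ht hc

theorem pnu (hs : Poly (fun p : α × Key => s p.1 p.2)) (hU : Poly U) (hV : Poly V)
    {R : α → Ray} {c : α → ℕ} (hR : Poly R) (hc : Poly c) :
    Poly (fun a => nu (s a) (U a).length (V a).length (R a) (c a)) := by
  unfold nu
  exact pqs hs hU hV (NPC.Poly.cons hR (NPC.Poly.const []))
    (NPC.Poly.cons (pcol (NPC.Poly.const 0) hc) (NPC.Poly.const []))

/-- two rays, two columns -/
theorem pq22 (hs : Poly (fun p : α × Key => s p.1 p.2)) (hU : Poly U) (hV : Poly V)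
    {R R' : α → Ray} {t t' c c' : α → ℕ} (hR : Poly R) (hR' : Poly R') (ht : Poly t)
    (ht' : Poly t') (hc : Poly c) (hc' : Poly c') :
    Poly (fun a => qs (s a) (U a).length (V a).length [R a, R' a] [(t a, c a), (t' a, c' a)]) :=
  pqs hs hU hV (NPC.Poly.cons hR (NPC.Poly.cons hR' (NPC.Poly.const [])))
    (NPC.Poly.cons (pcol ht hc) (NPC.Poly.cons (pcol ht' hc') (NPC.Poly.const [])))

theorem ppar (hs : Poly (fun p : α × Key => s p.1 p.2)) (hU : Poly U) (hV : Poly V)
    {R R' : α → Ray} {ks : α → List ℕ} (hR : Poly R) (hR' : Poly R') (hk : Poly ks) :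
    Poly (fun a => par (s a) (U a).length (V a).length (R a) (R' a) (ks a)) := by
  unfold par
  have b : Poly (fun q : α × ℕ => q.1) := NPC.Poly.fst NPC.Poly.id
  have c : Poly (fun q : (α × ℕ) × ℕ => q.1.1) := NPC.Poly.fst (NPC.Poly.fst NPC.Poly.id)
  exact sh_par (N := fun a c => nu (s a) (U a).length (V a).length (R a) c)
    (N' := fun a c => nu (s a) (U a).length (V a).length (R' a) c)
    (Q := fun a c c' => qs (s a) (U a).length (V a).length [R a, R' a] [(0, c), (0, c')])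
    (pnu (α := α × ℕ) (s := fun q => s q.1) (U := fun q => U q.1) (V := fun q => V q.1)
      (R := fun q => R q.1) (c := fun q => q.2) (lift1 hs) (hU.comp b) (hV.comp b) (hR.comp b)
      (NPC.Poly.snd NPC.Poly.id))
    (pnu (α := α × ℕ) (s := fun q => s q.1) (U := fun q => U q.1) (V := fun q => V q.1)
      (R := fun q => R' q.1) (c := fun q => q.2) (lift1 hs) (hU.comp b) (hV.comp b)
      (hR'.comp b) (NPC.Poly.snd NPC.Poly.id))
    (pq22 (α := (α × ℕ) × ℕ) (s := fun q => s q.1.1) (U := fun q => U q.1.1)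
      (V := fun q => V q.1.1) (R := fun q => R q.1.1) (R' := fun q => R' q.1.1)
      (t := fun _ => 0) (t' := fun _ => 0) (c := fun q => q.1.2) (c' := fun q => q.2)
      (lift1 (α := α × ℕ) (s := fun q => s q.1) (lift1 hs)) (hU.comp c) (hV.comp c)
      (hR.comp c) (hR'.comp c) (NPC.Poly.const 0) (NPC.Poly.const 0)
      (NPC.Poly.snd (NPC.Poly.fst NPC.Poly.id)) (NPC.Poly.snd NPC.Poly.id)) hk

theorem pnz (hs : Poly (fun p : α × Key => s p.1 p.2)) (hU : Poly U) (hV : Poly V)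
    {R : α → Ray} {ks : α → List ℕ} (hR : Poly R) (hk : Poly ks) :
    Poly (fun a => nz (s a) (U a).length (V a).length (R a) (ks a)) := by
  unfold nz
  have b : Poly (fun q : α × ℕ => q.1) := NPC.Poly.fst NPC.Poly.id
  exact sh_nz (N := fun a c => nu (s a) (U a).length (V a).length (R a) c)
    (pnu (α := α × ℕ) (s := fun q => s q.1) (U := fun q => U q.1) (V := fun q => V q.1)
      (R := fun q => R q.1) (c := fun q => q.2) (lift1 hs) (hU.comp b) (hV.comp b) (hR.comp b)
      (NPC.Poly.snd NPC.Poly.id)) hk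

theorem pcmpB (hs : Poly (fun p : α × Key => s p.1 p.2)) (hU : Poly U) (hV : Poly V)
    {T : α → List Ray} {R R' : α → Ray} {c : α → ℕ} (hT : Poly T) (hR : Poly R) (hR' : Poly R')
    (hc : Poly c) :
    Poly (fun a => cmpB (s a) (U a).length (V a).length (T a) (R a) (R' a) (c a)) := by
  unfold cmpB
  exact NPC.Poly.ineg (NPC.Poly.imul (pnu hs hU hV hR hc) (NPC.Poly.imul
    (pqs hs hU hV (NPC.Poly.cons hR (NPC.Poly.cons hR' hT))
      (NPC.Poly.cons (pcol (NPC.Poly.const 0) hc) (NPC.Poly.cons (NPC.Poly.const _)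
        (pcols hT)))) (pqT hs hU hV hT)))

theorem pcmpI (hs : Poly (fun p : α × Key => s p.1 p.2)) (hU : Poly U) (hV : Poly V)
    {R R' : α → Ray} {c i : α → ℕ} (hR : Poly R) (hR' : Poly R')
    (hc : Poly c) (hi : Poly i) :
    Poly (fun a => cmpI (s a) (U a).length (V a).length (R a) (R' a) (c a) (i a)) := by
  unfold cmpI
  exact NPC.Poly.ineg (NPC.Poly.imul (pnu hs hU hV hR hc) (pq22 hs hU hV hR hR'
    (NPC.Poly.const 0) (NPC.Poly.const 2) hc hi))

theorem pbetter (hs : Poly (fun p : α × Key => s p.1 p.2)) (hU : Poly U) (hV : Poly V)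
    {T : α → List Ray} {R R' : α → Ray} {ks : α → List ℕ} (hT : Poly T) (hR : Poly R)
    (hR' : Poly R') (hk : Poly ks) :
    Poly (fun a => better (s a) (U a).length (V a).length (T a) (R a) (R' a) (ks a)) := by
  unfold better
  have b : Poly (fun q : α × ℕ => q.1) := NPC.Poly.fst NPC.Poly.id
  have c : Poly (fun q : (α × ℕ) × ℕ => q.1.1) := NPC.Poly.fst (NPC.Poly.fst NPC.Poly.id)
  exact sh_better (N := fun a c => nu (s a) (U a).length (V a).length (R a) c)
    (B := fun a c => cmpB (s a) (U a).length (V a).length (T a) (R a) (R' a) c)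
    (I := fun a c i => cmpI (s a) (U a).length (V a).length (R a) (R' a) c i)
    (pnu (α := α × ℕ) (s := fun q => s q.1) (U := fun q => U q.1) (V := fun q => V q.1)
      (R := fun q => R q.1) (c := fun q => q.2) (lift1 hs) (hU.comp b) (hV.comp b) (hR.comp b)
      (NPC.Poly.snd NPC.Poly.id))
    (pcmpB (α := α × ℕ) (s := fun q => s q.1) (U := fun q => U q.1) (V := fun q => V q.1)
      (T := fun q => T q.1) (R := fun q => R q.1) (R' := fun q => R' q.1) (c := fun q => q.2)
      (lift1 hs) (hU.comp b) (hV.comp b) (hT.comp b) (hR.comp b) (hR'.comp b)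
      (NPC.Poly.snd NPC.Poly.id))
    (pcmpI (α := (α × ℕ) × ℕ) (s := fun q => s q.1.1) (U := fun q => U q.1.1)
      (V := fun q => V q.1.1) (R := fun q => R q.1.1) (R' := fun q => R' q.1.1)
      (c := fun q => q.1.2) (i := fun q => q.2)
      (lift1 (α := α × ℕ) (s := fun q => s q.1) (lift1 hs)) (hU.comp c) (hV.comp c)
      (hR.comp c) (hR'.comp c)
      (NPC.Poly.snd (NPC.Poly.fst NPC.Poly.id)) (NPC.Poly.snd NPC.Poly.id)) hk hU

theorem pred (hs : Poly (fun p : α × Key => s p.1 p.2)) (hU : Poly U) (hV : Poly V)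
    {T : α → List Ray} {C : α → List (List ℕ)} {j : α → ℕ} {ks : α → List ℕ} (hT : Poly T)
    (hC : Poly C) (hj : Poly j) (hk : Poly ks) :
    Poly (fun a => red (s a) (U a).length (V a).length (T a) (C a) (j a) (ks a)) := by
  unfold red
  have b : Poly (fun q : α × List ℕ => q.1) := NPC.Poly.fst NPC.Poly.id
  have c : Poly (fun q : (α × List ℕ) × List ℕ => q.1.1) :=
    NPC.Poly.fst (NPC.Poly.fst NPC.Poly.id)
  have c2 : Poly (fun q : (α × List ℕ) × List ℕ => q.1.2) :=
    NPC.Poly.snd (NPC.Poly.fst NPC.Poly.id)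
  have c3 : Poly (fun q : (α × List ℕ) × List ℕ => q.2) := NPC.Poly.snd NPC.Poly.id
  exact sh_red (Z := fun a L => nz (s a) (U a).length (V a).length (L, j a) (ks a))
    (P := fun a L L' => par (s a) (U a).length (V a).length (L, j a) (L', j a) (ks a))
    (B := fun a L L' => better (s a) (U a).length (V a).length (T a) (L, j a) (L', j a) (ks a))
    (pnz (α := α × List ℕ) (s := fun q => s q.1) (U := fun q => U q.1) (V := fun q => V q.1)
      (R := fun q => (q.2, j q.1)) (ks := fun q => ks q.1) (lift1 hs) (hU.comp b) (hV.comp b)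
      (NPC.Poly.pair (NPC.Poly.snd NPC.Poly.id) (hj.comp b)) (hk.comp b))
    (ppar (α := (α × List ℕ) × List ℕ) (s := fun q => s q.1.1) (U := fun q => U q.1.1)
      (V := fun q => V q.1.1) (R := fun q => (q.1.2, j q.1.1)) (R' := fun q => (q.2, j q.1.1))
      (ks := fun q => ks q.1.1) (lift1 (α := α × List ℕ) (s := fun q => s q.1) (lift1 hs))
      (hU.comp c) (hV.comp c) (NPC.Poly.pair c2 (hj.comp c)) (NPC.Poly.pair c3 (hj.comp c))
      (hk.comp c))
    (pbetter (α := (α × List ℕ) × List ℕ) (s := fun q => s q.1.1) (U := fun q => U q.1.1)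
      (V := fun q => V q.1.1) (T := fun q => T q.1.1) (R := fun q => (q.1.2, j q.1.1))
      (R' := fun q => (q.2, j q.1.1)) (ks := fun q => ks q.1.1)
      (lift1 (α := α × List ℕ) (s := fun q => s q.1) (lift1 hs))
      (hU.comp c) (hV.comp c) (hT.comp c) (NPC.Poly.pair c2 (hj.comp c))
      (NPC.Poly.pair c3 (hj.comp c)) (hk.comp c)) hC

theorem puni (hU : Poly U) {L L' : α → List ℕ} (hL : Poly L) (hL' : Poly L') :
    Poly (fun a => uni (U a).length (L a) (L' a)) := by
  unfold uni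
  fun_prop

theorem pgen (hs : Poly (fun p : α × Key => s p.1 p.2)) (hU : Poly U) (hV : Poly V)
    {K : α → List (List ℕ)} {j : α → ℕ} (hK : Poly K) (hj : Poly j) :
    Poly (fun a => gen (s a) (U a).length (V a).length (K a) (j a)) := by
  unfold gen
  have b : Poly (fun q : α × List ℕ => q.1) := NPC.Poly.fst NPC.Poly.id
  have c : Poly (fun q : (α × List ℕ) × List ℕ => q.1.1) :=
    NPC.Poly.fst (NPC.Poly.fst NPC.Poly.id)
  have c2 : Poly (fun q : (α × List ℕ) × List ℕ => q.1.2) :=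
    NPC.Poly.snd (NPC.Poly.fst NPC.Poly.id)
  have c3 : Poly (fun q : (α × List ℕ) × List ℕ => q.2) := NPC.Poly.snd NPC.Poly.id
  have hW : Poly (fun q : (α × List ℕ) × List ℕ => uni (U q.1.1).length q.1.2 q.2) :=
    puni (hU.comp c) c2 c3
  exact sh_gen (N := fun a L => nu (s a) (U a).length (V a).length (L, j a) (j a))
    (S := fun a L L' => s a (kn (U a).length (V a).length (uni (U a).length L L', j a + 1)))
    (W := fun a L L' => uni (U a).length L L')
    (pnu (α := α × List ℕ) (s := fun q => s q.1) (U := fun q => U q.1) (V := fun q => V q.1)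
      (R := fun q => (q.2, j q.1)) (c := fun q => j q.1) (lift1 hs) (hU.comp b) (hV.comp b)
      (NPC.Poly.pair (NPC.Poly.snd NPC.Poly.id) (hj.comp b)) (hj.comp b))
    (papp (α := (α × List ℕ) × List ℕ) (s := fun q => s q.1.1)
      (lift1 (α := α × List ℕ) (s := fun q => s q.1) (lift1 hs))
      (pkn (hU.comp c) (hV.comp c) (NPC.Poly.pair hW
        (NPC.Poly.add (hj.comp c) (NPC.Poly.const 1)))))
    hW hK

theorem ppick (hs : Poly (fun p : α × Key => s p.1 p.2)) (hU : Poly U) (hV : Poly V)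
    {K : α → List (List ℕ)} {j : α → ℕ} (hK : Poly K) (hj : Poly j) :
    Poly (fun a => pick (s a) (U a).length (V a).length (K a) (j a)) := by
  unfold pick
  have b : Poly (fun q : α × List ℕ => q.1) := NPC.Poly.fst NPC.Poly.id
  exact sh_pick (N := fun a L => nu (s a) (U a).length (V a).length (L, j a) (j a))
    (pnu (α := α × List ℕ) (s := fun q => s q.1) (U := fun q => U q.1) (V := fun q => V q.1)
      (R := fun q => (q.2, j q.1)) (c := fun q => j q.1) (lift1 hs) (hU.comp b) (hV.comp b)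
      (NPC.Poly.pair (NPC.Poly.snd NPC.Poly.id) (hj.comp b)) (hj.comp b)) hK hj

theorem pcks (hV : Poly V) {k : α → ℕ} (hk : Poly k) :
    Poly (fun a => cks (V a).length (k a)) := by
  unfold cks
  fun_prop

theorem punits (hU : Poly U) : Poly (fun a => units (U a).length) := by
  unfold units
  fun_prop

theorem pstepS (hs : Poly (fun p : α × Key => s p.1 p.2)) (hU : Poly U) (hV : Poly V)
    {cap : α → List Unit} {st : α → St} (hc : Poly cap) (hst : Poly st) :
    Poly (fun a => stepS (s a) (U a).length (V a).length (cap a) (st a)) := by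
  have h1 : Poly (fun a => (st a).1.1) := NPC.Poly.fst (NPC.Poly.fst hst)
  have h2 : Poly (fun a => (st a).1.2) := NPC.Poly.snd (NPC.Poly.fst hst)
  have h3 : Poly (fun a => (st a).2.1) := NPC.Poly.fst (NPC.Poly.snd hst)
  have h4 : Poly (fun a => (st a).2.2) := NPC.Poly.snd (NPC.Poly.snd hst)
  have hX : Poly (fun a => (red (s a) (U a).length (V a).length (st a).2.2 (st a).2.1
      (st a).1.2 (cks (V a).length (st a).1.1)).take (cap a).length) :=
    NPC.Poly.take_length (pred hs hU hV h4 h3 h2 (pcks hV h1)) hc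
  have h5 : Poly (fun a => (st a).1.2 + 1) := NPC.Poly.add h2 (NPC.Poly.const 1)
  unfold stepS
  exact NPC.Poly.ite (NPC.Poly.dec_eq h1 (NPC.Poly.const 0)) hst
    (NPC.Poly.ite (NPC.Poly.decide_lt h5 h1)
      (NPC.Poly.pair (NPC.Poly.pair h1 h5) (NPC.Poly.pair (pgen hs hU hV hX h2) h4))
      (NPC.Poly.pair (NPC.Poly.pair (NPC.Poly.sub h1 (NPC.Poly.const 1)) (NPC.Poly.const 0))
        (NPC.Poly.pair (punits hU) (NPC.Poly.append (ppick hs hU hV hX h2) h4))))

theorem pfin (hs : Poly (fun p : α × Key => s p.1 p.2)) (hU : Poly U) (hV : Poly V)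
    {st : α → St} (hst : Poly st) :
    Poly (fun a => fin (s a) (U a).length (V a).length (st a)) := by
  have h4 : Poly (fun a => (st a).2.2) := NPC.Poly.snd (NPC.Poly.snd hst)
  have b : Poly (fun q : α × ℕ => q.1) := NPC.Poly.fst NPC.Poly.id
  have h5 : Poly (fun q : α × ℕ => (st q.1).2.2) := h4.comp b
  have h6 : Poly (fun q : α × ℕ => (([q.2], 0) : Ray)) :=
    NPC.Poly.pair (NPC.Poly.cons (NPC.Poly.snd NPC.Poly.id) (NPC.Poly.const []))
      (NPC.Poly.const 0)
  unfold fin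
  refine NPC.Poly.all (p := fun a i => decide (qs (s a) (U a).length (V a).length
    (([i], 0) :: (st a).2.2) ((1, 0) :: cols (st a).2.2) *
      qT (s a) (U a).length (V a).length (st a).2.2 ≤ 0)) (NPC.Poly.range_length hU) ?_
  exact NPC.Poly.ile (NPC.Poly.imul
    (pqs (α := α × ℕ) (s := fun q => s q.1) (U := fun q => U q.1) (V := fun q => V q.1)
      (lift1 hs) (hU.comp b) (hV.comp b) (NPC.Poly.cons h6 h5)
      (NPC.Poly.cons (NPC.Poly.const _) (pcols h5)))
    (pqT (α := α × ℕ) (s := fun q => s q.1) (U := fun q => U q.1) (V := fun q => V q.1)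
      (lift1 hs) (hU.comp b) (hV.comp b) h5)) (NPC.Poly.const 0)

/-! ### Keys -/

theorem pk1 (hU : Poly U) (hV : Poly V) {j : α → ℕ} {L : α → List ℕ} (hj : Poly j)
    (hL : Poly L) : Poly (fun a => k1 (U a).length (V a).length (j a) (L a)) := by
  have b : Poly (fun q : α × ℕ => q.1) := NPC.Poly.fst NPC.Poly.id
  unfold k1
  refine NPC.Poly.map (F := fun a c => kq (U a).length (V a).length [(L a, j a)] [(0, c)])
    (NPC.Poly.cons hj (NPC.Poly.range_length hV)) ?_
  exact pkq (hU.comp b) (hV.comp b) (NPC.Poly.cons (NPC.Poly.pair (hL.comp b) (hj.comp b))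
    (NPC.Poly.const [])) (NPC.Poly.cons (pcol (NPC.Poly.const 0) (NPC.Poly.snd NPC.Poly.id))
      (NPC.Poly.const []))

theorem pk2 (hU : Poly U) (hV : Poly V) {j : α → ℕ} {T : α → List Ray} {L L' : α → List ℕ}
    (hj : Poly j) (hT : Poly T) (hL : Poly L) (hL' : Poly L') :
    Poly (fun a => k2 (U a).length (V a).length (j a) (T a) (L a) (L' a)) := by
  have b : Poly (fun q : α × ℕ => q.1) := NPC.Poly.fst NPC.Poly.id
  have b2 : Poly (fun q : α × ℕ => q.2) := NPC.Poly.snd NPC.Poly.id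
  have c : Poly (fun q : (α × ℕ) × ℕ => q.1.1) := NPC.Poly.fst (NPC.Poly.fst NPC.Poly.id)
  have c2 : Poly (fun q : (α × ℕ) × ℕ => q.1.2) := NPC.Poly.snd (NPC.Poly.fst NPC.Poly.id)
  have c3 : Poly (fun q : (α × ℕ) × ℕ => q.2) := NPC.Poly.snd NPC.Poly.id
  have hR : Poly (fun a => ((L a, j a) : Ray)) := NPC.Poly.pair hL hj
  have hR' : Poly (fun a => ((L' a, j a) : Ray)) := NPC.Poly.pair hL' hj
  unfold k2
  refine NPC.Poly.cons (pkn hU hV (NPC.Poly.pair (puni hU hL hL')
    (NPC.Poly.add hj (NPC.Poly.const 1)))) ?_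
  refine NPC.Poly.flatMap (F := fun a c =>
    kq (U a).length (V a).length ((L a, j a) :: (L' a, j a) :: T a)
      ((0, c) :: (1, 0) :: cols (T a)) ::
      (((List.range (V a).length).map fun c' => kq (U a).length (V a).length
        [(L a, j a), (L' a, j a)] [(0, c), (0, c')]) ++
        (List.range (U a).length).map fun i => kq (U a).length (V a).length
          [(L a, j a), (L' a, j a)] [(0, c), (2, i)])) (NPC.Poly.range_length hV) ?_
  refine NPC.Poly.cons ?_ (NPC.Poly.append ?_ ?_)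
  · exact pkq (hU.comp b) (hV.comp b) (NPC.Poly.cons (hR.comp b) (NPC.Poly.cons (hR'.comp b)
      (hT.comp b))) (NPC.Poly.cons (pcol (NPC.Poly.const 0) b2) (NPC.Poly.cons
        (NPC.Poly.const _) (pcols (hT.comp b))))
  · refine NPC.Poly.map (F := fun (q : α × ℕ) c' => kq (U q.1).length (V q.1).length
      [(L q.1, j q.1), (L' q.1, j q.1)] [(0, q.2), (0, c')])
      (NPC.Poly.range_length (hV.comp b)) ?_
    exact pkq (hU.comp c) (hV.comp c) (NPC.Poly.cons (hR.comp c) (NPC.Poly.cons (hR'.comp c)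
      (NPC.Poly.const []))) (NPC.Poly.cons (pcol (NPC.Poly.const 0) c2) (NPC.Poly.cons
        (pcol (NPC.Poly.const 0) c3) (NPC.Poly.const [])))
  · refine NPC.Poly.map (F := fun (q : α × ℕ) i => kq (U q.1).length (V q.1).length
      [(L q.1, j q.1), (L' q.1, j q.1)] [(0, q.2), (2, i)])
      (NPC.Poly.range_length (hU.comp b)) ?_
    exact pkq (hU.comp c) (hV.comp c) (NPC.Poly.cons (hR.comp c) (NPC.Poly.cons (hR'.comp c)
      (NPC.Poly.const []))) (NPC.Poly.cons (pcol (NPC.Poly.const 0) c2) (NPC.Poly.cons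
        (pcol (NPC.Poly.const 2) c3) (NPC.Poly.const [])))

theorem pstepK (hU : Poly U) (hV : Poly V) {j : α → ℕ} {C : α → List (List ℕ)}
    {T : α → List Ray} (hj : Poly j) (hC : Poly C) (hT : Poly T) :
    Poly (fun a => stepK (U a).length (V a).length (j a) (C a) (T a)) := by
  have b : Poly (fun q : α × List ℕ => q.1) := NPC.Poly.fst NPC.Poly.id
  have b2 : Poly (fun q : α × List ℕ => q.2) := NPC.Poly.snd NPC.Poly.id
  have c : Poly (fun q : (α × List ℕ) × List ℕ => q.1.1) :=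
    NPC.Poly.fst (NPC.Poly.fst NPC.Poly.id)
  have c2 : Poly (fun q : (α × List ℕ) × List ℕ => q.1.2) :=
    NPC.Poly.snd (NPC.Poly.fst NPC.Poly.id)
  have c3 : Poly (fun q : (α × List ℕ) × List ℕ => q.2) := NPC.Poly.snd NPC.Poly.id
  unfold stepK
  refine NPC.Poly.cons (pkq hU hV hT (pcols hT)) (NPC.Poly.append ?_ ?_)
  · exact NPC.Poly.flatMap (F := fun a L => k1 (U a).length (V a).length (j a) L) hC
      (pk1 (hU.comp b) (hV.comp b) (hj.comp b) b2)
  · refine NPC.Poly.flatMap (F := fun a L => (C a).flatMap fun L' =>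
      k2 (U a).length (V a).length (j a) (T a) L L') hC ?_
    exact NPC.Poly.flatMap (F := fun (q : α × List ℕ) L' =>
      k2 (U q.1).length (V q.1).length (j q.1) (T q.1) q.2 L') (hC.comp b)
      (pk2 (hU.comp c) (hV.comp c) (hj.comp c) (hT.comp c) c2 c3)

theorem pfinK (hU : Poly U) (hV : Poly V) {T : α → List Ray} (hT : Poly T) :
    Poly (fun a => finK (U a).length (V a).length (T a)) := by
  have b : Poly (fun q : α × ℕ => q.1) := NPC.Poly.fst NPC.Poly.id
  have b2 : Poly (fun q : α × ℕ => q.2) := NPC.Poly.snd NPC.Poly.id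
  unfold finK
  refine NPC.Poly.cons (pkq hU hV hT (pcols hT)) ?_
  refine NPC.Poly.map (F := fun a i => kq (U a).length (V a).length (([i], 0) :: T a)
    ((1, 0) :: cols (T a))) (NPC.Poly.range_length hU) ?_
  exact pkq (hU.comp b) (hV.comp b) (NPC.Poly.cons (NPC.Poly.pair (NPC.Poly.cons b2
    (NPC.Poly.const [])) (NPC.Poly.const 0)) (hT.comp b))
    (NPC.Poly.cons (NPC.Poly.const _) (pcols (hT.comp b)))

end

end Pool.Agent.H54.FD
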