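import Pool.Agent.H54.FD.Small

/-! The meaning of the parts of the algorithm. -/

set_option autoImplicit false

namespace Pool.Agent.H54.FD

open Finset Matrix Pool.Agent.H622R3.SM
open Pool.Agent.H37.CH (Src Key sO sz sz_mul sz_pos sz_neg sz_zero sz_eq_zero sz_nonneg sz_lt)

variable {m n : ℕ} {A : Matrix (Fin m) (Fin n) ℝ} {b β : Fin m → ℝ} {j k : ℕ}

/-! ### Supports -/

/-- the list is the support of the vector -/
def Sup (v : Fin m → ℝ) (L : List ℕ) : Prop := ∀ i : Fin m, v i ≠ 0 ↔ (i : ℕ) ∈ L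

/-- increasing lists -/
def Can (m : ℕ) (L : List ℕ) : Prop := L = (List.range m).filter fun i => decide (i ∈ L)

theorem Can.lt {L : List ℕ} (h : Can m L) {i : ℕ} (hi : i ∈ L) : i < m := by
  unfold Can at h
  rw [h] at hi
  exact List.mem_range.1 (List.mem_filter.1 hi).1

theorem can_ext {L L' : List ℕ} (h : Can m L) (h' : Can m L') (he : ∀ i < m, i ∈ L ↔ i ∈ L') :
    L = L' := by
  unfold Can at h h'
  rw [h, h']
  refine List.filter_congr fun i hi => ?_
  rw [decide_eq_decide]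
  exact he i (List.mem_range.1 hi)

theorem mem_uni {L L' : List ℕ} {i : ℕ} : i ∈ uni m L L' ↔ i < m ∧ (i ∈ L ∨ i ∈ L') := by
  simp [uni, List.mem_filter]

theorem can_uni (L L' : List ℕ) : Can m (uni m L L') := by
  unfold Can
  conv_lhs => unfold uni
  refine List.filter_congr fun i hi => ?_
  rw [← Bool.decide_or, decide_eq_decide, mem_uni]
  simp [List.mem_range.1 hi]

theorem can_unit {i : ℕ} (hi : i < m) : Can m [i] := by
  unfold Can
  have h1 : (List.range m).filter (fun i' => decide (i' ∈ [i])) =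
      (List.range m).filter (fun i' => i' == i) := by
    refine List.filter_congr fun i' _ => ?_
    by_cases h : i' = i <;> simp [h]
  rw [h1, List.filter_beq, List.count_range, if_pos (by simpa using hi)]
  rfl

theorem sup_ext {v : Fin m → ℝ} {L L' : List ℕ} (h : Can m L) (h' : Can m L') (hs : Sup v L)
    (hs' : Sup v L') : L = L' :=
  can_ext h h' fun i hi => (hs ⟨i, hi⟩).symm.trans (hs' ⟨i, hi⟩)

theorem Sup.smul {v : Fin m → ℝ} {L : List ℕ} (h : Sup v L) {t : ℝ} (ht : t ≠ 0) :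
    Sup (t • v) L := fun i => by
  rw [← h i]
  simp [ht]

/-- the list is the support of an elementary combination -/
def Good (A : Matrix (Fin m) (Fin n) ℝ) (j : ℕ) (L : List ℕ) : Prop :=
  Can m L ∧ ∃ v, Elem A j v ∧ Sup v L

theorem exists_ne {v : Fin m → ℝ} (h : v ≠ 0) : ∃ i, v i ≠ 0 := by
  by_contra hc
  push Not at hc
  exact h (funext hc)

theorem headD_mem {L : List ℕ} {i : ℕ} (h : i ∈ L) : L.headD 0 ∈ L := by
  cases L with
  | nil => simp at h
  | cons a L => simp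

theorem ray_of {v : Fin m → ℝ} {L : List ℕ} (hL : Can m L) (hv : Elem A j v) (hs : Sup v L) :
    ∃ t : ℝ, 0 < t ∧ RayV A (L, j) (t • v) := by
  obtain ⟨i, hi⟩ := exists_ne hv.2.1
  have h1 : L.headD 0 ∈ L := headD_mem ((hs i).1 hi)
  have h2 : L.headD 0 < m := hL.lt h1
  have h3 : v ⟨_, h2⟩ ≠ 0 := (hs ⟨_, h2⟩).2 h1
  have h4 : 0 < v ⟨_, h2⟩ := lt_of_le_of_ne (hv.1 _) h3.symm
  refine ⟨(v ⟨_, h2⟩)⁻¹, inv_pos.2 h4, hv.smul (inv_pos.2 h4), hs.smul (inv_pos.2 h4).ne', h2, ?_⟩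
  simp only [Pi.smul_apply, smul_eq_mul]
  exact inv_mul_cancel₀ h3

theorem Good.ray {L : List ℕ} (h : Good A j L) : ∃ v, RayV A (L, j) v := by
  obtain ⟨hL, v, hv, hs⟩ := h
  obtain ⟨t, -, h⟩ := ray_of hL hv hs
  exact ⟨_, h⟩

/-- elementary combinations with the same support are proportional -/
theorem elem_prop {v w : Fin m → ℝ} (hv : Elem A j v) (hw : Elem A j w)
    (h : ∀ i, v i = 0 → w i = 0) : ∃ s : ℝ, 0 < s ∧ w = s • v := by
  obtain ⟨s, rfl⟩ := hv.2.2.2 w hw.2.2.1 h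
  refine ⟨s, ?_, rfl⟩
  obtain ⟨i, hi⟩ := exists_ne hw.2.1
  have h1 := hw.1 i
  have h2 := hv.1 i
  simp only [Pi.smul_apply, smul_eq_mul] at hi h1
  have h3 : 0 < v i := lt_of_le_of_ne h2 (fun h => hi (by rw [← h, mul_zero]))
  by_contra h4
  have h5 : s < 0 := lt_of_le_of_ne (not_lt.1 h4) (fun h => hi (by rw [h, zero_mul]))
  nlinarith

theorem RayV.unique {R : Ray} {v w : Fin m → ℝ} (hv : RayV A R v) (hw : RayV A R w) : v = w := by
  obtain ⟨s, -, rfl⟩ := elem_prop hv.el hw.el fun i hi => by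
    by_contra h
    exact (hv.sup i).2 ((hw.sup i).1 h) hi
  obtain ⟨h1, h2⟩ := hv.hd
  obtain ⟨h3, h4⟩ := hw.hd
  simp only [Pi.smul_apply, smul_eq_mul, h2, mul_one] at h4
  rw [h4, one_smul]

/-! ### The fixed unknowns -/

/-- the vector of a fixed unknown -/
def RayT (A : Matrix (Fin m) (Fin n) ℝ) (β : Fin m → ℝ) (R : Ray) (w : Fin m → ℝ) : Prop :=
  RayV A R w ∧ (∃ h : R.2 < n, dir A w ⟨R.2, h⟩ ≠ 0) ∧ dot β w = 0

/-- the columns of the fixed unknowns -/
noncomputable def cT (A : Matrix (Fin m) (Fin n) ℝ) (b : Fin m → ℝ) (T : List Ray) :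
    List (Fin m → ℝ) := (cols T).map (cv A b)

/-- The list `T` describes the right-hand side `β` after fixing the unknowns from `k` on. -/
structure TV (A : Matrix (Fin m) (Fin n) ℝ) (b : Fin m → ℝ) (k : ℕ) (T : List Ray)
    (ws : List (Fin m → ℝ)) (β : Fin m → ℝ) : Prop where
  /-- vectors -/
  f : List.Forall₂ (RayT A β) T ws
  /-- columns -/
  ge : ∀ R ∈ T, k ≤ R.2
  /-- sorted -/
  sorted : T.Pairwise fun R R' => R.2 < R'.2
  /-- the right-hand side -/
  y : ∃ y : ℕ → ℝ, β = b - ∑ l ∈ Finset.range (cT A b T).length, y l • (cT A b T).getD l 0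
  /-- the right-hand side -/
  x : ∃ x : Fin n → ℝ, ∀ i, β i = b i - ∑ c, A i c * x c

theorem len_cols (T : List Ray) : (cols T).length = T.length := by simp [cols]

theorem cv_col {c : ℕ} (hc : c < n) : cv A b (0, c) = fun i => A i ⟨c, hc⟩ := by
  funext i
  simp [cv, hc]

theorem cv_rhs : cv A b (1, 0) = b := by
  funext i
  simp [cv]

theorem dot_cv_col {c : ℕ} (hc : c < n) (w : Fin m → ℝ) :
    dot (cv A b (0, c)) w = dir A w ⟨c, hc⟩ := by
  rw [cv_col hc, dot_col]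

theorem dot_unit (i : Fin m) (w : Fin m → ℝ) : dot (cv A b (2, i)) w = w i := by
  unfold dot
  rw [Finset.sum_eq_single i]
  · simp [cv]
  · intro i' _ hi'
    have : ¬ ((i : ℕ) = i') := fun h => hi' (Fin.ext h.symm)
    simp [cv, this]
  · intro h
    exact absurd (mem_univ i) h

theorem f_ray {T : List Ray} {ws : List (Fin m → ℝ)} (h : List.Forall₂ (RayT A β) T ws) :
    List.Forall₂ (RayV A) T ws := h.imp fun _ _ h => h.1

theorem f_col {T : List Ray} {ws : List (Fin m → ℝ)} (h : List.Forall₂ (RayT A β) T ws) {c : ℕ}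
    (hc : c < n) (hT : ∀ R ∈ T, c < R.2) : ∀ w ∈ ws, dot (cv A b (0, c)) w = 0 := by
  intro w hw
  rw [dot_cv_col hc]
  induction h with
  | nil => simp at hw
  | @cons R w' T ws h1 _ ih =>
    rcases List.mem_cons.1 hw with rfl | hw
    · exact h1.1.el.2.2.1 _ (hT R (by simp))
    · exact ih (fun R' hR' => hT R' (by simp [hR'])) hw

theorem f_rhs {T : List Ray} {ws : List (Fin m → ℝ)} (h : List.Forall₂ (RayT A β) T ws) :
    ∀ w ∈ ws, dot β w = 0 := by
  intro w hw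
  induction h with
  | nil => simp at hw
  | @cons R w' T ws h1 _ ih =>
    rcases List.mem_cons.1 hw with rfl | hw
    · exact h1.2.2
    · exact ih hw

theorem XD_T_ne {T : List Ray} {ws : List (Fin m → ℝ)} (h : List.Forall₂ (RayT A β) T ws)
    (hs : T.Pairwise fun R R' => R.2 < R'.2) : XD ws (cT A b T) ≠ 0 := by
  induction h with
  | nil =>
    have : cT A b [] = [] := rfl
    rw [this, XD_nil]
    exact one_ne_zero
  | @cons R w T ws h1 h2 ih =>
    obtain ⟨hc, hd⟩ := h1.2.1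
    rw [List.pairwise_cons] at hs
    have e : cT A b (R :: T) = cv A b (0, R.2) :: cT A b T := rfl
    rw [e, XD_col w _ _ _ (f_col h2 hc fun R' hR' => hs.1 R' hR'), dot_cv_col hc]
    exact mul_ne_zero hd (ih hs.2)

section

variable {g : Reg → ℝ} (hg : Rg g A b)

include hg

theorem qT_eq {T : List Ray} {ws : List (Fin m → ℝ)} (h : List.Forall₂ (RayV A) T ws) :
    qT (sO g) m n T = sz (XD ws (cT A b T)) := by
  unfold qT
  split_ifs with h0
  · subst h0
    have : ws = [] := List.forall₂_nil_left_iff.1 h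
    subst this
    have : cT A b [] = [] := rfl
    rw [this, XD_nil, sz_pos one_pos]
  · exact qs_eq hg h (len_cols T) (List.length_pos_iff.2 h0)

theorem nu_eq {R : Ray} {v : Fin m → ℝ} (h : RayV A R v) {c : ℕ} (hc : c < n) :
    nu (sO g) m n R c = sz (dir A v ⟨c, hc⟩) := by
  unfold nu
  rw [qs_eq hg (List.Forall₂.cons h List.Forall₂.nil) rfl le_rfl]
  have : [((0, c) : Col)].map (cv A b) = [cv A b (0, c)] := rfl
  rw [this, XD_col _ _ _ _ (by simp), XD_nil, mul_one, dot_cv_col hc]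

theorem q2_eq {R R' : Ray} {v v' : Fin m → ℝ} (h : RayV A R v) (h' : RayV A R' v') (u u' : Col) :
    qs (sO g) m n [R, R'] [u, u'] = sz (dot (cv A b u) v * dot (cv A b u') v' -
      dot (cv A b u) v' * dot (cv A b u') v) := by
  rw [qs_eq hg (List.Forall₂.cons h (List.Forall₂.cons h' List.Forall₂.nil)) rfl (by simp)]
  have : [u, u'].map (cv A b) = [cv A b u, cv A b u'] := rfl
  rw [this, XD_two _ _ _ _ _ _ (by simp) (by simp), XD_nil, mul_one]

theorem q1T_eq {T : List Ray} {ws : List (Fin m → ℝ)} (hT : TV A b k T ws β) {R : Ray}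
    {v : Fin m → ℝ} (h : RayV A R v) :
    qs (sO g) m n (R :: T) ((1, 0) :: cols T) * qT (sO g) m n T = sz (dot β v) := by
  have hl := hT.f.length_eq
  rw [qs_eq hg (List.Forall₂.cons h (f_ray hT.f)) (by simp [len_cols]) (by simp),
    qT_eq hg (f_ray hT.f)]
  have e : ((1, 0) :: cols T).map (cv A b) = b :: cT A b T := by
    rw [List.map_cons, cv_rhs]
    rfl
  obtain ⟨y, hy⟩ := hT.y
  rw [e, ← XD_add (v :: ws) (cT A b T) b β (by simp [cT, cols, hl]) y hy,
    XD_col v β ws _ (f_rhs hT.f), sz_mul]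
  have h0 := XD_T_ne (b := b) hT.f hT.sorted
  have h1 : sz (XD ws (cT A b T)) * sz (XD ws (cT A b T)) = 1 := by
    rw [← sz_mul, sz_pos (mul_self_pos.2 h0)]
  rw [mul_assoc, h1, mul_one]

theorem q2T_eq {T : List Ray} {ws : List (Fin m → ℝ)} (hT : TV A b k T ws β) {R R' : Ray}
    {v v' : Fin m → ℝ} (h : RayV A R v) (h' : RayV A R' v') {c : ℕ} (hc : c < n) (hck : c < k) :
    qs (sO g) m n (R :: R' :: T) ((0, c) :: (1, 0) :: cols T) * qT (sO g) m n T =
      sz (dir A v ⟨c, hc⟩ * dot β v' - dir A v' ⟨c, hc⟩ * dot β v) := by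
  have hl := hT.f.length_eq
  rw [qs_eq hg (List.Forall₂.cons h (List.Forall₂.cons h' (f_ray hT.f))) (by simp [len_cols])
    (by simp), qT_eq hg (f_ray hT.f)]
  have e : ((0, c) :: (1, 0) :: cols T).map (cv A b) = cv A b (0, c) :: b :: cT A b T := by
    rw [List.map_cons, List.map_cons, cv_rhs]
    rfl
  obtain ⟨y, hy⟩ := hT.y
  have h2 : XD (v :: v' :: ws) (cv A b (0, c) :: b :: cT A b T) =
      XD (v :: v' :: ws) (cv A b (0, c) :: β :: cT A b T) := by
    rw [XD_swap v v' b (cv A b (0, c)), XD_swap v v' β (cv A b (0, c))]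
    congr 1
    refine (XD_add (v :: v' :: ws) (cv A b (0, c) :: cT A b T) b β (by simp [cT, cols, hl])
      (fun l => if l = 0 then 0 else y (l - 1)) ?_).symm
    rw [List.length_cons, Finset.sum_range_succ']
    simpa using hy
  rw [e, h2, XD_two _ _ _ _ _ _ (f_col hT.f hc fun R'' hR'' => lt_of_lt_of_le hck (hT.ge R'' hR''))
    (f_rhs hT.f), sz_mul]
  have h0 := XD_T_ne (b := b) hT.f hT.sorted
  have h1 : sz (XD ws (cT A b T)) * sz (XD ws (cT A b T)) = 1 := by
    rw [← sz_mul, sz_pos (mul_self_pos.2 h0)]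
  rw [mul_assoc, h1, mul_one, dot_cv_col hc, dot_cv_col hc]

omit hg in
theorem mem_cks {c : ℕ} : c ∈ cks n k ↔ c < n ∧ c < k := by
  simp [cks, List.mem_filter]

/-- The directions are positive multiples of each other. -/
def Par (A : Matrix (Fin m) (Fin n) ℝ) (k : ℕ) (v v' : Fin m → ℝ) (θ : ℝ) : Prop :=
  0 < θ ∧ ∀ c : Fin n, (c : ℕ) < k → dir A v' c = θ * dir A v c

/-- The direction is not zero. -/
def Nz (A : Matrix (Fin m) (Fin n) ℝ) (k : ℕ) (v : Fin m → ℝ) : Prop :=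
  ∃ c : Fin n, (c : ℕ) < k ∧ dir A v c ≠ 0

theorem nz_eq {R : Ray} {v : Fin m → ℝ} (h : RayV A R v) :
    nz (sO g) m n R (cks n k) = true ↔ Nz A k v := by
  simp only [nz, List.any_eq_true, mem_cks, decide_eq_true_eq]
  constructor
  · rintro ⟨c, ⟨hc, hck⟩, h1⟩
    rw [nu_eq hg h hc, Ne, sz_eq_zero] at h1
    exact ⟨⟨c, hc⟩, hck, h1⟩
  · rintro ⟨c, hck, h1⟩
    refine ⟨c, ⟨c.2, hck⟩, ?_⟩
    rw [nu_eq hg h c.2, Ne, sz_eq_zero]
    exact h1

theorem par_eq {R R' : Ray} {v v' : Fin m → ℝ} (h : RayV A R v) (h' : RayV A R' v')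
    (hn : Nz A k v) : par (sO g) m n R R' (cks n k) = true ↔ ∃ θ, Par A k v v' θ := by
  simp only [par, List.all_eq_true, mem_cks, Bool.and_eq_true, decide_eq_true_eq]
  constructor
  · intro hp
    obtain ⟨c0, h0, h1⟩ := hn
    obtain ⟨h2, h3⟩ := hp c0 ⟨c0.2, h0⟩
    rw [nu_eq hg h c0.2, nu_eq hg h' c0.2] at h2
    have h4 : 0 < dir A v c0 * dir A v' c0 := by
      have e : sz (dir A v c0 * dir A v' c0) = 1 := by
        rw [sz_mul]
        have h2' : sz (dir A v c0) = sz (dir A v' c0) := h2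
        rw [← h2', ← sz_mul, sz_pos (mul_self_pos.2 h1)]
      by_contra hc
      rcases lt_or_eq_of_le (not_lt.1 hc) with h5 | h5
      · rw [sz_neg h5] at e
        norm_num at e
      · rw [h5, sz_zero] at e
        norm_num at e
    refine ⟨dir A v' c0 / dir A v c0, ?_, fun c hc => ?_⟩
    · have e : dir A v' c0 / dir A v c0 = dir A v c0 * dir A v' c0 / (dir A v c0 * dir A v c0) := by
        field_simp
      rw [e]
      exact div_pos h4 (mul_self_pos.2 h1)
    · have h5 := h3 c ⟨c.2, hc⟩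
      rw [q2_eq hg h h', sz_eq_zero, dot_cv_col c0.2, dot_cv_col c0.2, dot_cv_col c.2,
        dot_cv_col c.2] at h5
      have h6 : dir A v c0 * dir A v' c = dir A v' c0 * dir A v c := by
        have : dir A v c0 * dir A v' c - dir A v' c0 * dir A v c = 0 := h5
        linarith
      field_simp
      linarith
  · rintro ⟨θ, hθ, hd⟩ c ⟨hc, hck⟩
    constructor
    · rw [nu_eq hg h hc, nu_eq hg h' hc, hd ⟨c, hc⟩ hck, sz_mul, sz_pos hθ, one_mul]
    · rintro c' ⟨hc', hck'⟩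
      rw [q2_eq hg h h', sz_eq_zero, dot_cv_col hc, dot_cv_col hc, dot_cv_col hc',
        dot_cv_col hc', hd ⟨c, hc⟩ hck, hd ⟨c', hc'⟩ hck']
      ring

theorem cmpB_eq {T : List Ray} {ws : List (Fin m → ℝ)} (hT : TV A b k T ws β) {R R' : Ray}
    {v v' : Fin m → ℝ} (h : RayV A R v) (h' : RayV A R' v') {θ : ℝ} (hp : Par A k v v' θ) {c : ℕ}
    (hc : c < n) (hck : c < k) (h0 : dir A v ⟨c, hc⟩ ≠ 0) :
    cmpB (sO g) m n T R R' c = sz (dot β (θ • v - v')) := by
  unfold cmpB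
  rw [q2T_eq hg hT h h' hc hck, nu_eq hg h hc, hp.2 ⟨c, hc⟩ hck, ← sz_mul]
  have e : dir A v ⟨c, hc⟩ * (dir A v ⟨c, hc⟩ * dot β v' - θ * dir A v ⟨c, hc⟩ * dot β v) =
      -1 * (dir A v ⟨c, hc⟩ * dir A v ⟨c, hc⟩ * dot β (θ • v - v')) := by
    rw [dot_sub, dot_smul]
    ring
  rw [e, sz_mul, sz_mul, sz_neg (by norm_num), sz_pos (mul_self_pos.2 h0)]
  ring

theorem cmpI_eq {R R' : Ray} {v v' : Fin m → ℝ} (h : RayV A R v) (h' : RayV A R' v') {θ : ℝ}
    (hp : Par A k v v' θ) {c : ℕ} (hc : c < n) (hck : c < k) (h0 : dir A v ⟨c, hc⟩ ≠ 0)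
    (i : Fin m) : cmpI (sO g) m n R R' c i = sz ((θ • v - v') i) := by
  unfold cmpI
  rw [q2_eq hg h h', nu_eq hg h hc, dot_cv_col hc, dot_cv_col hc, dot_unit, dot_unit,
    hp.2 ⟨c, hc⟩ hck, ← sz_mul]
  have e : dir A v ⟨c, hc⟩ * (dir A v ⟨c, hc⟩ * v' i - θ * dir A v ⟨c, hc⟩ * v i) =
      -1 * (dir A v ⟨c, hc⟩ * dir A v ⟨c, hc⟩ * (θ • v - v') i) := by
    simp only [Pi.sub_apply, Pi.smul_apply, smul_eq_mul]
    ring
  rw [e, sz_mul, sz_mul, sz_neg (by norm_num), sz_pos (mul_self_pos.2 h0)]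
  ring

theorem better_eq {T : List Ray} {ws : List (Fin m → ℝ)} (hT : TV A b k T ws β) {R R' : Ray}
    {v v' : Fin m → ℝ} (h : RayV A R v) (h' : RayV A R' v') {θ : ℝ} (hp : Par A k v v' θ)
    (hn : Nz A k v) : better (sO g) m n T R R' (cks n k) = true ↔ Pos β (θ • v - v') := by
  have key : ∀ c : ℕ, ∀ hc : c < n, c < k → dir A v ⟨c, hc⟩ ≠ 0 →
      ((0 < cmpB (sO g) m n T R R' c ∨ (cmpB (sO g) m n T R R' c = 0 ∧
        ∃ i < m, cmpI (sO g) m n R R' c i < 0 ∧ ∀ i' < m, i ≤ i' ∨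
          cmpI (sO g) m n R R' c i' = 0)) ↔ Pos β (θ • v - v')) := by
    intro c hc hck h0
    rw [cmpB_eq hg hT h h' hp hc hck h0]
    unfold Pos
    have e1 : 0 < sz (dot β (θ • v - v')) ↔ 0 < dot β (θ • v - v') := by
      rw [← not_le, ← not_le]
      refine not_congr ⟨fun h => ?_, fun h => ?_⟩
      · by_contra h2
        rw [sz_pos (not_le.1 h2)] at h
        norm_num at h
      · rcases lt_or_eq_of_le h with h2 | h2
        · rw [sz_neg h2]; norm_num
        · rw [h2, sz_zero]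
    rw [e1, sz_eq_zero]
    refine or_congr Iff.rfl (and_congr Iff.rfl ?_)
    constructor
    · rintro ⟨i, hi, h1, h2⟩
      have h1' : cmpI (sO g) m n R R' c ((⟨i, hi⟩ : Fin m) : ℕ) < 0 := h1
      rw [cmpI_eq hg h h' hp hc hck h0, sz_lt] at h1'
      refine ⟨⟨i, hi⟩, h1', fun i' hi' => ?_⟩
      rcases h2 i' i'.2 with h3 | h3
      · exact absurd hi' (not_lt.2 h3)
      · rwa [cmpI_eq hg h h' hp hc hck h0, sz_eq_zero] at h3
    · rintro ⟨i, h1, h2⟩
      refine ⟨i, i.2, ?_, fun i' hi' => ?_⟩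
      · rwa [cmpI_eq hg h h' hp hc hck h0, sz_lt]
      · by_cases h3 : (i : ℕ) ≤ i'
        · exact Or.inl h3
        · right
          have h4 := h2 ⟨i', hi'⟩ (not_le.1 h3)
          have : cmpI (sO g) m n R R' c ((⟨i', hi'⟩ : Fin m) : ℕ) = 0 := by
            rw [cmpI_eq hg h h' hp hc hck h0, sz_eq_zero]
            exact h4
          exact this
  simp only [better, List.any_eq_true, mem_cks, Bool.and_eq_true, Bool.or_eq_true,
    decide_eq_true_eq, List.all_eq_true, List.mem_range]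
  constructor
  · rintro ⟨c, ⟨hc, hck⟩, h1, h2⟩
    rw [nu_eq hg h hc, Ne, sz_eq_zero] at h1
    exact (key c hc hck h1).1 h2
  · intro hP
    obtain ⟨c, hck, h1⟩ := hn
    refine ⟨c, ⟨c.2, hck⟩, ?_, (key c c.2 hck h1).2 hP⟩
    rw [nu_eq hg h c.2, Ne, sz_eq_zero]
    exact h1

end

end Pool.Agent.H54.FD
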