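import Pool.Agent.H54.FD.Key
import Pool.Agent.H54.FD.Choose

/-! Small determinants. -/

set_option autoImplicit false

namespace Pool.Agent.H54.FD

open Finset Matrix

variable {m n : ℕ}

theorem XD_nil : XD ([] : List (Fin m → ℝ)) [] = 1 := by
  unfold XD
  exact Matrix.det_fin_zero

theorem XD_col (v u : Fin m → ℝ) (vs us : List (Fin m → ℝ))
    (h : ∀ w ∈ vs, dot u w = 0) : XD (v :: vs) (u :: us) = dot u v * XD vs us := by
  unfold XD
  have h1 := Matrix.det_succ_column_zero (Matrix.of fun a b : Fin (vs.length + 1) =>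
    dot ((u :: us).getD b 0) ((v :: vs).getD a 0))
  refine Eq.trans h1 ?_
  rw [Fin.sum_univ_succ, Finset.sum_eq_zero, add_zero]
  · simp only [Fin.val_zero, pow_zero, one_mul, Matrix.of_apply, List.getD_cons_zero]
    congr 1
  · intro i _
    have e : dot ((u :: us).getD ((0 : Fin (vs.length + 1)) : ℕ) 0)
        ((v :: vs).getD ((i.succ : Fin (vs.length + 1)) : ℕ) 0) = 0 := by
      simp only [Fin.val_zero, List.getD_cons_zero, Fin.val_succ, List.getD_cons_succ]
      refine h _ ?_
      rw [List.getD_eq_getElem _ _ i.2]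
      exact List.getElem_mem _
    simp only [Matrix.of_apply]
    rw [e, mul_zero, zero_mul]

/-- a column may be changed by a combination of the columns after it -/
theorem XD_add (vs us : List (Fin m → ℝ)) (u u' : Fin m → ℝ) (hl : vs.length = us.length + 1)
    (x : ℕ → ℝ) (hu : u' = u - ∑ l ∈ Finset.range us.length, x l • us.getD l 0) :
    XD vs (u' :: us) = XD vs (u :: us) := by
  unfold XD
  generalize hM : (Matrix.of fun a b : Fin vs.length => dot ((u :: us).getD b 0) (vs.getD a 0)) = M
  have hpos : 0 < vs.length := by omega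
  let j0 : Fin vs.length := ⟨0, hpos⟩
  let c : Fin vs.length → ℝ := fun i => if (i : ℕ) = 0 then 1 else - x (i - 1)
  have h1 := Matrix.det_updateCol_sum M j0 c
  have hc : c j0 = 1 := if_pos rfl
  rw [hc, one_smul] at h1
  rw [← h1]
  congr 1
  ext a b
  rw [Matrix.updateCol_apply]
  split_ifs with hb
  · subst hb
    simp only [Matrix.of_apply]
    have e1 : ((u' :: us).getD ((j0 : Fin vs.length) : ℕ) 0) = u' := rfl
    rw [e1, hu, dot_sub_left]
    have eM : ∀ i : Fin vs.length, M a i = dot ((u :: us).getD i 0) (vs.getD a 0) := fun i => by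
      rw [← hM]
      rfl
    generalize vs.getD a 0 = w at eM ⊢
    have e2 : dot (∑ l ∈ Finset.range us.length, x l • us.getD l 0) w =
        ∑ l ∈ Finset.range us.length, x l * dot (us.getD l 0) w := by
      have : ∀ (s : Finset ℕ), dot (∑ l ∈ s, x l • us.getD l 0) w =
          ∑ l ∈ s, x l * dot (us.getD l 0) w := by
        classical
        intro s
        induction s using Finset.induction_on with
        | empty => simp [dot]
        | insert l s hl ih =>
          rw [Finset.sum_insert hl, Finset.sum_insert hl, ← ih, ← dot_smul_left]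
          simp [dot, add_mul, Finset.sum_add_distrib]
      exact this _
    rw [e2]
    have e3 : ∀ i : Fin vs.length, c i • M a i =
        (fun k : ℕ => if k = 0 then dot u w else
          - (x (k - 1) * dot (us.getD (k - 1) 0) w)) i := by
      intro i
      rw [eM]
      simp only [c, smul_eq_mul]
      split_ifs with hi
      · rw [hi, List.getD_cons_zero, one_mul]
      · obtain ⟨k, hk⟩ := Nat.exists_eq_succ_of_ne_zero hi
        rw [hk, List.getD_cons_succ]
        simp
    rw [Finset.sum_congr rfl fun i _ => e3 i, Fin.sum_univ_eq_sum_range (fun k : ℕ =>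
      if k = 0 then dot u w else
          - (x (k - 1) * dot (us.getD (k - 1) 0) w)) vs.length, hl,
      Finset.sum_range_succ']
    simp only [Nat.add_eq_zero_iff, one_ne_zero, and_false, if_false, if_true,
      Nat.add_sub_cancel, Finset.sum_neg_distrib]
    ring
  · rw [← hM]
    simp only [Matrix.of_apply]
    have hb' : (b : ℕ) ≠ 0 := fun h => hb (Fin.ext h)
    obtain ⟨k, hk⟩ := Nat.exists_eq_succ_of_ne_zero hb'
    rw [hk, List.getD_cons_succ, List.getD_cons_succ]

theorem XD_two (v v' u u' : Fin m → ℝ) (vs us : List (Fin m → ℝ))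
    (h : ∀ w ∈ vs, dot u w = 0) (h' : ∀ w ∈ vs, dot u' w = 0) :
    XD (v :: v' :: vs) (u :: u' :: us) =
      (dot u v * dot u' v' - dot u v' * dot u' v) * XD vs us := by
  have h1 := Matrix.det_succ_column_zero (Matrix.of fun a b : Fin ((vs.length + 1) + 1) =>
    dot ((u :: u' :: us).getD b 0) ((v :: v' :: vs).getD a 0))
  have h2 : XD (v :: v' :: vs) (u :: u' :: us) = (Matrix.of fun a b : Fin ((vs.length + 1) + 1) =>
    dot ((u :: u' :: us).getD b 0) ((v :: v' :: vs).getD a 0)).det := rfl
  rw [h2, h1, Fin.sum_univ_succ, Fin.sum_univ_succ, Finset.sum_eq_zero, add_zero]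
  · have a1 : ((Matrix.of fun a b : Fin ((vs.length + 1) + 1) =>
        dot ((u :: u' :: us).getD b 0) ((v :: v' :: vs).getD a 0)).submatrix
          ((0 : Fin (vs.length + 1 + 1)).succAbove) Fin.succ).det = XD (v' :: vs) (u' :: us) := rfl
    have a2 : ((Matrix.of fun a b : Fin ((vs.length + 1) + 1) =>
        dot ((u :: u' :: us).getD b 0) ((v :: v' :: vs).getD a 0)).submatrix
          ((Fin.succ 0 : Fin (vs.length + 1 + 1)).succAbove) Fin.succ).det =
        XD (v :: vs) (u' :: us) := by
      unfold XD
      congr 1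
      ext a b
      simp only [Matrix.submatrix_apply, Matrix.of_apply, Fin.val_succ, List.getD_cons_succ]
      congr 1
      refine Fin.cases ?_ (fun a => ?_) a
      · rfl
      · rfl
    rw [a1, a2, XD_col v' u' vs us h', XD_col v u' vs us h']
    simp only [Fin.val_zero, pow_zero, one_mul, Matrix.of_apply, List.getD_cons_zero,
      Fin.val_succ, zero_add, pow_one, List.getD_cons_succ]
    ring
  · intro i _
    have e : dot ((u :: u' :: us).getD ((0 : Fin (vs.length + 1 + 1)) : ℕ) 0)
        ((v :: v' :: vs).getD ((i.succ.succ : Fin (vs.length + 1 + 1)) : ℕ) 0) = 0 := by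
      simp only [Fin.val_zero, List.getD_cons_zero, Fin.val_succ, List.getD_cons_succ]
      refine h _ ?_
      rw [List.getD_eq_getElem _ _ i.2]
      exact List.getElem_mem _
    simp only [Matrix.of_apply]
    rw [e, mul_zero, zero_mul]

/-- exchange of the first two columns -/
theorem XD_swap (v v' u u' : Fin m → ℝ) (vs us : List (Fin m → ℝ)) :
    XD (v :: v' :: vs) (u' :: u :: us) = - XD (v :: v' :: vs) (u :: u' :: us) := by
  unfold XD
  have h01 : (0 : Fin (vs.length + 1 + 1)) ≠ 1 := by simp
  have h := Matrix.det_permute' (Equiv.swap (0 : Fin (vs.length + 1 + 1)) 1)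
    (Matrix.of fun a b : Fin ((vs.length + 1) + 1) =>
      dot ((u :: u' :: us).getD b 0) ((v :: v' :: vs).getD a 0))
  rw [Equiv.Perm.sign_swap h01] at h
  simp only [Units.val_neg, Units.val_one, Int.cast_neg, Int.cast_one, neg_mul, one_mul] at h
  refine Eq.trans ?_ h
  congr 1
  ext a b
  simp only [Matrix.submatrix_apply, Matrix.of_apply, id]
  congr 1
  refine Fin.cases ?_ (fun b => ?_) b
  · rw [Equiv.swap_apply_left]
    rfl
  · refine Fin.cases ?_ (fun b => ?_) b
    · have : (Fin.succ 0 : Fin (vs.length + 1 + 1)) = 1 := rfl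
      rw [this, Equiv.swap_apply_right]
      rfl
    · rw [Equiv.swap_apply_of_ne_of_ne]
      · rfl
      · exact Fin.succ_ne_zero _
      · intro h
        have := congrArg Fin.val h
        simp at this

end Pool.Agent.H54.FD
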