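import Pool.Agent.H54.FD.Alg
import Pool.Agent.H37.CH.Tab

/-! The queries of the computation. -/

set_option autoImplicit false

namespace Pool.Agent.H54.FD

open Pool.Agent.NPC Pool.Agent.H558R2 Pool.Agent.H622R3.SM Pool.Agent.W920.FC
open Pool.Agent.H37.CH (Src Key all_congr' any_congr' flatMap_congr' askT orc len_flatMap_le)

/-- the queries for a ray -/
def k1 (m n j : ℕ) (L : List ℕ) : List Key :=
  (j :: List.range n).map fun c => kq m n [(L, j)] [(0, c)]

/-- the queries for two rays -/
def k2 (m n j : ℕ) (T : List Ray) (L L' : List ℕ) : List Key :=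
  kn m n (uni m L L', j + 1) :: (List.range n).flatMap fun c =>
    kq m n ((L, j) :: (L', j) :: T) ((0, c) :: (1, 0) :: cols T) ::
      (((List.range n).map fun c' => kq m n [(L, j), (L', j)] [(0, c), (0, c')]) ++
        (List.range m).map fun i => kq m n [(L, j), (L', j)] [(0, c), (2, i)])

/-- the queries of a step -/
def stepK (m n j : ℕ) (C : List (List ℕ)) (T : List Ray) : List Key :=
  kq m n T (cols T) :: (C.flatMap (k1 m n j) ++
    C.flatMap fun L => C.flatMap fun L' => k2 m n j T L L')

/-- the last queries -/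
def finK (m n : ℕ) (T : List Ray) : List Key :=
  kq m n T (cols T) :: (List.range m).map fun i => kq m n (([i], 0) :: T) ((1, 0) :: cols T)

section

variable {s s' : Key → ℤ} {m n j k : ℕ} {C : List (List ℕ)} {T : List Ray}

theorem nu_congr (h : ∀ K ∈ stepK m n j C T, s K = s' K) {L : List ℕ} (hL : L ∈ C) {c : ℕ}
    (hc : c = j ∨ c < n) : nu s m n (L, j) c = nu s' m n (L, j) c := by
  unfold nu qs
  rw [h]
  refine List.mem_cons_of_mem _ (List.mem_append_left _ (List.mem_flatMap.2 ⟨L, hL, ?_⟩))
  refine List.mem_map.2 ⟨c, ?_, rfl⟩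
  rcases hc with rfl | hc
  · exact List.mem_cons_self
  · exact List.mem_cons_of_mem _ (List.mem_range.2 hc)

theorem qT_congr (h : s (kq m n T (cols T)) = s' (kq m n T (cols T))) :
    qT s m n T = qT s' m n T := by
  unfold qT qs
  rw [h]

theorem mem_k2 {L L' : List ℕ} (hL : L ∈ C) (hL' : L' ∈ C) {K : Key} (hK : K ∈ k2 m n j T L L') :
    K ∈ stepK m n j C T :=
  List.mem_cons_of_mem _ (List.mem_append_right _ (List.mem_flatMap.2 ⟨L, hL,
    List.mem_flatMap.2 ⟨L', hL', hK⟩⟩))

theorem kn_congr (h : ∀ K ∈ stepK m n j C T, s K = s' K) {L L' : List ℕ} (hL : L ∈ C)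
    (hL' : L' ∈ C) : s (kn m n (uni m L L', j + 1)) = s' (kn m n (uni m L L', j + 1)) :=
  h _ (mem_k2 hL hL' List.mem_cons_self)

theorem qs_congr0 (h : ∀ K ∈ stepK m n j C T, s K = s' K) {L L' : List ℕ} (hL : L ∈ C)
    (hL' : L' ∈ C) {c c' : ℕ} (hc : c < n) (hc' : c' < n) :
    qs s m n [(L, j), (L', j)] [(0, c), (0, c')] =
      qs s' m n [(L, j), (L', j)] [(0, c), (0, c')] := by
  unfold qs
  rw [h _ (mem_k2 hL hL' (List.mem_cons_of_mem _ (List.mem_flatMap.2 ⟨c, List.mem_range.2 hc,
    List.mem_cons_of_mem _ (List.mem_append_left _ (List.mem_map.2 ⟨c', List.mem_range.2 hc',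
      rfl⟩))⟩)))]

theorem qs_congr2 (h : ∀ K ∈ stepK m n j C T, s K = s' K) {L L' : List ℕ} (hL : L ∈ C)
    (hL' : L' ∈ C) {c i : ℕ} (hc : c < n) (hi : i < m) :
    qs s m n [(L, j), (L', j)] [(0, c), (2, i)] =
      qs s' m n [(L, j), (L', j)] [(0, c), (2, i)] := by
  unfold qs
  rw [h _ (mem_k2 hL hL' (List.mem_cons_of_mem _ (List.mem_flatMap.2 ⟨c, List.mem_range.2 hc,
    List.mem_cons_of_mem _ (List.mem_append_right _ (List.mem_map.2 ⟨i, List.mem_range.2 hi,
      rfl⟩))⟩)))]

theorem qs_congr1 (h : ∀ K ∈ stepK m n j C T, s K = s' K) {L L' : List ℕ} (hL : L ∈ C)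
    (hL' : L' ∈ C) {c : ℕ} (hc : c < n) :
    qs s m n ((L, j) :: (L', j) :: T) ((0, c) :: (1, 0) :: cols T) =
      qs s' m n ((L, j) :: (L', j) :: T) ((0, c) :: (1, 0) :: cols T) := by
  unfold qs
  rw [h _ (mem_k2 hL hL' (List.mem_cons_of_mem _ (List.mem_flatMap.2 ⟨c, List.mem_range.2 hc,
    List.mem_cons_self⟩)))]

theorem mem_cks' {c : ℕ} (h : c ∈ cks n k) : c < n := List.mem_range.1 (List.mem_filter.1 h).1

theorem nz_congr (h : ∀ K ∈ stepK m n j C T, s K = s' K) {L : List ℕ} (hL : L ∈ C) :
    nz s m n (L, j) (cks n k) = nz s' m n (L, j) (cks n k) := by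
  unfold nz
  exact any_congr' fun c hc => by rw [nu_congr h hL (Or.inr (mem_cks' hc))]

theorem par_congr (h : ∀ K ∈ stepK m n j C T, s K = s' K) {L L' : List ℕ} (hL : L ∈ C)
    (hL' : L' ∈ C) : par s m n (L, j) (L', j) (cks n k) = par s' m n (L, j) (L', j) (cks n k) := by
  unfold par
  refine all_congr' fun c hc => ?_
  rw [nu_congr h hL (Or.inr (mem_cks' hc)), nu_congr h hL' (Or.inr (mem_cks' hc))]
  congr 1
  exact all_congr' fun c' hc' => by rw [qs_congr0 h hL hL' (mem_cks' hc) (mem_cks' hc')]

theorem better_congr (h : ∀ K ∈ stepK m n j C T, s K = s' K) {L L' : List ℕ} (hL : L ∈ C)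
    (hL' : L' ∈ C) :
    better s m n T (L, j) (L', j) (cks n k) = better s' m n T (L, j) (L', j) (cks n k) := by
  have hB : ∀ c ∈ cks n k, cmpB s m n T (L, j) (L', j) c = cmpB s' m n T (L, j) (L', j) c :=
    fun c hc => by
      unfold cmpB
      rw [nu_congr h hL (Or.inr (mem_cks' hc)), qs_congr1 h hL hL' (mem_cks' hc),
        qT_congr (h _ List.mem_cons_self)]
  have hI : ∀ c ∈ cks n k, ∀ i ∈ List.range m,
      cmpI s m n (L, j) (L', j) c i = cmpI s' m n (L, j) (L', j) c i := fun c hc i hi => by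
    unfold cmpI
    rw [nu_congr h hL (Or.inr (mem_cks' hc)), qs_congr2 h hL hL' (mem_cks' hc) (List.mem_range.1 hi)]
  unfold better
  refine any_congr' fun c hc => ?_
  have hW : ((List.range m).any fun i => decide (cmpI s m n (L, j) (L', j) c i < 0) &&
        (List.range m).all fun i' =>
          decide (i ≤ i') || decide (cmpI s m n (L, j) (L', j) c i' = 0)) =
      ((List.range m).any fun i => decide (cmpI s' m n (L, j) (L', j) c i < 0) &&
        (List.range m).all fun i' =>
          decide (i ≤ i') || decide (cmpI s' m n (L, j) (L', j) c i' = 0)) :=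
    any_congr' fun i hi => by
      rw [hI c hc i hi, all_congr' (l := List.range m)
        (p := fun i' => decide (i ≤ i') || decide (cmpI s m n (L, j) (L', j) c i' = 0))
        (q := fun i' => decide (i ≤ i') || decide (cmpI s' m n (L, j) (L', j) c i' = 0))
        fun i' hi' => by rw [hI c hc i' hi']]
  rw [nu_congr h hL (Or.inr (mem_cks' hc)), hB c hc, hW]

theorem mem_zipIdx_fst {α : Type} {l : List α} {p : α × ℕ} (h : p ∈ l.zipIdx) : p.1 ∈ l := by
  obtain ⟨a, i⟩ := p
  exact List.fst_mem_of_mem_zipIdx h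

theorem red_congr (h : ∀ K ∈ stepK m n j C T, s K = s' K) :
    red s m n T C j (cks n k) = red s' m n T C j (cks n k) := by
  have e : (C.filter fun L => nz s m n (L, j) (cks n k)) =
      C.filter fun L => nz s' m n (L, j) (cks n k) :=
    List.filter_congr fun L hL => nz_congr h hL
  unfold red
  rw [← e]
  refine congrArg _ (List.filter_congr fun p hp => ?_)
  have hp1 := (List.mem_filter.1 (mem_zipIdx_fst hp)).1
  refine all_congr' fun p' hp' => ?_
  have hp1' := (List.mem_filter.1 (mem_zipIdx_fst hp')).1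
  rw [par_congr h hp1 hp1', better_congr h hp1 hp1', better_congr h hp1' hp1]

theorem mem_red {L : List ℕ} {ks : List ℕ} (h : L ∈ red s m n T C j ks) : L ∈ C := by
  unfold red at h
  obtain ⟨p, hp, rfl⟩ := List.mem_map.1 h
  exact (List.mem_filter.1 (mem_zipIdx_fst (List.mem_filter.1 hp).1)).1

theorem gen_congr (h : ∀ K ∈ stepK m n j C T, s K = s' K) {K : List (List ℕ)}
    (hK : ∀ L ∈ K, L ∈ C) : gen s m n K j = gen s' m n K j := by
  unfold gen
  congr 1
  · exact List.filter_congr fun L hL => by rw [nu_congr h (hK L hL) (Or.inl rfl)]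
  · refine flatMap_congr' fun L hL => flatMap_congr' fun L' hL' => ?_
    rw [nu_congr h (hK L hL) (Or.inl rfl), nu_congr h (hK L' hL') (Or.inl rfl),
      kn_congr h (hK L hL) (hK L' hL')]

theorem pick_congr (h : ∀ K ∈ stepK m n j C T, s K = s' K) {K : List (List ℕ)}
    (hK : ∀ L ∈ K, L ∈ C) : pick s m n K j = pick s' m n K j := by
  unfold pick
  rw [List.filter_congr fun L hL => by rw [nu_congr h (hK L hL) (Or.inl rfl)],
    List.filter_congr (l := K) (p := fun L => decide (nu s m n (L, j) j = -1))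
      (q := fun L => decide (nu s' m n (L, j) j = -1))
      fun L hL => by rw [nu_congr h (hK L hL) (Or.inl rfl)]]

theorem stepS_congr {cap : List Unit} {st : St}
    (h : ∀ K ∈ stepK m n st.1.2 st.2.1 st.2.2, s K = s' K) :
    stepS s m n cap st = stepS s' m n cap st := by
  unfold stepS
  rw [red_congr h]
  have hK : ∀ L ∈ (red s' m n st.2.2 st.2.1 st.1.2 (cks n st.1.1)).take cap.length,
      L ∈ st.2.1 := fun L hL => mem_red (List.mem_of_mem_take hL)
  rw [gen_congr h hK, pick_congr h hK]

theorem fin_congr {st : St} (h : ∀ K ∈ finK m n st.2.2, s K = s' K) :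
    fin s m n st = fin s' m n st := by
  unfold fin
  refine all_congr' fun i hi => ?_
  rw [qT_congr (h _ List.mem_cons_self)]
  unfold qs
  rw [h _ (List.mem_cons_of_mem _ (List.mem_map.2 ⟨i, hi, rfl⟩))]

end

/-! ### Lengths -/

theorem len_posn (Rs : List Ray) (S : List ℕ) : (posn Rs S).length = Rs.length * S.length := by
  unfold posn
  rw [List.length_flatMap]
  simp

theorem len_kq (m n : ℕ) (Rs : List Ray) (us : List Col) :
    (kq m n Rs us).length = Rs.length * (n + m + 1) := by
  unfold kq mkey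
  rw [List.length_map, len_posn, List.length_range]

theorem len_kn (m n : ℕ) (R : Ray) : (kn m n R).length = n + m := by
  unfold kn mkey
  rw [List.length_map, len_posn, List.length_range, List.length_singleton, one_mul]

/-- the bound for the matrices -/
def nB (m n : ℕ) : ℕ := (m + n + 2) * (m + n + 1)

theorem len_kq_le {m n : ℕ} {Rs : List Ray} (us : List Col) (h : Rs.length ≤ n + 2) :
    (kq m n Rs us).length ≤ nB m n := by
  rw [len_kq]
  exact Nat.mul_le_mul (by omega) (by omega)

theorem stepK_short {m n j : ℕ} {C : List (List ℕ)} {T : List Ray} (hT : T.length ≤ n) :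
    ∀ K ∈ stepK m n j C T, K.length ≤ nB m n := by
  intro K hK
  simp only [stepK, k1, k2, List.mem_cons, List.mem_append, List.mem_flatMap, List.mem_map] at hK
  rcases hK with rfl | ⟨L, -, c, -, rfl⟩ | ⟨L, -, L', -, rfl | ⟨c, -, rfl | ⟨c', -, rfl⟩ |
    ⟨i, -, rfl⟩⟩⟩
  · exact len_kq_le _ (by omega)
  · exact len_kq_le _ (by simp)
  · rw [len_kn]
    unfold nB
    nlinarith
  · exact len_kq_le _ (by simp only [List.length_cons]; omega)
  · exact len_kq_le _ (by simp only [List.length_cons, List.length_nil]; omega)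
  · exact len_kq_le _ (by simp only [List.length_cons, List.length_nil]; omega)

theorem finK_short {m n : ℕ} {T : List Ray} (hT : T.length ≤ n) :
    ∀ K ∈ finK m n T, K.length ≤ nB m n := by
  intro K hK
  simp only [finK, List.mem_cons, List.mem_map] at hK
  rcases hK with rfl | ⟨i, -, rfl⟩
  · exact len_kq_le _ (by omega)
  · exact len_kq_le _ (by simp only [List.length_cons]; omega)

/-- the number of queries of a step -/
def cS (m n D : ℕ) : ℕ := D * (n + 1) + D * (D * (n * (n + m + 1) + 1)) + 1

theorem stepK_len (m n j : ℕ) (C : List (List ℕ)) (T : List Ray) :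
    (stepK m n j C T).length ≤ cS m n C.length := by
  have h1 : (C.flatMap (k1 m n j)).length ≤ C.length * (n + 1) :=
    len_flatMap_le C _ _ fun L _ => by simp [k1]
  have h2 : ∀ L L', (k2 m n j T L L').length ≤ n * (n + m + 1) + 1 := fun L L' => by
    unfold k2
    rw [List.length_cons]
    have := len_flatMap_le (List.range n) (fun c =>
      kq m n ((L, j) :: (L', j) :: T) ((0, c) :: (1, 0) :: cols T) ::
      (((List.range n).map fun c' => kq m n [(L, j), (L', j)] [(0, c), (0, c')]) ++
        (List.range m).map fun i => kq m n [(L, j), (L', j)] [(0, c), (2, i)])) (n + m + 1)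
      fun c _ => by simp
    rw [List.length_range] at this
    omega
  have h3 := len_flatMap_le C (fun L => C.flatMap fun L' => k2 m n j T L L')
    (C.length * (n * (n + m + 1) + 1)) fun L _ => len_flatMap_le C _ _ fun L' _ => h2 L L'
  unfold stepK cS
  rw [List.length_cons, List.length_append]
  omega

theorem finK_len (m n : ℕ) (T : List Ray) : (finK m n T).length = m + 1 := by
  simp [finK]

/-! ### The computation -/

/-- a step -/
def stepT (m n : ℕ) (cap : List Unit) (st : St) : TT St :=
  bnd (askT (stepK m n st.1.2 st.2.1 st.2.2)) fun o =>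
    ret (stepS (orc (stepK m n st.1.2 st.2.1 st.2.2) o) m n cap st)

/-- the last test -/
def finT (m n : ℕ) (st : St) : TT Bool :=
  bnd (askT (finK m n st.2.2)) fun o => ret (fin (orc (finK m n st.2.2) o) m n st)

/-- the bound for the number of directions -/
def capU (κ m n : ℕ) : List Unit := List.replicate ((m + n) ^ κ) ()

/-- the computation -/
def TA (κ m n : ℕ) : TT Bool :=
  bnd (iter (stepT m n (capU κ m n)) (n * n) (st0 m n)) fun st => finT m n st

/-- the algorithm -/
def alg (κ : ℕ) : Alg := algOf (TA κ)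

end Pool.Agent.H54.FD
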